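import Pool.Agent.Work.MP_8f87b2_h27.Ed
import Pool.Agent.Work.MP_8f87b2_h22.JE
import Pool.Agent.Work.MP_8f87b2_h6.TyJ3V
import Pool.Agent.Work.MP_8f87b2_h99.Ty9
import Pool.Agent.Work.MP_8f87b2_h3.A0T
import Pool.Agent.Work.MP_8f87b2_h60.Runs
import Pool.Agent.Work.MP_8f87b2_h61.JsW

/-!
# MP_8f87b2_co: the deep E triples (`TyEd`) against the J kinds and T, by contents

`C23 P`: the content of `P` has a part 2 or 3. A deep E triple has no such word (`TyEd.not_mem`). All words of the gadgets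
JM, J3, J4, J5, NM, JY (form `JG`), J3V (`SqD`), JV (`Is9`), T with a part 2 in the reduced class have `C23`.
-/

set_option autoImplicit false

namespace Pool.OddHC

open Finset Equiv BinaryTree Pool.Agent.Work.MP_8f87b2_co

variable {k : ℕ} {F F' : Set (Cyc k)} {g g' : DG k}

/-- a part 2 or 3 -/
def C23 (P : BinaryTree Unit) : Prop := 2 ∈ cont P ∨ 3 ∈ cont P

/-- height at least 4 (by contents) -/
def H4 (P : BinaryTree Unit) : Prop := 4 ≤ (cont P).sup

theorem H4.nl {A : BinaryTree Unit} (h : H4 A) (Y : BinaryTree Unit) : H4 (A △ Y) := by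
  unfold H4 at h ⊢
  rw [cont_node, Multiset.sup_add, sup_raise]
  exact le_trans (by omega) le_sup_left

theorem H4.nr {Y : BinaryTree Unit} (h : H4 Y) (A : BinaryTree Unit) : H4 (A △ Y) := by
  unfold H4 at h ⊢
  rw [cont_node, Multiset.sup_add]
  exact le_trans h le_sup_right

theorem H4.al {P : BinaryTree Unit} (h : H4 P) (Q : BinaryTree Unit) : H4 (app P Q) := by
  unfold H4 at h ⊢
  rw [cont_app, Multiset.sup_add]
  exact le_trans h le_sup_left

theorem H4.ar {Q : BinaryTree Unit} (h : H4 Q) (P : BinaryTree Unit) : H4 (app P Q) := by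
  unfold H4 at h ⊢
  rw [cont_app, Multiset.sup_add]
  exact le_trans h le_sup_right

theorem C23.nr {Y : BinaryTree Unit} (h : C23 Y) (A : BinaryTree Unit) : C23 (A △ Y) := by
  unfold C23 at h ⊢
  rw [cont_node, Multiset.mem_add, Multiset.mem_add]
  rcases h with h | h
  · exact Or.inl (Or.inr h)
  · exact Or.inr (Or.inr h)

theorem C23.al {P : BinaryTree Unit} (h : C23 P) (Q : BinaryTree Unit) : C23 (app P Q) := by
  unfold C23 at h ⊢
  rw [cont_app, Multiset.mem_add, Multiset.mem_add]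
  rcases h with h | h
  · exact Or.inl (Or.inl h)
  · exact Or.inr (Or.inl h)

theorem C23.ar {Q : BinaryTree Unit} (h : C23 Q) (P : BinaryTree Unit) : C23 (app P Q) := by
  unfold C23 at h ⊢
  rw [cont_app, Multiset.mem_add, Multiset.mem_add]
  rcases h with h | h
  · exact Or.inl (Or.inr h)
  · exact Or.inr (Or.inr h)

theorem mem_raise_lt {M : Multiset ℕ} {x : ℕ} (h : x ∈ M) (h2 : x < M.sup) : x ∈ raise M := by
  unfold raise
  rw [Multiset.mem_cons]
  right
  exact (Multiset.mem_erase_of_ne (by omega)).2 h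

theorem C23.nl {A : BinaryTree Unit} (h : C23 A) (h4 : H4 A) (Y : BinaryTree Unit) : C23 (A △ Y) := by
  unfold H4 at h4
  unfold C23 at h ⊢
  rw [cont_node, Multiset.mem_add, Multiset.mem_add]
  rcases h with h | h
  · exact Or.inl (Or.inl (mem_raise_lt h (by omega)))
  · exact Or.inr (Or.inl (mem_raise_lt h (by omega)))

theorem two_nl {A : BinaryTree Unit} (h : 2 ∈ cont A) (Y : BinaryTree Unit) : C23 (A △ Y) := by
  unfold C23
  rw [cont_node, Multiset.mem_add, Multiset.mem_add]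
  have h1 := Multiset.le_sup h
  rcases Nat.lt_or_ge 2 (cont A).sup with h2 | h2
  · exact Or.inl (Or.inl (mem_raise_lt h h2))
  · right; left
    unfold raise
    rw [Multiset.mem_cons]
    left
    omega

theorem two_al {P : BinaryTree Unit} (h : 2 ∈ cont P) (Q : BinaryTree Unit) : 2 ∈ cont (app P Q) := by
  rw [cont_app, Multiset.mem_add]; exact Or.inl h

/-- the words with `R` -/
theorem C23.lo {R : BinaryTree Unit} (h : C23 R) (h4 : H4 R) (Q B S : BinaryTree Unit) :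
    ∀ i < 10, C23 (H1.W R Q B S i) := by
  intro i hi
  interval_cases i
  · exact h.al _
  · exact h.al _
  · exact (h.al _).nr _
  · exact (h.al _).nl (h4.al _) _
  · exact h.nr _
  · exact (h.nr _).nr _
  · exact h.nl h4 _
  · exact ((h.nr _).nl (h4.nr _) _).ar _
  · exact ((h.nl h4 _).nr _).ar _
  · exact (h.nl h4 _).nl (h4.nl _) _

/-- the words with `S` -/
theorem C23.hi {S : BinaryTree Unit} (h : C23 S) (h4 : H4 S) (R Q B : BinaryTree Unit) :
    ∀ i, 10 ≤ i → i < 20 → C23 (H1.W R Q B S i) := by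
  intro i h1 h2
  interval_cases i
  · exact (h.nr _).ar _
  · exact (((h.nr _).ar _).nr _).ar _
  · exact h.nl h4 _
  · exact h.al _
  · exact ((h.nr _).ar _).nl ((h4.nr _).ar _) _
  · exact (h.nl h4 _).nr _
  · exact h.al _
  · exact ((h.nl h4 _).nl (h4.nl _) _).ar _
  · exact ((h.al _).nr _).ar _
  · exact (h.al _).nl (h4.al _) _

/-- the words with `S`, a part 2 in `B` -/
theorem two_hi {B S : BinaryTree Unit} (h : 2 ∈ cont B) (h4 : H4 S) (R Q : BinaryTree Unit) :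
    ∀ i, 10 ≤ i → i < 20 → C23 (H1.W R Q B S i) := by
  have hB : C23 B := Or.inl h
  intro i h1 h2
  interval_cases i
  · exact hB.al _
  · exact hB.al _
  · exact (hB.al _).nr _
  · exact (two_nl (two_al h _) _).ar _
  · exact hB.nr _
  · exact (hB.nr _).nr _
  · exact (two_nl h _).ar _
  · exact ((hB.nr _).nl (h4.nl _) _).ar _
  · exact ((((two_nl h _)).ar _).nr _).ar _
  · exact ((two_nl h _).ar _).nl (h4.al _) _

/-- all twenty words, a part 2 in `R` -/
theorem two_words {R B S : BinaryTree Unit} (hc : cont B + cont S = cont R) (h2 : 2 ∈ cont R) (hR : H4 R)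
    (hS : H4 S) (Q : BinaryTree Unit) {i : ℕ} (hi : i < 20) : C23 (H1.W R Q B S i) := by
  rcases Nat.lt_or_ge i 10 with h | h
  · exact C23.lo (Or.inl h2) hR _ _ _ i h
  · rw [← hc, Multiset.mem_add] at h2
    rcases h2 with h2 | h2
    · exact two_hi h2 hS _ _ i h hi
    · exact C23.hi (Or.inl h2) hS _ _ _ i h hi

/-- **the content argument**: common words -/
theorem C23.not_Ed (h' : TyEd F' g') {w : X k} (h : C23 w.1) : w ∉ g'.B := by
  apply h'.not_mem
  rcases h with h | h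
  · exact Or.inl (Multiset.count_pos.2 h)
  · exact Or.inr (Multiset.count_pos.2 h)

/-- **the content argument**: inner words -/
theorem inner_Ed_of (hB : ∀ w ∈ g.B, C23 w.1) (hp : ∀ a ∈ g.arcs, a.1 ∈ g.B) (h' : TyEd F' g') :
    ∀ p ∈ g.arcs, ∀ w ∈ innA p, w ∉ g'.B := by
  intro p hpa w hw
  have e : w = TT p.1 := hw
  apply C23.not_Ed h'
  have e1 : cont w.1 = cont p.1.1 := by
    rw [e]
    exact (cont_same ⟨1, by rw [zpow_one]⟩).symm
  have h1 := hB _ (hp p hpa)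
  unfold C23 at h1 ⊢
  rw [e1]
  exact h1

/-! ### One soliton: JM, J4, J5, NM, JY -/

theorem H4_of {t : BinaryTree Unit} (h : 4 ≤ OddHC.ht t) : H4 t := by
  unfold H4
  rw [← OddHC.ht_eq]
  exact h

theorem J.JG.c23 {n : ℕ} (hn : 2 ≤ n) {B : Finset (X k)} {P U M : Set (ZMod (2 * n + 1) → ℕ)}
    (h : J.JG n B P U M) (hP : ∀ Φ ∈ P, 1 ≤ ∑ x, Φ x) : ∀ w ∈ B, C23 w.1 := by
  have key : ∀ G : ZMod (2 * n + 1) → ℕ, H4 (Ring1.RF n G) ∧ (1 ≤ ∑ x, G x → C23 (Ring1.RF n G)) := by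
    intro G
    have hc := Ring1.cont_RF (by omega : 1 ≤ n) G
    constructor
    · unfold H4
      rw [hc, Multiset.sup_add, Multiset.sup_singleton]
      exact le_trans (by omega) le_sup_left
    · intro h1
      left
      rw [hc, Multiset.mem_add]
      right
      rw [Multiset.mem_replicate]
      exact ⟨by omega, rfl⟩
  intro w hw
  rcases h w hw with ⟨Φ, hΦ, i, hi, _, _, e⟩ | ⟨G, _, hG, e⟩ | ⟨Ψ, _, t, D, u, i, ht, hD, hm, hi, hi', e⟩
  · rw [e]
    exact C23.lo ((key Φ).2 (hP Φ hΦ)) (key Φ).1 _ _ _ i hi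
  · rw [e]
    refine (key G).2 ?_
    have h1 : G 0 ≤ ∑ x, G x := Finset.single_le_sum (fun _ _ => Nat.zero_le _) (Finset.mem_univ _)
    have h2 : G (-1) ≤ ∑ x, G x := Finset.single_le_sum (fun _ _ => Nat.zero_le _) (Finset.mem_univ _)
    omega
  · have e1 : cont w.1 = cont (J.mw t D u i) := by rw [e, HM.cont_mir]
    have h2 : 2 ∈ cont (J.b2 t) := by
      have e2 : cont (J.b2 t) = Multiset.replicate t 2 := by
        change cont (lv2 t .nil) = _
        rw [cont_lv2, cont_nil, add_zero]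
      rw [e2, Multiset.mem_replicate]
      exact ⟨by omega, rfl⟩
    have h4 : H4 (J.RR 0 D u) := by
      have h5 := (key Ψ).1
      unfold H4 at h5 ⊢
      rw [← HM.cont_mir, hm] at h5
      have e2 : cont (J.RR t D u) = Multiset.replicate t 2 + cont (J.RR 0 D u) := by
        change cont (lv2 t (J.RR 0 D u)) = _
        rw [cont_lv2]
      rw [e2, Multiset.sup_add] at h5
      have h6 : (Multiset.replicate t 2 : Multiset ℕ).sup ≤ 2 := by
        apply Multiset.sup_le.2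
        intro b hb
        rw [Multiset.eq_of_mem_replicate hb]
      rcases le_sup_iff.1 h5 with h5 | h5
      · omega
      · exact h5
    unfold C23
    rw [e1]
    exact two_hi h2 h4 _ _ i (by omega) hi'

/-- **W-Ed-{JM, J3, ..}** (form `JG`, `n ≥ 2`) -/
theorem J.JG.disj_Ed {n : ℕ} (hn : 2 ≤ n) {B : Finset (X k)} {P U M : Set (ZMod (2 * n + 1) → ℕ)}
    (h : J.JG n B P U M) (hP : ∀ Φ ∈ P, 1 ≤ ∑ x, Φ x) (h' : TyEd F' g') : ∀ w ∈ B, w ∉ g'.B :=
  fun w hw => C23.not_Ed h' (h.c23 hn hP w hw)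

/-- **I-{JM, J3, ..}-Ed** (form `JG`, `n ≥ 2`); `hp` is part of `path` -/
theorem J.JG.inner_Ed {n : ℕ} (hn : 2 ≤ n) {P U M : Set (ZMod (2 * n + 1) → ℕ)}
    (h : J.JG n g.B P U M) (hP : ∀ Φ ∈ P, 1 ≤ ∑ x, Φ x) (hp : ∀ a ∈ g.arcs, a.1 ∈ g.B)
    (h' : TyEd F' g') : ∀ p ∈ g.arcs, ∀ w ∈ innA p, w ∉ g'.B :=
  inner_Ed_of (h.c23 hn hP) hp h'

/-! ### J3V -/

open J3

theorem J3.SqD.cont_eq' {R B S : BinaryTree Unit} (h : SqD k R B S) :
    OddHC.cont B + OddHC.cont S = OddHC.cont R := by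
  have := HM.sq_cont h.ne
  rw [h.sq] at this
  exact this

theorem J3.SqD.c23 {R B S : BinaryTree Unit} (h : SqD k R B S) (h2 : 2 ∈ OddHC.cont R)
    (h4 : 4 ≤ OddHC.ht R) {i : ℕ} (hi : i < 20) : C23 (H1.W R .nil B S i) :=
  two_words h.cont_eq' h2 (H4_of h4) (H4_of (by rw [h.htS]; exact h4)) _ hi

/-- the words of a gadget of type J3V whose new T-cycles have at least two parts 2 -/
theorem TyJ3V.c23 (h : TyJ3V F g) (h2 : ∀ c ∈ F, 2 ≤ (contc c).count 2 ∧ 4 ≤ htc c) :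
    ∀ w ∈ g.B, C23 w.1 := by
  obtain ⟨R, B, S, w0, h1, hp, rfl, rfl⟩ := h
  have h3 := h2 _ (Or.inl rfl)
  have e0 : (sX R B S w0 0).1 = app R ((.nil △ .nil) △ .nil) := h1.word w0 (by norm_num)
  have e1 : contc (cyc (sX R B S w0 0)) = cont R + {2} := by
    change cont (sX R B S w0 0).1 = _
    rw [e0, cont_app]
    rfl
  have e2 : htc (cyc (sX R B S w0 0)) = OddHC.ht R := by
    rw [htc_cyc, e0, ht_app]
    have e3 : OddHC.ht ((.nil △ .nil) △ .nil : BinaryTree Unit) = 2 := rfl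
    have := h1.h3
    rw [e3]
    omega
  rw [e1, e2, Multiset.count_add, Multiset.count_singleton_self] at h3
  have h4 : 2 ∈ cont R := Multiset.count_pos.1 (by omega)
  intro w hw
  obtain ⟨i, hi, h9, rfl⟩ := mem_gadS.1 hw
  rw [h1.word w0 hi]
  exact h1.c23 h4 h3.2 hi

/-- **W-Ed-J3V** (`a ≥ 2`) -/
theorem TyJ3V.disj_Ed (h : TyJ3V F g) (h2 : ∀ c ∈ F, 2 ≤ (contc c).count 2 ∧ 4 ≤ htc c)
    (h' : TyEd F' g') : ∀ w ∈ g.B, w ∉ g'.B :=
  fun w hw => C23.not_Ed h' (h.c23 h2 w hw)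

/-- **I-J3V-Ed** (`a ≥ 2`) -/
theorem TyJ3V.inner_Ed (h : TyJ3V F g) (h2 : ∀ c ∈ F, 2 ≤ (contc c).count 2 ∧ 4 ≤ htc c)
    (h' : TyEd F' g') : ∀ p ∈ g.arcs, ∀ w ∈ innA p, w ∉ g'.B := by
  refine inner_Ed_of (h.c23 h2) ?_ h'
  intro a ha
  obtain ⟨_, _, h3, _⟩ := h.path a ha
  exact h3

/-! ### JV -/

/-- the words of `Is9 nil nil S`, `S` with a part 2 or 3 which is not the largest one -/
theorem Is9.c23 {S : BinaryTree Unit} (h : Is9 .nil .nil S F g) (h2 : C23 S) (h4 : 4 ≤ OddHC.ht S) :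
    ∀ w ∈ g.B, C23 w.1 := by
  have hH := H4_of h4
  have hS0 : S ≠ .nil := by
    rintro rfl
    rw [OddHC.ht] at h4
    omega
  have hX : C23 (xT S) ∧ H4 (xT S) := by
    obtain ⟨q1, q2⟩ := ht_sq hS0
    have hc := HM.sq_cont hS0
    have h5 : H4 (Tsq.sq S).1 := H4_of (by rw [q1]; exact h4)
    rw [xT_sq]
    refine ⟨?_, h5.nl _⟩
    unfold C23 at h2
    rw [← hc, Multiset.mem_add, Multiset.mem_add] at h2
    rcases h2 with (h2 | h2) | (h2 | h2)
    · exact C23.nr (Or.inl h2) _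
    · exact C23.nl (Or.inl h2) h5 _
    · exact C23.nr (Or.inr h2) _
    · exact C23.nl (Or.inr h2) h5 _
  intro w hw
  obtain ⟨i, hi, e, _⟩ := h.words w hw
  rw [e]
  interval_cases i
  · exact h2.al _
  · exact h2.nr _
  · exact (h2.nr _).nl (hH.nr _) _
  · exact (h2.nl hH _).nl (hH.nl _) _
  · exact (h2.al _).nl (hH.al _) _
  · exact h2.nl hH _
  · exact hX.1.nl hX.2 _
  · exact hX.1.al _
  · exact hX.1.nr _

/-- **W-Ed-JV**: `S` has a part 2 or 3 (otherwise the row W-E-JV by `TyEd.toE`) -/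
theorem Is9.disj_Ed {S : BinaryTree Unit} (h : Is9 .nil .nil S F g) (h2 : C23 S) (h4 : 4 ≤ OddHC.ht S)
    (h' : TyEd F' g') : ∀ w ∈ g.B, w ∉ g'.B :=
  fun w hw => C23.not_Ed h' (h.c23 h2 h4 w hw)

/-- **I-JV-Ed**: `S` has a part 2 or 3 (otherwise the row I-JV-E by `TyEd.toE`) -/
theorem Is9.inner_Ed {S : BinaryTree Unit} (h : Is9 .nil .nil S F g) (h2 : C23 S) (h4 : 4 ≤ OddHC.ht S)
    (h' : TyEd F' g') : ∀ p ∈ g.arcs, ∀ w ∈ innA p, w ∉ g'.B := by
  refine inner_Ed_of (h.c23 h2 h4) ?_ h'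
  obtain ⟨w, h1, rfl, rfl⟩ := h
  intro a ha
  have ha' : a = (w 3, w 6) ∨ a = (w 4, w 7) ∨ a = (w 5, w 8) := ha
  rcases ha' with rfl | rfl | rfl
  · exact mem_gad9.2 ⟨3, by norm_num, rfl⟩
  · exact mem_gad9.2 ⟨4, by norm_num, rfl⟩
  · exact mem_gad9.2 ⟨5, by norm_num, rfl⟩

/-! ### T -/

/-- the words of the windows of height 3 -/
theorem TyT.c23 (h : TyT F g) : ∀ w ∈ g.B, C23 w.1 := by
  obtain ⟨b, m, a, w0, h1, rfl, rfl⟩ := h
  have ha := h1.pos
  have hR : T2 (H1.R3 b m a) := by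
    unfold T2
    rw [H1.cont_R3]
    refine ⟨?_, ?_⟩
    · rw [Multiset.mem_add, Multiset.mem_add, Multiset.mem_add]
      exact Or.inr (Or.inr (Or.inr (Multiset.mem_replicate.2 ⟨by omega, rfl⟩)))
    · have h3 : 3 ∈ Multiset.replicate b 3 + ({3} + (Multiset.replicate m 1 + Multiset.replicate a 2)) := by
        simp
      exact Multiset.le_sup h3
  have hS : T2 (H1.S3 m a) := by
    have h0 := H1.cont_R3 0 m a
    have e : cont (H1.S3 m a) = {3} + (Multiset.replicate m 1 + Multiset.replicate a 2) := by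
      have h2 := (H1.dat3 0 m a).cont
      rw [h0] at h2
      have e1 : cont (H1.th 0 .nil) = 0 := rfl
      rw [e1, zero_add] at h2
      rw [h2]
      simp
    unfold T2
    rw [e]
    refine ⟨?_, ?_⟩
    · rw [Multiset.mem_add, Multiset.mem_add]
      exact Or.inr (Or.inr (Multiset.mem_replicate.2 ⟨by omega, rfl⟩))
    · have h3 : 3 ∈ ({3} + (Multiset.replicate m 1 + Multiset.replicate a 2) : Multiset ℕ) := by simp
      exact Multiset.le_sup h3
  intro w hw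
  obtain ⟨i, hi, rfl⟩ := mem_gad20.1 hw
  have e1 : (H1.tX b m a w0 i).1 = H1.W (H1.R3 b m a) (H1.ch (0 + 1)) (H1.th b .nil) (H1.S3 m a) i :=
    H1.wX_eq (H1.dat3 b m a) h1.sizeR w0 hi
  rw [e1]
  exact Or.inl (T2.words hR hS hi).1

/-- **W-Ed-T** and **I-T-Ed** -/
theorem TyT.disj_Ed (h : TyT F g) (h' : TyEd F' g') : ∀ w ∈ g.B, w ∉ g'.B :=
  fun w hw => C23.not_Ed h' (h.c23 w hw)

theorem TyT.inner_Ed (h : TyT F g) (h' : TyEd F' g') : ∀ p ∈ g.arcs, ∀ w ∈ innA p, w ∉ g'.B := by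
  refine inner_Ed_of h.c23 ?_ h'
  intro a ha
  obtain ⟨_, _, h3, _⟩ := h.path a ha
  exact h3

end Pool.OddHC
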