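import Pool.Agent.Work.MP_8f87b2_h10.EdJ
import Pool.Agent.Work.MP_8f87b2_h61.JsE

/-!
# MP_8f87b2_co, rows I-J1-Ed, W-Ed-J1
-/

set_option autoImplicit false

namespace Pool.OddHC

open Finset Equiv BinaryTree Pool.Agent.Work.MP_8f87b2_co

variable {k : ℕ} {F F' : Set (Cyc k)} {g g' : DG k}

/-- the content argument, with the words of the arcs only -/
theorem inner_Ed_arcs (hc : ∀ a ∈ g.arcs, C23 a.1.1) (h' : TyEd F' g') :
    ∀ p ∈ g.arcs, ∀ w ∈ innA p, w ∉ g'.B := by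
  intro p hpa w hw
  have e : w = TT p.1 := hw
  apply C23.not_Ed h'
  have e1 : cont w.1 = cont p.1.1 := by
    rw [e]
    exact (cont_same ⟨1, by rw [zpow_one]⟩).symm
  have h1 := hc p hpa
  unfold C23 at h1 ⊢
  rw [e1]
  exact h1

open J1 H1 in
/-- **I-J1-Ed**: `R` has a part 3, height at least 4 -/
theorem J1.TyJ1.inner_Ed (h : J1.TyJ1 F g) (h3 : ∀ c ∈ F, 3 ∈ contc c ∧ 4 ≤ htc c) (h' : TyEd F' g') :
    ∀ p ∈ g.arcs, ∀ w ∈ innA p, w ∉ g'.B := by
  refine inner_Ed_arcs ?_ h'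
  obtain ⟨R, B, S, w0, h1, h4, rfl, rfl⟩ := h
  have h5 := h3 _ rfl
  have e0 : (jX R B S w0 0).1 = app R ((.nil △ .nil) △ .nil) := jX_eq h1 w0 (by norm_num)
  have e1 : contc (cyc (jX R B S w0 0)) = OddHC.cont R + {2} := by
    change OddHC.cont (jX R B S w0 0).1 = _
    rw [e0, cont_app]
    rfl
  have e2 : htc (cyc (jX R B S w0 0)) = OddHC.ht R := by
    rw [htc_cyc, e0, ht_app]
    have e3 : OddHC.ht ((.nil △ .nil) △ .nil : BinaryTree Unit) = 2 := rfl
    have := h1.big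
    rw [e3]
    omega
  rw [e1, e2, Multiset.mem_add, Multiset.mem_singleton] at h5
  have h6 : C23 R := Or.inr (h5.1.resolve_right (by omega))
  have key : ∀ i < 10, C23 (jX R B S w0 i).1 := by
    intro i hi
    rw [jX_eq h1 w0 (by omega)]
    exact h6.lo (H4_of h5.2) _ _ _ i hi
  intro p hp
  have hp' : p = (jX R B S w0 1, jX R B S w0 11) ∨ p = (jX R B S w0 3, jX R B S w0 12) ∨
      p = (jX R B S w0 6, jX R B S w0 15) ∨ p = (jX R B S w0 8, jX R B S w0 14) ∨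
      p = (jX R B S w0 9, jX R B S w0 17) := hp
  rcases hp' with rfl | rfl | rfl | rfl | rfl
  · exact key 1 (by norm_num)
  · exact key 3 (by norm_num)
  · exact key 6 (by norm_num)
  · exact key 8 (by norm_num)
  · exact key 9 (by norm_num)

open J1 H1 in
/-- **W-Ed-J1**: the deep E pair is not `{X(), ()X}`, `X = [n+1][4]` -/
theorem J1.js_Ed (h : TyEd F g) (h' : TyJs F' g') (hd : ∀ c ∈ F, c ∉ F')
    (hX : ∀ n, 3 ≤ n → n + 6 = k → ∀ w : X k, w.1 = .nil △ app (ch (n + 1)) (ch 4) → cyc w ∉ F) :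
    ∀ w ∈ g.B, w ∉ g'.B := by
  obtain ⟨j, r, f, hj, hD, ht⟩ := h
  have hl : (lf f).length = 2 * r.1.numNodes + 1 := by rw [lf_length, X_num]
  refine js_E' ht h' hd ?_
  intro n hn hk hX'
  rcases crX_low hn hX' with ⟨_, _, h3⟩ | h5
  · have e3 : (OddHC.cont (ins r.1 (lf f))).count 3 = 0 := by
      rw [H1.count_ins hl 1]; exact hD.2
    omega
  · have e : ins r.1 (lf f) = app (ch (n + 1)) (ch 4) := comps_inj (h5.trans rfl)
    obtain ⟨a, b, c, ha, hb, hc', e1, e2, e3, rfl, rfl⟩ := ht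
    refine hX n hn hk c ?_ (Or.inr rfl)
    rw [hc', e]
    rfl

end Pool.OddHC
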