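import Pool.Agent.Work.MP_8f87b2_h26.TyL1
import Pool.Agent.Work.MP_8f87b2_h10.EdJ1

/-!
# MP_8f87b2_co, type L1: words, arcs and inner words; rows W-Ed-L1, I-L1-Ed
-/

set_option autoImplicit false

namespace Pool.OddHC

open Finset Equiv BinaryTree Pool.Agent.Work.MP_8f87b2_co

namespace L1

open H1 J

variable {k n : ℕ} {F F' : Set (Cyc k)} {g g' : DG k}

/-- the word number `i` of the gadget of `RH n Φ` -/
noncomputable def LWd (n : ℕ) (Φ : ZMod (2 * n + 1) → ℕ) (i : ℕ) : BinaryTree Unit :=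
  H1.W (RH n Φ) .nil (Tsq.sq (RH n Φ)).2 (Tsq.sq (RH n Φ)).1 i

/-- data of a right gadget, without the condition on the T-cycles -/
structure Db (k n : ℕ) (Φ : ZMod (2 * n + 1) → ℕ) : Prop where
  hn : 1 ≤ n
  one : 1 ≤ ∑ x, Φ x
  hk : n + 5 + 2 * ∑ x, Φ x = k

theorem Ba.db {Φ : ZMod (2 * n + 1) → ℕ} (h : Ba k n Φ) : Db k n Φ := ⟨h.hn, h.one, h.hk⟩

theorem Ba.dbM {Φ : ZMod (2 * n + 1) → ℕ} (h : Ba k n Φ) : Db k n (rf Φ) :=
  ⟨h.hn, by rw [rf_sum]; exact h.one, by rw [rf_sum]; exact h.hk⟩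

theorem Db.val {Φ : ZMod (2 * n + 1) → ℕ} (h : Db k n Φ) (w0 : X k) {i : ℕ} (hi : i < 20) :
    (xw n Φ w0 i).1 = LWd n Φ i := xw_val h.hn h.hk w0 hi

/-- the rule for the functions of the right words: `RuR Φ`, or `RuM (rf Φ)` -/
def RuA (n : ℕ) (Φ : ZMod (2 * n + 1) → ℕ) (m : Bool) : Prop := if m = true then RuM n (rf Φ) else RuR n Φ

/-- **the words of a gadget of type L1**: `m = true` : mirrored -/
theorem words_L1 (h : TyL1 F g) : ∃ (n : ℕ) (Φ : ZMod (2 * n + 1) → ℕ) (m : Bool), Db k n Φ ∧ RuA n Φ m ∧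
    ∀ w ∈ g.B, ∃ i < 20, i ≠ 5 ∧ (if m = true then Tsq.mirX w else w).1 = LWd n Φ i := by
  rcases h with ⟨n, Φ, w0, h1, h2, _, rfl⟩ | ⟨n, Φ, w0, h1, h2, _, rfl⟩
  · refine ⟨n, Φ, false, h1.db, h2, ?_⟩
    intro w hw
    obtain ⟨i, hi, rfl⟩ := Finset.mem_image.1 (show w ∈ ((range 20).erase 5).image _ from hw)
    rw [mem_erase, mem_range] at hi
    exact ⟨i, hi.2, hi.1, h1.db.val w0 hi.2⟩
  · refine ⟨n, rf Φ, true, h1.dbM, ?_, ?_⟩
    · change RuM n (rf (rf Φ))
      rw [rf_rf]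
      exact h2
    · intro w hw
      obtain ⟨i, hi, h5, rfl⟩ := mem_gadJM.1 hw
      refine ⟨i, hi, h5, ?_⟩
      change (Tsq.mirX (Tsq.mirX (xw n (rf Φ) w0 i))).1 = _
      rw [HM.mirX_mirX]
      exact h1.dbM.val w0 hi

/-- **the inner words of a gadget of type L1** (or their mirror images, `m = true`): `TT x`, `x` the word 1, 3, 6, 8 -/
theorem inner_L1 (h : TyL1 F g) : ∃ (n : ℕ) (Φ : ZMod (2 * n + 1) → ℕ) (m : Bool), Db k n Φ ∧ RuA n Φ m ∧
    ∀ p ∈ g.arcs, ∀ w ∈ innA p, ∃ (i : ℕ) (x : X k), i ∈ [1, 3, 6, 8] ∧ x.1 = LWd n Φ i ∧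
      (if m = true then Tsq.mirX w else w) = TT x := by
  rcases h with ⟨n, Φ, w0, h1, h2, _, rfl⟩ | ⟨n, Φ, w0, h1, h2, _, rfl⟩
  · refine ⟨n, Φ, false, h1.db, h2, ?_⟩
    intro p hp w hw
    have hw' : w = TT p.1 := hw
    have key : ∀ i, i ∈ [1, 3, 6, 8] → p.1 = xw n Φ w0 i → ∃ (i : ℕ) (x : X k), i ∈ [1, 3, 6, 8] ∧
        x.1 = LWd n Φ i ∧ (if false = true then Tsq.mirX w else w) = TT x := by
      intro i hi e
      have hi20 : i < 20 := by
        simp only [List.mem_cons, List.not_mem_nil, or_false] at hi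
        omega
      exact ⟨i, xw n Φ w0 i, hi, h1.db.val w0 hi20, by rw [hw', e]; rfl⟩
    have hp' : p = (xw n Φ w0 1, xw n Φ w0 11) ∨ p = (xw n Φ w0 3, xw n Φ w0 12) ∨
        p = (xw n Φ w0 6, xw n Φ w0 15) ∨ p = (xw n Φ w0 8, xw n Φ w0 14) := hp
    rcases hp' with e | e | e | e
    · exact key 1 (by simp) (by rw [e])
    · exact key 3 (by simp) (by rw [e])
    · exact key 6 (by simp) (by rw [e])
    · exact key 8 (by simp) (by rw [e])
  · refine ⟨n, rf Φ, true, h1.dbM, ?_, ?_⟩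
    · change RuM n (rf (rf Φ))
      rw [rf_rf]
      exact h2
    · intro p hp w hw
      have hw' : w = TT p.1 := hw
      have hg := GR_RH h1.dbM.hn (rf Φ) h1.dbM.hk
      have key : ∀ i j, (i, j) ∈ [(0, 10), (1, 11), (3, 12), (6, 15), (8, 14), (9, 17)] →
          i ∈ [1, 3, 6, 8] → p.1 = xm n Φ w0 j → ∃ (i : ℕ) (x : X k), i ∈ [1, 3, 6, 8] ∧
          x.1 = LWd n (rf Φ) i ∧ (if true = true then Tsq.mirX w else w) = TT x := by
        intro i j hij hi e
        have hi20 : i < 20 := by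
          simp only [List.mem_cons, List.not_mem_nil, or_false] at hi
          omega
        refine ⟨i, xw n (rf Φ) w0 i, hi, h1.dbM.val w0 hi20, ?_⟩
        rw [if_pos rfl, hw', e]
        change Tsq.mirX (TT (Tsq.mirX (xw n (rf Φ) w0 j))) = _
        have e1 : xw n (rf Φ) w0 j = TT (TT (xw n (rf Φ) w0 i)) := (hg.link w0 hij).symm
        rw [e1, Tsq.TT_mir, HM.mirX_mirX]
      have hp' : p = (xm n Φ w0 11, xm n Φ w0 1) ∨ p = (xm n Φ w0 12, xm n Φ w0 3) ∨
          p = (xm n Φ w0 15, xm n Φ w0 6) ∨ p = (xm n Φ w0 14, xm n Φ w0 8) := hp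
      rcases hp' with e | e | e | e
      · exact key 1 11 (by simp) (by simp) (by rw [e])
      · exact key 3 12 (by simp) (by simp) (by rw [e])
      · exact key 6 15 (by simp) (by simp) (by rw [e])
      · exact key 8 14 (by simp) (by simp) (by rw [e])

/-! ### Rows W-Ed-L1, I-L1-Ed -/

theorem mem_raise_two {M : Multiset ℕ} {x : ℕ} (h : x ∈ M) (h2 : x < M.sup ∨ 2 ≤ M.count x) :
    x ∈ raise M := by
  rcases h2 with h2 | h2
  · exact mem_raise_lt h h2
  · unfold raise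
    rw [Multiset.mem_cons]
    right
    by_cases e : x = M.sup
    · rw [← e]
      refine Multiset.count_pos.1 ?_
      rw [Multiset.count_erase_self]
      omega
    · exact (Multiset.mem_erase_of_ne e).2 h

/-- a part 2 in `B`, height of `S` at least 3 -/
theorem two_hi3 {B S : BinaryTree Unit} (h : 2 ∈ cont B) (h3 : 3 ≤ (cont S).sup) (R : BinaryTree Unit) :
    ∀ i, 10 ≤ i → i < 20 → C23 (H1.W R .nil B S i) := by
  have hB : C23 B := Or.inl h
  have hSB : T2 (S △ B) := by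
    refine ⟨?_, ?_⟩
    · rw [cont_node, Multiset.mem_add]; exact Or.inr h
    · rw [cont_node, Multiset.sup_add, sup_raise]
      exact le_trans (by omega) le_sup_left
  intro i h1 h2
  interval_cases i
  · exact hB.al _
  · exact hB.al _
  · exact (hB.al _).nr _
  · exact (two_nl (two_al h _) _).ar _
  · exact hB.nr _
  · exact (hB.nr _).nr _
  · exact (two_nl h _).ar _
  · exact C23.ar (Or.inl (hSB.nl .nil).1) _
  · exact ((((two_nl h _)).ar _).nr _).ar _
  · change C23 ((app S (B △ .nil)) △ .nil)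
    have h4 : C23 (B △ .nil) := two_nl h _
    have h5 : cont (app S (B △ .nil)) = cont S + cont (B △ .nil) := cont_app _ _
    unfold C23
    rw [cont_node, Multiset.mem_add, Multiset.mem_add, h5]
    rcases h4 with h4 | h4
    · left; left
      refine mem_raise_two (Multiset.mem_add.2 (Or.inr h4)) (Or.inl ?_)
      rw [Multiset.sup_add]
      have h6 : 2 < (cont S).sup := by omega
      exact lt_of_lt_of_le h6 le_sup_left
    · right; left
      refine mem_raise_two (Multiset.mem_add.2 (Or.inr h4)) ?_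
      rcases Nat.lt_or_ge 3 (cont S).sup with h6 | h6
      · left
        rw [Multiset.sup_add]
        exact lt_of_lt_of_le h6 le_sup_left
      · right
        have h7 : 3 ∈ cont S := by
          have h8 : (cont S).sup = 3 := by omega
          have h10 : cont S ≠ 0 := by
            intro e
            rw [e] at h8
            simp at h8
          have := sup_mem h10
          rwa [h8] at this
        rw [Multiset.count_add]
        have a1 := Multiset.count_pos.2 h7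
        have a2 := Multiset.count_pos.2 h4
        omega

theorem LWd_c23 {Φ : ZMod (2 * n + 1) → ℕ} (h : Db k n Φ) {i : ℕ} (hi : i < 20) : C23 (LWd n Φ i) := by
  have hg := GR_RH h.hn Φ h.hk
  have hc := cont_RH h.hn Φ
  have h2 : 2 ∈ cont (RH n Φ) := by
    rw [hc, Multiset.mem_add, Multiset.mem_add, Multiset.mem_replicate]
    have := h.one
    exact Or.inl (Or.inr ⟨by omega, rfl⟩)
  have h3 : 3 ≤ (cont (RH n Φ)).sup := by
    rw [← OddHC.ht_eq, ht_RH h.hn]
    have := h.hn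
    omega
  have h4 : 3 ≤ (cont (Tsq.sq (RH n Φ)).1).sup := by
    rw [← OddHC.ht_eq, hg.htS, ht_RH h.hn]
    have := h.hn
    omega
  have h5 := h2
  rw [← hg.cont, Multiset.mem_add] at h5
  rcases h5 with h5 | h5
  · rcases Nat.lt_or_ge i 10 with h6 | h6
    · have hR : T2 (RH n Φ) := ⟨h2, h3⟩
      have key : T2 (LWd n Φ i) := by
        unfold LWd
        interval_cases i
        · exact hR.al _
        · exact hR.al _
        · exact (hR.al _).nr _
        · exact (hR.al _).nl _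
        · exact hR.nr _
        · exact (hR.nr _).nr _
        · exact hR.nl _
        · exact ((hR.nr _).nl _).ar _
        · exact ((hR.nl _).nr _).ar _
        · exact (hR.nl _).nl _
      exact Or.inl key.1
    · exact two_hi3 h5 h4 _ i h6 hi
  · exact Or.inl (T2.words ⟨h2, h3⟩ ⟨h5, h4⟩ hi).1

end L1

open L1

variable {k : ℕ} {F F' : Set (Cyc k)} {g g' : DG k}

theorem TyL1.c23 (h : TyL1 F g) : ∀ w ∈ g.B, C23 w.1 := by
  obtain ⟨n, Φ, m, h1, _, h2⟩ := words_L1 h
  intro w hw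
  obtain ⟨i, hi, _, e⟩ := h2 w hw
  have h3 := LWd_c23 h1 hi
  rw [← e] at h3
  cases m
  · exact h3
  · have e1 : OddHC.cont (Tsq.mirX w).1 = OddHC.cont w.1 := HM.cont_mir _
    unfold C23 at h3 ⊢
    rw [if_pos rfl, e1] at h3
    exact h3

/-- **W-Ed-L1** -/
theorem TyL1.disj_Ed (h : TyL1 F g) (h' : TyEd F' g') : ∀ w ∈ g.B, w ∉ g'.B :=
  fun w hw => C23.not_Ed h' (h.c23 w hw)

/-- **I-L1-Ed** -/
theorem TyL1.inner_Ed (h : TyL1 F g) (h' : TyEd F' g') : ∀ p ∈ g.arcs, ∀ w ∈ innA p, w ∉ g'.B := by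
  refine inner_Ed_of h.c23 ?_ h'
  rcases h with ⟨n, Φ, w0, h1, h2, _, rfl⟩ | ⟨n, Φ, w0, h1, h2, _, rfl⟩
  · intro p hp
    have hm : ∀ i, i < 20 → i ≠ 5 → xw n Φ w0 i ∈ (gadJ (xw n Φ w0)).B := by
      intro i hi h5
      exact Finset.mem_image.2 ⟨i, Finset.mem_erase.2 ⟨h5, Finset.mem_range.2 hi⟩, rfl⟩
    have hp' : p = (xw n Φ w0 1, xw n Φ w0 11) ∨ p = (xw n Φ w0 3, xw n Φ w0 12) ∨
        p = (xw n Φ w0 6, xw n Φ w0 15) ∨ p = (xw n Φ w0 8, xw n Φ w0 14) := hp
    rcases hp' with e | e | e | e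
    · rw [e]; exact hm 1 (by norm_num) (by norm_num)
    · rw [e]; exact hm 3 (by norm_num) (by norm_num)
    · rw [e]; exact hm 6 (by norm_num) (by norm_num)
    · rw [e]; exact hm 8 (by norm_num) (by norm_num)
  · intro p hp
    have hm : ∀ i, i < 20 → i ≠ 5 → xm n Φ w0 i ∈ (gadJM (xm n Φ w0)).B := by
      intro i hi h5
      exact mem_gadJM.2 ⟨i, hi, h5, rfl⟩
    have hp' : p = (xm n Φ w0 11, xm n Φ w0 1) ∨ p = (xm n Φ w0 12, xm n Φ w0 3) ∨
        p = (xm n Φ w0 15, xm n Φ w0 6) ∨ p = (xm n Φ w0 14, xm n Φ w0 8) := hp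
    rcases hp' with e | e | e | e
    · rw [e]; exact hm 11 (by norm_num) (by norm_num)
    · rw [e]; exact hm 12 (by norm_num) (by norm_num)
    · rw [e]; exact hm 15 (by norm_num) (by norm_num)
    · rw [e]; exact hm 14 (by norm_num) (by norm_num)

end Pool.OddHC
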