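import Pool.Agent.Work.MP_8f87b2_h11.L1Rows
import Pool.Agent.Work.MP_8f87b2_h10.L1w

/-!
# MP_8f87b2_co, type L1: reduced words and beads of the inner words; row I-L1-L1

`Ft.T_ps`: the list of the beads of `TT x`. `Ft.IPr`: the profile of the inner words of L1. `TyL1.inner_L1`.
-/

set_option autoImplicit false

namespace Pool.OddHC

open Finset Equiv BinaryTree Pool.Agent.Work.MP_8f87b2_co

namespace Ft

variable {k : ℕ}

theorem split_lt {d : ℕ} {P Q P' Q' : List ℕ} (e : P ++ Q = P' ++ Q') (h1 : ∀ p ∈ P, p < d)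
    (h2 : ∀ p ∈ Q, d ≤ p) (h1' : ∀ p ∈ P', p < d) (h2' : ∀ p ∈ Q', d ≤ p) : P = P' ∧ Q = Q' := by
  have key : ∀ {P Q : List ℕ}, (∀ p ∈ P, p < d) → (∀ p ∈ Q, d ≤ p) →
      (P ++ Q).filter (fun x => decide (x < d)) = P := by
    intro P Q h1 h2
    rw [List.filter_append, List.filter_eq_self.2 (fun x hx => by simpa using h1 x hx),
      List.filter_eq_nil_iff.2 (fun x hx => by simpa using h2 x hx), List.append_nil]
  have e1 : P = P' := by
    rw [← key h1 h2, e, key h1' h2']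
  subst e1
  exact ⟨rfl, List.append_cancel_left e⟩

theorem psl_rot {e P Q : List ℕ} {d : ℕ} (hd : d ≤ e.length) (h : psl 0 e = P ++ Q)
    (h1 : ∀ p ∈ P, p < d) (h2 : ∀ p ∈ Q, d ≤ p) :
    psl 0 (e.rotate d) = Q.map (· - d) ++ P.map (· + (e.length - d)) := by
  rw [List.rotate_eq_drop_append_take hd, psl_append]
  have e0 : psl 0 e = psl 0 (e.take d) ++ (psl 0 (e.drop d)).map (· + d) := by
    conv_lhs => rw [← List.take_append_drop d e]
    rw [psl_append, List.length_take, Nat.min_eq_left hd, psl_add]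
  have e1 := h.symm.trans e0
  obtain ⟨e2, e3⟩ := split_lt e1 h1 h2 (fun p hp => by
    have := psl_le _ _ p hp
    rw [List.length_take, Nat.min_eq_left hd] at this
    omega) (fun p hp => by
    obtain ⟨q, _, rfl⟩ := List.mem_map.1 hp
    omega)
  have e4 : Q.map (· - d) = psl 0 (e.drop d) := by
    rw [e3, List.map_map]
    conv_rhs => rw [← List.map_id (psl 0 (e.drop d))]
    apply List.map_congr_left
    intro x _
    simp
  rw [e4, e2, List.length_drop, psl_add]

/-- **reduced word and beads of `TT x`** -/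
theorem T_ps (x : X k) {a b : List Bool} (h : H1.FM (rd x.1) a b) {P Q : List ℕ} (hp : ps x.1 = P ++ Q)
    (h1 : ∀ p ∈ P, p ≤ a.length) (h2 : ∀ p ∈ Q, a.length + 1 ≤ p) :
    wd (rd (TT x).1) = b.map not ++ false :: a.map not ∧ ln (TT x).1 = ln x.1 ∧
      ps (TT x).1 = Q.map (· - (a.length + 1)) ++ P.map (· + (ln x.1 - a.length)) := by
  obtain ⟨t1, t2, _, _⟩ := T_all x h
  refine ⟨t1, t2, ?_⟩
  obtain ⟨j, u, hu⟩ := red_X x.1
  have h3 := T_red x u hu
  have hl := FM_len h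
  rw [← hu] at h
  have h4 := Vo_FM h
  rw [h4] at h3
  have e2 : (red (TT x).1).2 = (red x.1).2.rotate (a.length + 1) := by rw [h3]
  have e3 : (red x.1).2.length = ln x.1 + 1 := by rw [red_len]; rfl
  have h5 := psl_rot (e := (red x.1).2) (d := a.length + 1) (by omega) hp
    (fun p hp => by have := h1 p hp; omega) h2
  unfold ps
  rw [e2, h5, e3]
  have e4 : ln x.1 + 1 - (a.length + 1) = ln x.1 - a.length := by omega
  rw [e4]

/-- the profile of an inner word with a hidden bead: `e` letters before the first visible bead -/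
structure IPr (w : BinaryTree Unit) (N e : ℕ) (a b : List Bool) : Prop where
  fm : ∃ r, H1.FM r a b ∧ 2 ≤ Tsq.ht r
  he : (e = 1 ∧ 3 ≤ b.length) ∨ (e = 3 ∧ 5 ≤ b.length)
  len : a.length + 1 + b.length = N
  sh : (wd (rd w) = b.map not ++ false :: a.map not ∧ ln w = N ∧
      ps w = [b.length - e, b.length, b.length]) ∨
    ∃ δ ≤ 2, wd (rd w) = b.map not ++ true :: false :: false :: a.map not ∧ ln w = N + 2 ∧
      ps w = [b.length - e, b.length + δ]

theorem innP {R B S : BinaryTree Unit} (hr : 0 < ln R) (hs : 0 < ln S) (hB : B = .nil ∨ 0 < ln B)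
    {v : ℕ} (hv : ps R = [v]) {a b : List Bool} (hF : H1.FM (rd R) a b) (hav : a.length + 1 ≤ v)
    (hv1 : v ≤ ln R) {x : X k} {i : ℕ} (hi : i ∈ [1, 3, 6, 8]) (hx : x.1 = H1.W R .nil B S i) :
    (wd (rd (TT x).1) = b.map not ++ false :: a.map not ∧ ln (TT x).1 = ln R ∧
      ps (TT x).1 = [v - (a.length + 1), b.length, b.length]) ∨
    ∃ δ ≤ 2, wd (rd (TT x).1) = b.map not ++ true :: false :: false :: a.map not ∧
      ln (TT x).1 = ln R + 2 ∧ ps (TT x).1 = [v - (a.length + 1), b.length + δ] := by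
  obtain ⟨_, t1, t3, _, t6, t8, _⟩ := rd_W hr hs hB
  have hi20 : i < 20 := by
    have : ∀ j ∈ [1, 3, 6, 8], j < 20 := by decide
    exact this i hi
  obtain ⟨l1, l2⟩ := LN_PP hr hs hB hi20
  rw [← hx] at l1 l2
  rw [hv] at l2
  have hlen := FM_len hF
  have hN : H1.FM (rd R △ .nil) (true :: a) (b ++ false :: wd .nil) :=
    hF.node (Z := .nil) (by simp [Tsq.ht])
  have two : ∀ P Q : List ℕ, rd x.1 = rd R △ .nil → ln x.1 = ln R + 2 → ps x.1 = P ++ Q →
      (∀ p ∈ P, p ≤ a.length + 1) → (∀ p ∈ Q, a.length + 2 ≤ p) →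
      wd (rd (TT x).1) = b.map not ++ true :: false :: false :: a.map not ∧
      ln (TT x).1 = ln R + 2 ∧ ps (TT x).1 = Q.map (· - (a.length + 2)) ++
        P.map (· + (ln R + 2 - (a.length + 1))) := by
    intro P Q e1 e2 e3 e4 e5
    rw [← e1] at hN
    obtain ⟨h1, h2, h3⟩ := T_ps x hN e3 (fun p hp => by
      rw [List.length_cons]; exact e4 p hp) (fun p hp => by rw [List.length_cons]; exact e5 p hp)
    rw [e2] at h2 h3
    rw [List.length_cons] at h3
    refine ⟨?_, h2, h3⟩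
    rw [h1]
    simp [wd]
  simp only [List.mem_cons, List.not_mem_nil, or_false] at hi
  rcases hi with rfl | rfl | rfl | rfl
  · left
    have e3 : rd x.1 = rd R := by rw [hx, t1]
    rw [← e3] at hF
    have l2' : ps x.1 = [] ++ [v, ln R, ln R] := l2
    obtain ⟨h1, h2, h3⟩ := T_ps x hF l2' (fun p hp => by simp at hp) (fun p hp => by
      simp only [List.mem_cons, List.not_mem_nil, or_false] at hp
      omega)
    refine ⟨h1, h2.trans l1, ?_⟩
    rw [h3]
    have e5 : ln R - (a.length + 1) = b.length := by omega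
    simp [e5]
  · right
    obtain ⟨h1, h2, h3⟩ := two [] [v + 1, ln R + 1] (by rw [hx, t3]) l1 (by rw [l2]; rfl)
      (fun p hp => by simp at hp) (fun p hp => by
      simp only [List.mem_cons, List.not_mem_nil, or_false] at hp
      omega)
    refine ⟨0, by norm_num, h1, h2, ?_⟩
    rw [h3]
    simp only [List.map_cons, List.map_nil, List.append_nil]
    rw [show v + 1 - (a.length + 2) = v - (a.length + 1) by omega,
      show ln R + 1 - (a.length + 2) = b.length + 0 by omega]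
  · right
    obtain ⟨h1, h2, h3⟩ := two [] [v + 1, ln R + 2] (by rw [hx, t6]) l1 (by rw [l2]; rfl)
      (fun p hp => by simp at hp) (fun p hp => by
      simp only [List.mem_cons, List.not_mem_nil, or_false] at hp
      omega)
    refine ⟨1, by norm_num, h1, h2, ?_⟩
    rw [h3]
    simp only [List.map_cons, List.map_nil, List.append_nil]
    rw [show v + 1 - (a.length + 2) = v - (a.length + 1) by omega,
      show ln R + 2 - (a.length + 2) = b.length + 1 by omega]
  · right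
    obtain ⟨h1, h2, h3⟩ := two [0] [v + 1] (by rw [hx, t8]) l1 (by rw [l2]; rfl)
      (fun p hp => by
      simp only [List.mem_cons, List.not_mem_nil, or_false] at hp
      omega) (fun p hp => by
      simp only [List.mem_cons, List.not_mem_nil, or_false] at hp
      omega)
    refine ⟨2, le_rfl, h1, h2, ?_⟩
    rw [h3]
    simp only [List.map_cons, List.map_nil]
    rw [show v + 1 - (a.length + 2) = v - (a.length + 1) by omega,
      show 0 + (ln R + 2 - (a.length + 1)) = b.length + 2 by omega]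
    rfl

/-- **the inner words of L1** -/
theorem LD.ip {R : BinaryTree Unit} (h : LD R) {x : X k} {i : ℕ} (hi : i ∈ [1, 3, 6, 8])
    (hx : x.1 = H1.W R .nil (Tsq.sq R).2 (Tsq.sq R).1 i) : ∃ e a b, IPr (TT x).1 (ln R) e a b := by
  rcases h with h | ⟨h0, h⟩
  · obtain ⟨hr, hs, hb⟩ := h.toLT.pos
    obtain ⟨v, hv, pR⟩ := h.pR
    obtain ⟨a, b, hF⟩ := FM_ex (rd_ne hr)
    have h1 := h.hFM _ _ hF
    have h2 := FM_len hF
    have h3 := innP hr hs (Or.inr hb) pR hF (by omega) (by omega) hi hx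
    refine ⟨1, a, b, ⟨_, hF, h.hR⟩, Or.inl ⟨rfl, by omega⟩, h2, ?_⟩
    rw [show v - (a.length + 1) = b.length - 1 by omega] at h3
    exact h3
  · have h6 := h.s6
    have hsum := h.sum
    obtain ⟨v, hv, pR⟩ := h.pR
    rw [h0] at hx
    obtain ⟨a, b, hF⟩ := FM_ex (rd_ne (by omega : 0 < ln R))
    have h1 := h.hFM _ _ hF
    have h2 := FM_len hF
    have h3 := innP (B := .nil) (S := (Tsq.sq R).1) (by omega) (by omega) (Or.inl rfl) pR hF (by omega)
      (by omega) hi hx
    refine ⟨3, a, b, ⟨_, hF, h.hR⟩, Or.inr ⟨rfl, by omega⟩, h2, ?_⟩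
    rw [show v - (a.length + 1) = b.length - 3 by omega] at h3
    exact h3

theorem IPr.a1 {w : BinaryTree Unit} {N e : ℕ} {a b : List Bool} (h : IPr w N e a b) : 1 ≤ a.length := by
  obtain ⟨r, h1, h2⟩ := h.fm
  have h3 := h1.top
  have h4 : a.count true ≤ a.length := List.count_le_length
  omega

theorem IPr.cb {w : BinaryTree Unit} {N e : ℕ} {a b : List Bool} (h : IPr w N e a b) :
    b.count true + 2 ≤ b.count false := by
  obtain ⟨r, h1, h2⟩ := h.fm
  have h3 := (FM.facts h1).2.2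
  omega

/-- against the words with a hidden bead, `B` not empty -/
theorem IPr.ne_LT {w : BinaryTree Unit} {N e : ℕ} {a b : List Bool} (h : IPr w N e a b)
    {R B S : BinaryTree Unit} (h' : LTX R B S) {i : ℕ} (hi : i < 20) : w ≠ H1.W R .nil B S i := by
  intro e0
  obtain ⟨hr, hs, hb⟩ := h'.toLT.pos
  obtain ⟨x, hx, pR⟩ := h'.pR
  obtain ⟨y, hy, hy0, pB⟩ := h'.pB
  have pS := h'.pS
  have hsum := h'.sum
  have hb0 : ¬ ln B = 0 := by omega
  obtain ⟨l1, l2⟩ := LN_PP hr hs (Or.inr hb) hi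
  rw [← e0] at l1 l2
  rw [pR, pB, pS] at l2
  have ha := h.a1
  have hlen := h.len
  have he := h.he
  rcases h.sh with ⟨s1, s2, s3⟩ | ⟨δ, hδ, s1, s2, s3⟩
  · rw [s3] at l2
    rw [s2] at l1
    by_cases h11 : i = 11
    · subst h11
      have e1 : rd (H1.W R .nil B S 11) = app (rd B) (rd S) := by
        change rd (app B (.nil △ (.nil △ S))) = _
        rw [rd_app, rd_leaf, rd_leaf]
      rw [e0, e1, wd_app] at s1
      simp [PP] at l2
      have e2 : (wd (rd B)).length = (b.map not).length := by rw [wd_rd, List.length_map]; omega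
      have e3 := (List.append_inj s1 e2).1
      have c1 := wd_counts (rd B)
      have c2 := congrArg (List.count true) e3
      have c3 := congrArg (List.count false) e3
      rw [cnt_not_t] at c2
      rw [cnt_not_f] at c3
      have c4 := h.cb
      rw [c1.1] at c2
      rw [c1.2] at c3
      omega
    · interval_cases i <;> simp [PP, LN, hb0] at l1 l2 <;> omega
  · rw [s3] at l2
    rw [s2] at l1
    interval_cases i <;> simp [PP, LN, hb0] at l1 l2 <;> omega

/-- against the words with a hidden bead, `B` empty -/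
theorem IPr.ne_LZ {w : BinaryTree Unit} {N e : ℕ} {a b : List Bool} (h : IPr w N e a b)
    {R S : BinaryTree Unit} (h' : LZX R S) {i : ℕ} (hi : i < 20) : w ≠ H1.W R .nil .nil S i := by
  intro e0
  obtain ⟨x, hx, pR⟩ := h'.pR
  obtain ⟨y, hy, pS⟩ := h'.pS
  have h6 := h'.s6
  have hsum := h'.sum
  have b0 : ln (.nil : BinaryTree Unit) = 0 := rfl
  have c0 : ps (.nil : BinaryTree Unit) = [] := rfl
  obtain ⟨l1, l2⟩ := LN_PP (B := .nil) (by omega : 0 < ln R) (by omega : 0 < ln S) (Or.inl rfl) hi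
  rw [← e0] at l1 l2
  rw [pR, pS, b0, c0] at l2
  rw [b0] at l1
  have ha := h.a1
  have hlen := h.len
  have he := h.he
  rcases h.sh with ⟨s1, s2, s3⟩ | ⟨δ, hδ, s1, s2, s3⟩
  · rw [s3] at l2
    rw [s2] at l1
    interval_cases i <;> simp [PP, LN] at l1 l2 <;> omega
  · rw [s3] at l2
    rw [s2] at l1
    interval_cases i <;> simp [PP, LN] at l1 l2 <;> omega

/-- mirrored words, `B` not empty -/
theorem IPr.neM_LT {w : BinaryTree Unit} {N e : ℕ} {a b : List Bool} (h : IPr w N e a b)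
    {R B S : BinaryTree Unit} (h' : LTX R B S) {i : ℕ} (hi : i < 20) :
    Tsq.mir w ≠ H1.W R .nil B S i := by
  intro e0
  obtain ⟨hr, hs, hb⟩ := h'.toLT.pos
  obtain ⟨x, hx, pR⟩ := h'.pR
  obtain ⟨y, hy, hy0, pB⟩ := h'.pB
  have pS := h'.pS
  have hsum := h'.sum
  have hb0 : ¬ ln B = 0 := by omega
  obtain ⟨l1, l2⟩ := LN_PP hr hs (Or.inr hb) hi
  rw [← e0, ln_mir] at l1
  rw [← e0, ps_mir, pR, pB, pS] at l2
  have ha := h.a1
  have hlen := h.len
  have he := h.he
  rcases h.sh with ⟨s1, s2, s3⟩ | ⟨δ, hδ, s1, s2, s3⟩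
  · rw [s3, s2] at l2
    rw [s2] at l1
    interval_cases i <;> simp [PP, LN, hb0] at l1 l2 <;> omega
  · rw [s3, s2] at l2
    rw [s2] at l1
    interval_cases i <;> simp [PP, LN, hb0] at l1 l2 <;> omega

/-- mirrored words, `B` empty -/
theorem IPr.neM_LZ {w : BinaryTree Unit} {N e : ℕ} {a b : List Bool} (h : IPr w N e a b)
    {R S : BinaryTree Unit} (h' : LZX R S) {i : ℕ} (hi : i < 20) : Tsq.mir w ≠ H1.W R .nil .nil S i := by
  intro e0
  obtain ⟨x, hx, pR⟩ := h'.pR
  obtain ⟨y, hy, pS⟩ := h'.pS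
  have h6 := h'.s6
  have hsum := h'.sum
  have b0 : ln (.nil : BinaryTree Unit) = 0 := rfl
  have c0 : ps (.nil : BinaryTree Unit) = [] := rfl
  obtain ⟨l1, l2⟩ := LN_PP (B := .nil) (by omega : 0 < ln R) (by omega : 0 < ln S) (Or.inl rfl) hi
  rw [← e0, ln_mir, b0] at l1
  rw [← e0, ps_mir, pR, pS, b0, c0] at l2
  have ha := h.a1
  have hlen := h.len
  have he := h.he
  rcases h.sh with ⟨s1, s2, s3⟩ | ⟨δ, hδ, s1, s2, s3⟩
  · rw [s3, s2] at l2
    rw [s2] at l1
    interval_cases i <;> simp [PP, LN] at l1 l2 <;> omega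
  · rw [s3, s2] at l2
    rw [s2] at l1
    interval_cases i <;> simp [PP, LN] at l1 l2 <;> omega

/-- **an inner word of L1 is no word of L1** -/
theorem IPr.not_LWX {w : BinaryTree Unit} {N e : ℕ} {a b : List Bool} (h : IPr w N e a b) : ¬ LWX w := by
  rintro ⟨R, i, hi, hd, hw⟩
  rcases hd with hd | ⟨h1, hd⟩
  · rcases hw with hw | hw
    · exact h.ne_LT hd hi hw
    · refine h.neM_LT hd hi ?_
      rw [hw, Tsq.mir_mir]
  · rw [h1] at hw
    rcases hw with hw | hw
    · exact h.ne_LZ hd hi hw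
    · refine h.neM_LZ hd hi ?_
      rw [hw, Tsq.mir_mir]

theorem LWX.mir {w : BinaryTree Unit} (h : LWX w) : LWX (Tsq.mir w) := by
  obtain ⟨R, i, hi, hd, hw⟩ := h
  refine ⟨R, i, hi, hd, ?_⟩
  rcases hw with rfl | rfl
  · exact Or.inr rfl
  · left; rw [Tsq.mir_mir]

end Ft

open L1 Ft

variable {k : ℕ} {F F' : Set (Cyc k)} {g g' : DG k}

/-- `LD` from the rule -/
theorem L1.Db.ld {n : ℕ} {Φ : ZMod (2 * n + 1) → ℕ} {m : Bool} (hk : 9 ≤ k) (h : Db k n Φ) (hr : RuA n Φ m) :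
    LD (RH n Φ) := by
  have hkk := h.hk
  unfold RuA at hr
  cases m
  · exact LD_right h.hn Φ h.one (fun h1 => by omega) hr
  · have hr' : RuM n (J.rf Φ) := hr
    have h1 := LD_mir h.hn (J.rf Φ) (by rw [J.rf_sum]; exact h.one) (fun h1 => by rw [J.rf_sum]; omega)
      ⟨hr'.2.1, hr'.2.2.2⟩
    rwa [J.rf_rf] at h1

/-- **the inner words of L1, profile** -/
theorem TyL1.ipr (hk : 9 ≤ k) (h : TyL1 F g) : ∃ m : Bool, ∀ p ∈ g.arcs, ∀ w ∈ innA p,
    ∃ N e a b, IPr (if m = true then Tsq.mirX w else w).1 N e a b := by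
  obtain ⟨n, Φ, m, h1, h2, h3⟩ := inner_L1 h
  refine ⟨m, ?_⟩
  intro p hp w hw
  obtain ⟨i, x, hi, hx, e⟩ := h3 p hp w hw
  rw [e]
  obtain ⟨e', a, b, h4⟩ := (h1.ld hk h2).ip hi hx
  exact ⟨_, e', a, b, h4⟩

/-- **I-L1-L1** -/
theorem TyL1.inner_L1 (hk : 9 ≤ k) (h : TyL1 F g) (h' : TyL1 F' g') :
    ∀ p ∈ g.arcs, ∀ w ∈ innA p, w ∉ g'.B := by
  intro p hp w hw hw'
  obtain ⟨m, h1⟩ := h.ipr hk
  obtain ⟨N, e, a, b, h2⟩ := h1 p hp w hw
  have h3 : LWX w.1 := (h'.gh hk).w w hw'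
  cases m
  · exact h2.not_LWX h3
  · exact h2.not_LWX h3.mir

end Pool.OddHC
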