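import Pool.Agent.Work.MP_8f87b2_h10.JVA
import Pool.Agent.Work.MP_8f87b2_h60.TyA0

/-!
# MP_8f87b2_co, row I-JV-A0: inner words of `Is9 nil nil S` against the mirrored windows of the bead free T-cycles

`T (S())` and `T ((S)())` are never words of a window A0 (`Is9.inner_A0`); `T ((S))` may be (hypothesis `h3`).
-/

set_option autoImplicit false

namespace Pool.OddHC

open Finset Equiv BinaryTree Pool.Agent.Work.MP_8f87b2_co

namespace JVi

open H1 SRun HM

/-! ### The automaton of the factor `101` -/

/-- `0`: nothing, `1`: after `1`, `2`: after `1 0`, `3`: found -/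
def dl : ℕ → Bool → ℕ
  | 3, _ => 3
  | 2, true => 3
  | 2, false => 0
  | 1, true => 1
  | 1, false => 2
  | _, true => 1
  | _, false => 0

def rn (s : ℕ) (l : List Bool) : ℕ := l.foldl dl s

theorem rn_nil (s : ℕ) : rn s [] = s := rfl

theorem rn_cons (s : ℕ) (x : Bool) (l : List Bool) : rn s (x :: l) = rn (dl s x) l := rfl

theorem rn_app (s : ℕ) (l m : List Bool) : rn s (l ++ m) = rn (rn s l) m := by
  unfold rn
  rw [List.foldl_append]

theorem rn_three (l : List Bool) : rn 3 l = 3 := by
  induction l with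
  | nil => rfl
  | cons x l ih => rw [rn_cons]; exact ih

theorem dl_le (s : ℕ) (hs : s ≤ 3) (x : Bool) : dl s x ≤ 3 := by
  interval_cases s <;> cases x <;> decide

theorem rn_le (l : List Bool) : ∀ s, s ≤ 3 → rn s l ≤ 3 := by
  induction l with
  | nil => intro s hs; exact hs
  | cons x l ih => intro s hs; rw [rn_cons]; exact ih _ (dl_le s hs x)

theorem N101.of_rn {l : List Bool} (h : rn 0 l ≠ 3) : N101 l := by
  intro u v e
  apply h
  rw [e, rn_app]
  have h1 := rn_le u 0 (by norm_num)
  generalize rn 0 u = t at h1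
  interval_cases t <;> simp only [rn_cons, dl, rn_three]

/-- a list whose runs have length at least 2, ending with `0` -/
theorem rn_D2 {l : List Bool} (h : D2 l) : ∀ s, s ≤ 1 →
    rn s l = if l.getLastD (s == 1) = true then 1 else 0 := by
  induction h with
  | nil =>
    intro s hs
    interval_cases s <;> rfl
  | two c l _ ih =>
    intro s hs
    rw [rn_cons, rn_cons, List.getLastD_cons, List.getLastD_cons]
    cases c
    · have e : dl (dl s false) false = 0 := by interval_cases s <;> rfl
      rw [e, ih 0 (by norm_num)]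
      rfl
    · have e : dl (dl s true) true = 1 := by interval_cases s <;> rfl
      rw [e, ih 1 le_rfl]
      rfl
  | three c l _ ih =>
    intro s hs
    rw [rn_cons, rn_cons, rn_cons, List.getLastD_cons, List.getLastD_cons, List.getLastD_cons]
    cases c
    · have e : dl (dl (dl s false) false) false = 0 := by interval_cases s <;> rfl
      rw [e, ih 0 (by norm_num)]
      rfl
    · have e : dl (dl (dl s true) true) true = 1 := by interval_cases s <;> rfl
      rw [e, ih 1 le_rfl]
      rfl

theorem rn_hv {t : BinaryTree Unit} (h : hv t) (h0 : t ≠ .nil) {s : ℕ} (hs : s ≤ 1) :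
    rn s (wd t) = 0 := by
  obtain ⟨v, hv'⟩ := hv_end3 h h0
  rw [rn_D2 (D2_hg (hg_of_cont le_rfl (fun x hx => by have := hv_parts h x hx; omega))) s hs, hv']
  have e : v ++ [false, false, false] = (v ++ [false, false]) ++ [false] := by simp
  rw [e, List.getLastD_concat]
  rfl

theorem rn_hv' {t : BinaryTree Unit} (h : hv t) : rn 0 (wd t) = 0 := by
  by_cases h0 : t = .nil
  · subst h0; rfl
  · exact rn_hv h h0 (by norm_num)

theorem rn_rep1 : ∀ (n s : ℕ), s ≤ 1 → rn s (List.replicate (n + 1) true) = 1 := by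
  intro n
  induction n with
  | zero => intro s hs; interval_cases s <;> rfl
  | succ n ih =>
    intro s hs
    rw [List.replicate_succ, rn_cons]
    have e : dl s true = 1 := by interval_cases s <;> rfl
    rw [e]
    exact ih 1 le_rfl

theorem rn_rep0 : ∀ (n : ℕ), rn 0 (List.replicate n false) = 0 := by
  intro n
  induction n with
  | zero => rfl
  | succ n ih => rw [List.replicate_succ, rn_cons]; exact ih

/-- `Q = [q + 1]`, `q ≥ 1` -/
theorem rn_ch {q : ℕ} (hq : 1 ≤ q) {s : ℕ} (hs : s ≤ 1) : rn s (wd (ch (q + 1))) = 0 := by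
  obtain ⟨q, rfl⟩ : ∃ q', q = q' + 1 := ⟨q - 1, by omega⟩
  rw [wd_ch, rn_app, rn_rep1 _ s hs, List.replicate_succ, List.replicate_succ, rn_cons, rn_cons]
  exact rn_rep0 q

theorem rn_ch0 {s : ℕ} (hs : s ≤ 1) : rn s (wd (ch (0 + 1))) = 2 := by
  interval_cases s <;> rfl

/-! ### The words with one factor `101` -/

/-- the shape of `T (S())` and `T ((S)())` -/
def K45 (l : List Bool) : Prop := ¬ N101 l ∧ ∀ p s, l = p ++ true :: false :: true :: s →
  2 ≤ p.length ∧ ((∃ x l', s = true :: false :: false :: false :: x :: l') ∨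
    ∃ x l', s = false :: false :: false :: x :: l')

variable {k : ℕ} {S : BinaryTree Unit} {a b : List Bool} {x : X k}

theorem Dt.k4 (h : Dt S a b) (h3 : 3 ≤ b.length) (ha : ∃ y l, a.map not = false :: y :: l)
    (e : x.1 = (app S (.nil △ .nil)) △ .nil) : K45 (wd (TT x).1) := by
  obtain ⟨β, hβ⟩ := h.last
  obtain ⟨y, l, hl⟩ := ha
  have e1 := wd4 h.fm e
  rw [hβ] at e1
  constructor
  · intro h1
    exact h1 β (true :: false :: false :: a.map not) (by rw [e1]; simp)
  · intro p s e2
    obtain ⟨h4, h5, _⟩ := h.n4 e e2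
    have h6 := congrArg List.length h5
    rw [List.length_map, List.length_append, List.length_singleton] at h6
    exact ⟨by omega, Or.inl ⟨y, l, by rw [h4, hl]⟩⟩

theorem Dt.k5 (h : Dt S a b) (h3 : 3 ≤ b.length) (ha : ∃ y l, a.map not = false :: y :: l)
    (e : x.1 = S △ (.nil △ .nil)) : K45 (wd (TT x).1) := by
  obtain ⟨β, hβ⟩ := h.last
  obtain ⟨y, l, hl⟩ := ha
  have e1 := wd5 h.fm e
  constructor
  · intro h1
    exact h1 (b.map not) (false :: false :: a.map not) e1
  · intro p s e2
    have h4 := h.n5 e e2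
    rw [h4] at e2
    have h6 := congrArg List.length (e1.symm.trans e2)
    simp only [List.length_append, List.length_cons, List.length_map] at h6
    exact ⟨by omega, Or.inr ⟨y, l, by rw [h4, hl]⟩⟩

theorem K45.no {l p s : List Bool} (h : K45 l) (e : l = p ++ true :: false :: true :: s)
    (hs : p.length < 2 ∨ ((∀ x l', s ≠ true :: false :: false :: false :: x :: l') ∧
      ∀ x l', s ≠ false :: false :: false :: x :: l')) : False := by
  obtain ⟨h1, h2⟩ := h.2 p s e
  rcases hs with hs | ⟨hs1, hs2⟩
  · omega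
  · rcases h2 with ⟨x, l', h2⟩ | ⟨x, l', h2⟩
    · exact hs1 x l' h2
    · exact hs2 x l' h2

/-- `s = 1 1 ..` -/
theorem K45.no11 {l p s : List Bool} (h : K45 l) (e : l = p ++ true :: false :: true :: true :: true :: s) :
    False := by
  refine h.no e (Or.inr ⟨?_, ?_⟩)
  · intro x l' e1; simp at e1
  · intro x l' e1; simp at e1

/-- `s = 1^q 0^(q+1) z`, `z = []` or `z = [0]` or `z = 1 ..` -/
theorem K45.noQ {l p z : List Bool} {q : ℕ} (h : K45 l)
    (e : l = p ++ true :: false :: (wd (ch (q + 1)) ++ z)) (hz : z = [] ∨ z = [false] ∨ ∃ z', z = true :: z') :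
    False := by
  rcases q with _ | _ | q
  · have e1 : wd (ch (0 + 1)) = [true, false] := by simp [ch, wd]
    rw [e1] at e
    refine h.no (p := p) (s := false :: z) (by rw [e]; rfl) (Or.inr ⟨?_, ?_⟩)
    · intro x l' e2; simp at e2
    · intro x l' e2
      rcases hz with rfl | rfl | ⟨z', rfl⟩ <;> simp at e2
  · have e1 : wd (ch (0 + 1 + 1)) = [true, true, false, false] := by simp [ch, wd]
    rw [e1] at e
    refine h.no (p := p) (s := true :: false :: false :: z) (by rw [e]; rfl) (Or.inr ⟨?_, ?_⟩)
    · intro x l' e2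
      rcases hz with rfl | rfl | ⟨z', rfl⟩ <;> simp at e2
    · intro x l' e2; simp at e2
  · have e1 : wd (ch (q + 1 + 1 + 1)) = true :: true :: true :: (List.replicate q true ++
        List.replicate (q + 1 + 1 + 1) false) := by
      rw [wd_ch, List.replicate_succ, List.replicate_succ, List.replicate_succ]
      rfl
    rw [e1] at e
    exact h.no11 (p := p) (s := List.replicate q true ++ List.replicate (q + 1 + 1 + 1) false ++ z)
      (by rw [e]; simp)

/-- **no such word in a mirrored window of a bead free T-cycle** -/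
theorem K45.not_aw {R B T : BinaryTree Unit} (h : Bare R B T) (q : ℕ) {l : List Bool} (hk : K45 l)
    {j : ℕ} (hj : j < 20) : l ≠ wd (aw R (ch (q + 1)) B T j) := by
  intro e
  obtain ⟨vR, eR⟩ := hv_ttt h.hR h.R0
  obtain ⟨vT, eT⟩ := hv_ttt h.hS h.S0
  have eB : B ≠ .nil → ∃ v, wd B = true :: true :: true :: v := fun h0 => hv_ttt h.hB h0
  have rR : ∀ s, s ≤ 1 → rn s (wd R) = 0 := fun s hs => rn_hv h.hR h.R0 hs
  have rT : ∀ s, s ≤ 1 → rn s (wd T) = 0 := fun s hs => rn_hv h.hS h.S0 hs
  have rB : B ≠ .nil → ∀ s, s ≤ 1 → rn s (wd B) = 0 := fun h0 s hs => rn_hv h.hB h0 hs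
  have rB0 : rn 0 (wd B) = 0 := rn_hv' h.hB
  have n0 : wd (.nil : BinaryTree Unit) = [] := rfl
  have d00 : dl 0 false = 0 := rfl
  have d01 : dl 0 true = 1 := rfl
  have d10 : dl 1 false = 2 := rfl
  have d11 : dl 1 true = 1 := rfl
  have d20 : dl 2 false = 0 := rfl
  have qQ : ∀ s, s ≤ 1 → rn s (wd (ch (q + 1))) = 2 ∨ rn s (wd (ch (q + 1))) = 0 := by
    intro s hs
    rcases Nat.eq_zero_or_pos q with rfl | hq
    · exact Or.inl (rn_ch0 hs)
    · exact Or.inr (rn_ch hq hs)
  have q0 : q = 0 → wd (ch (q + 1)) = [true, false] := by rintro rfl; simp [ch, wd]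
  have hn := hk.1
  interval_cases j
  · apply hn
    rw [e]
    apply N101.of_rn
    simp only [aw, wd_node, n0, rn_app, rn_cons, rn_nil, d01, d11]
    rcases qQ 1 le_rfl with h1 | h1 <;> simp only [h1, d20, d00, rR 0 (by norm_num)] <;> norm_num
  · refine hk.no (p := []) (s := wd (ch q) ++ [false] ++ true :: false :: wd R) ?_ (Or.inl (by simp))
    rw [e]
    simp only [aw, wd_node, wd_app, n0, ch_succ]
    simp
  · refine hk.no11 (p := wd (ch (q + 1))) (s := vR ++ [true, false]) ?_
    rw [e]
    simp only [aw, wd_node, wd_app, n0, eR]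
    simp
  · refine hk.no11 (p := true :: wd (ch (q + 1))) (s := vR ++ [false]) ?_
    rw [e]
    simp only [aw, wd_node, wd_app, n0, eR]
    simp
  · refine hk.noQ (p := wd R ++ [true]) (q := q) (z := [false]) ?_ (Or.inr (Or.inl rfl))
    rw [e]
    simp only [aw, wd_node, wd_app, n0]
    simp
  · have e5 : l = wd R ++ true :: false :: true :: (wd (ch (q + 1)) ++ [false]) := by
      rw [e]
      simp only [aw, wd_node, wd_app, n0]
      simp
    refine hk.no e5 ?_
    rcases q with _ | q
    · rw [q0 rfl]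
      right
      constructor
      · intro x l' e2; simp at e2
      · intro x l' e2; simp at e2
    · right
      have e1 : wd (ch (q + 1 + 1)) = true :: true :: (List.replicate q true ++
          List.replicate (q + 1 + 1) false) := by
        rw [wd_ch, List.replicate_succ, List.replicate_succ]
        rfl
      rw [e1]
      constructor
      · intro x l' e2; simp at e2
      · intro x l' e2; simp at e2
  · apply hn
    rw [e]
    apply N101.of_rn
    simp only [aw, wd_node, n0, rn_app, rn_cons, rn_nil, d01, d11]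
    rcases qQ 1 le_rfl with h1 | h1 <;>
      simp only [h1, d20, d00, d01, rR 1 le_rfl] <;> norm_num
  · apply hn
    rw [e]
    apply N101.of_rn
    simp only [aw, wd_node, wd_app, n0, rn_app, rn_cons, rn_nil, d01, d11, rR 1 le_rfl, d10, d20]
    rcases qQ 0 (by norm_num) with h1 | h1 <;> rw [h1] <;> norm_num
  · refine hk.noQ (p := true :: (wd R ++ [false])) (q := q) (z := []) ?_ (Or.inl rfl)
    rw [e]
    simp only [aw, wd_node, n0]
    simp
  · rcases Nat.eq_zero_or_pos q with hq | hq
    · refine hk.no (p := []) (s := true :: (wd R ++ [false, false])) ?_ (Or.inl (by simp))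
      rw [e]
      simp only [aw, wd_node, wd_app, n0, q0 hq]
      simp
    · apply hn
      rw [e]
      apply N101.of_rn
      simp only [aw, wd_node, wd_app, n0, rn_app, rn_cons, rn_nil, rn_ch hq (by norm_num : 0 ≤ 1), d01,
        d11, rR 1 le_rfl, d00]
      norm_num
  · apply hn
    rw [e]
    apply N101.of_rn
    simp only [aw, wd_node, wd_app, n0, rn_app, rn_cons, rn_nil, rT 0 (by norm_num), d01, d11]
    rcases qQ 1 le_rfl with h1 | h1 <;> simp only [h1, d20, d00, rB0] <;> norm_num
  · refine hk.noQ (p := wd T) (q := q) (z := true :: false :: wd B) ?_ (Or.inr (Or.inr ⟨_, rfl⟩))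
    rw [e]
    simp only [aw, wd_node, wd_app, n0]
    simp
  · by_cases hB : B = .nil
    · subst hB
      refine hk.no11 (p := wd (ch (q + 1))) (s := true :: (vT ++ [false])) ?_
      rw [e]
      simp only [aw, wd_node, wd_app, n0, eT]
      simp
    · obtain ⟨v, hv⟩ := eB hB
      refine hk.no11 (p := wd (ch (q + 1))) (s := v ++ true :: (wd T ++ [false])) ?_
      rw [e]
      simp only [aw, wd_node, wd_app, n0, hv]
      simp
  · by_cases hB : B = .nil
    · subst hB
      rcases Nat.eq_zero_or_pos q with hq | hq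
      · refine hk.no (p := [true]) (s := false :: false :: wd T) ?_ (Or.inl (by simp))
        rw [e]
        simp only [aw, wd_node, wd_app, n0, q0 hq]
        simp
      · apply hn
        rw [e]
        apply N101.of_rn
        simp only [aw, wd_node, wd_app, n0, rn_app, rn_cons, rn_nil, d01, rn_ch hq le_rfl, d10, d20,
          rT 0 (by norm_num)]
        norm_num
    · obtain ⟨v, hv⟩ := eB hB
      refine hk.no11 (p := true :: wd (ch (q + 1))) (s := v ++ false :: wd T) ?_
      rw [e]
      simp only [aw, wd_node, wd_app, n0, hv]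
      simp
  · refine hk.noQ (p := wd B ++ true :: wd T) (q := q) (z := [false]) ?_ (Or.inr (Or.inl rfl))
    rw [e]
    simp only [aw, wd_node, wd_app, n0]
    simp
  · apply hn
    rw [e]
    apply N101.of_rn
    simp only [aw, wd_node, wd_app, n0, rn_app, rn_cons, rn_nil, rB0, d01, rT 1 le_rfl, d00]
    rcases qQ 1 le_rfl with h1 | h1 <;> simp only [h1, d20, d00] <;> norm_num
  · by_cases hB : B = .nil
    · subst hB
      refine hk.no11 (p := true :: (wd (ch (q + 1)) ++ [false])) (s := vT) ?_
      rw [e]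
      simp only [aw, wd_node, n0, eT]
      simp
    · apply hn
      rw [e]
      apply N101.of_rn
      simp only [aw, wd_node, rn_app, rn_cons, rn_nil, d01]
      rcases qQ 1 le_rfl with h1 | h1 <;>
        simp only [h1, d20, d00, d01, rB hB 1 le_rfl, rT 0 (by norm_num)] <;> norm_num
  · apply hn
    rw [e]
    apply N101.of_rn
    have h2 : rn 1 (wd B) ≤ 1 := by
      by_cases hB : B = .nil
      · subst hB; exact le_rfl
      · rw [rB hB 1 le_rfl]; norm_num
    have h3 : dl (rn 1 (wd B)) true = 1 := by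
      generalize rn 1 (wd B) = t at h2
      interval_cases t <;> rfl
    simp only [aw, wd_node, wd_app, n0, rn_app, rn_cons, rn_nil, d01, h3, rT 1 le_rfl, d00]
    rcases qQ 0 (by norm_num) with h1 | h1 <;> rw [h1] <;> norm_num
  · refine hk.noQ (p := true :: (wd B ++ false :: wd T)) (q := q) (z := []) ?_ (Or.inl rfl)
    rw [e]
    simp only [aw, wd_node, wd_app, n0]
    simp
  · rcases Nat.eq_zero_or_pos q with hq | hq
    · refine hk.no (p := []) (s := true :: (wd B ++ false :: wd T ++ [false])) ?_ (Or.inl (by simp))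
      rw [e]
      simp only [aw, wd_node, wd_app, n0, q0 hq]
      simp
    · by_cases hB : B = .nil
      · subst hB
        refine hk.no11 (p := wd (ch (q + 1)) ++ [true]) (s := vT ++ [false]) ?_
        rw [e]
        simp only [aw, wd_node, wd_app, n0, eT]
        simp
      · apply hn
        rw [e]
        apply N101.of_rn
        simp only [aw, wd_node, wd_app, n0, rn_app, rn_cons, rn_nil, rn_ch hq (by norm_num : 0 ≤ 1),
          d01, d11, rB hB 1 le_rfl, d00, rT 0 (by norm_num)]
        norm_num

end JVi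

open JVi SRun

variable {k : ℕ} {F F' : Set (Cyc k)} {g g' : DG k} {S : BinaryTree Unit}

/-- **I-JV-A0**: `T (S())`, `T ((S)())` are never words of the windows A0; `h3`: the same for `T ((S))` -/
theorem Is9.inner_A0 (h : Is9 .nil .nil S F g) (hS : Gd S) (h3 : 3 ≤ ht S) (h' : TyA0 F' g')
    (hz : ∀ x : X k, x.1 = (S △ .nil) △ .nil → TT x ∉ g'.B) : ∀ p ∈ g.arcs, ∀ w ∈ innA p, w ∉ g'.B := by
  intro p hp w hw hw'
  obtain ⟨x, rfl, hx⟩ := h.inner_cases p hp w hw
  rcases hx with hx | hx
  · exact hz x hx hw'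
  · obtain ⟨a, b, hD⟩ := Dt.ex hS (by rw [H1.ht_eq]; exact h3)
    obtain ⟨a', b', fm, _, _, hl, hy⟩ := hS.fm (by rw [H1.ht_eq]; exact h3)
    obtain ⟨rfl, rfl⟩ := hD.fm.uniq fm
    rw [List.length_map] at hl
    have hk : K45 (wd (TT x).1) := by
      rcases hx with hx | hx
      · exact hD.k4 hl hy hx
      · exact hD.k5 hl hy hx
    obtain ⟨q, R, B, T, w0, h1, hne, rfl, rfl⟩ := h'
    obtain ⟨j, hj, e⟩ := mem_gad20M.1 hw'
    refine hk.not_aw (R := Tsq.mir R) (B := Tsq.mir B) (T := Tsq.mir T) ?_ q hj ?_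
    · exact h1.bareM
    · rw [← e, h1.word' w0 hj, H1.ch_eq]

end Pool.OddHC
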