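import Pool.Agent.Work.MP_8f87b2_h68.JMi
import Pool.Agent.Work.MP_8f87b2_h99.Ty9
import Pool.Agent.Work.MP_8f87b2_h41.InAJ

/-!
# MP_8f87b2_co, row I-JV-A: inner words of the pair gadgets JV (`Is9 nil nil S`) against the windows of type A

`S = a 1 b` (first maximum): the inner words are `T ((S)) = b' 11000 a'`, `T (S()) = b' 01100 a'`, `T ((S)()) = b' 10100 a'`.
They contain the factor `101` at most once; every window of type A with a part 1 contains `1011`.
-/

set_option autoImplicit false

namespace Pool.OddHC

open Finset Equiv BinaryTree Pool.Agent.Work.MP_8f87b2_co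

namespace JVi

open H1 SRun

/-! ### The factor `101` -/

/-- no factor `1 0 1` -/
def N101 (l : List Bool) : Prop := ∀ u v, l ≠ u ++ true :: false :: true :: v

theorem no3 {l : List Bool} (h : D2 l) {c d : Bool} (hcd : c ≠ d) (u v : List Bool) :
    l ≠ u ++ c :: d :: c :: v := by
  intro e
  exact hcd (h.cut hcd e).2.eq.symm

theorem N101.of_D2 {l : List Bool} (h : D2 l) : N101 l := fun u v => no3 h (by simp) u v

/-- `1 0` instead of the last letter `1` -/
theorem N101.end0 {l : List Bool} (h : N101 l) : N101 (l ++ [false]) := by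
  intro u v e
  rcases List.eq_nil_or_concat v with hv | ⟨v', z, hv⟩
  · subst hv
    have e1 : l ++ [false] = (u ++ [true, false]) ++ [true] := by rw [e]; simp
    have e2 := (List.append_inj' e1 rfl).2
    simp at e2
  · rw [List.concat_eq_append] at hv
    subst hv
    have e1 : l ++ [false] = (u ++ true :: false :: true :: v') ++ [z] := by rw [e]; simp
    exact h u v' (List.append_inj' e1 rfl).1

theorem N101.cons_f {l : List Bool} (h : N101 l) : N101 (false :: l) := by
  intro u v e
  rcases u with _ | ⟨x, u⟩
  · simp at e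
  · rw [List.cons_append, List.cons.injEq] at e
    exact h u v e.2

theorem N101.cons_tt {l : List Bool} (h : N101 (true :: l)) : N101 (true :: true :: l) := by
  intro u v e
  rcases u with _ | ⟨x, u⟩
  · simp at e
  · rw [List.cons_append, List.cons.injEq] at e
    exact h u v e.2

theorem N101.cons_tff {l : List Bool} (h : N101 l) : N101 (true :: false :: false :: l) := by
  intro u v e
  rcases u with _ | ⟨x, u⟩
  · simp at e
  · rw [List.cons_append, List.cons.injEq] at e
    exact (h.cons_f.cons_f) u v e.2

theorem N101.tail {x : Bool} {l : List Bool} (h : N101 (x :: l)) : N101 l := by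
  intro u v e
  exact h (x :: u) v (by rw [e]; rfl)

theorem N101.app00 {L M : List Bool} (hL : N101 L) (hM : N101 M) : N101 (L ++ false :: false :: M) := by
  intro u v e
  rcases List.append_eq_append_iff.1 e with ⟨c, h1, h2⟩ | ⟨c, h1, h2⟩
  · rcases c with _ | ⟨x, _ | ⟨y, c⟩⟩
    · simp at h2
    · simp at h2
    · simp only [List.cons_append, List.cons.injEq] at h2
      exact hM c v h2.2.2
  · rcases c with _ | ⟨x, _ | ⟨y, _ | ⟨z, c⟩⟩⟩
    · simp at h2
    · simp at h2
    · simp at h2
    · simp only [List.cons_append, List.cons.injEq] at h2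
      obtain ⟨rfl, rfl, rfl, _⟩ := h2
      exact hL u c h1

/-- the position of the factor `1 0 1` -/
theorem uniq3 {u v p s : List Bool}
    (h : u ++ true :: false :: true :: v = p ++ true :: false :: true :: s)
    (h1 : N101 (u ++ [true, false])) (h2 : N101 (false :: true :: v)) : u = p ∧ v = s := by
  rcases List.append_eq_append_iff.1 h with ⟨c, hp, he⟩ | ⟨c, hu, he⟩
  · rcases c with _ | ⟨x, c⟩
    · simp only [List.append_nil] at hp
      simp only [List.nil_append, List.cons.injEq, true_and] at he
      exact ⟨hp.symm, he⟩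
    · rw [List.cons_append, List.cons.injEq] at he
      exact absurd he.2 (h2 c s)
  · rcases c with _ | ⟨x, c⟩
    · simp only [List.append_nil] at hu
      simp only [List.nil_append, List.cons.injEq, true_and] at he
      exact ⟨hu, he.symm⟩
    · exfalso
      rw [List.cons_append, List.cons.injEq] at he
      obtain ⟨rfl, he⟩ := he
      rcases c with _ | ⟨y, _ | ⟨z, c⟩⟩
      · simp at he
      · rw [List.cons_append, List.cons.injEq] at he
        obtain ⟨rfl, he⟩ := he
        exact h1 p [false] (by rw [hu]; simp)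
      · rw [List.cons_append, List.cons_append, List.cons.injEq, List.cons.injEq] at he
        obtain ⟨rfl, rfl, he⟩ := he
        exact h1 p (c ++ [true, false]) (by rw [hu]; simp)

/-! ### The inner words -/

/-- the data of the first maximum of `S` -/
structure Dt (S : BinaryTree Unit) (a b : List Bool) : Prop where
  fm : H1.FM S a b
  be : D2 (b.map not)
  last : ∃ β, b.map not = β ++ [true]
  al : N101 (a.map not)
  al' : ∀ u v, a.map not ≠ u ++ false :: true :: false :: v
  st : ∃ l, a.map not = false :: l

theorem mnn (l : List Bool) : (l.map not).map not = l := by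
  rw [List.map_map]
  have : (not ∘ not) = id := by funext x; cases x <;> rfl
  rw [this, List.map_id]

theorem Dt.ex {S : BinaryTree Unit} (h : Gd S) (h3 : 3 ≤ Tsq.ht S) : ∃ a b, Dt S a b := by
  obtain ⟨a, b, fm, hb, hβ, hl, x, l, hx⟩ := h.fm h3
  have hD := h.d2
  obtain ⟨b', hb'⟩ : ∃ b', b = false :: b' := by
    cases b with
    | nil => simp at hl
    | cons y b' =>
      cases y with
      | false => exact ⟨b', rfl⟩
      | true =>
        exfalso
        have h1 := fm.top
        have h2 := Tsq.ht_take S (a.length + 2)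
        rw [fm.eq] at h2
        have e : (a ++ true :: true :: b').take (a.length + 2) = a ++ [true, true] := by
          rw [List.take_append]
          simp
        rw [e, List.count_append, List.count_append] at h2
        simp at h2
        omega
  rw [fm.eq, hb'] at hD
  have hD2 := (hD.cut (by simp) rfl).1
  refine ⟨a, b, ⟨fm, hb, hβ, ?_, ?_, _, hx⟩⟩
  · intro u v e
    have e1 : a = u.map not ++ false :: true :: false :: v.map not := by
      have := congrArg (List.map not) e
      rw [mnn] at this
      rw [this]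
      simp
    exact no3 hD2 (c := false) (d := true) (by simp) (u.map not) (v.map not ++ [true])
      (by rw [e1]; simp)
  · intro u v e
    have e1 : a = u.map not ++ true :: false :: true :: v.map not := by
      have := congrArg (List.map not) e
      rw [mnn] at this
      rw [this]
      simp
    exact no3 hD2 (c := true) (d := false) (by simp) (u.map not) (v.map not ++ [true])
      (by rw [e1]; simp)

variable {k : ℕ} {S : BinaryTree Unit} {a b : List Bool} {x : X k}

theorem wd3 (h : H1.FM S a b) (e : x.1 = (S △ .nil) △ .nil) :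
    wd (TT x).1 = (b.map not ++ [true, true]) ++ false :: false :: (false :: a.map not) := by
  have hn : Tsq.ht (.nil : BinaryTree Unit) = 0 := rfl
  have k1 := (h.node (Z := .nil) (by rw [hn]; omega)).node (Z := .nil) (by rw [hn]; omega)
  rw [← e] at k1
  rw [k1.wdT]
  simp [wd]

theorem wd4 (h : H1.FM S a b) (e : x.1 = (app S (.nil △ .nil)) △ .nil) :
    wd (TT x).1 = b.map not ++ false :: true :: true :: false :: false :: a.map not := by
  have hn : Tsq.ht (.nil : BinaryTree Unit) = 0 := rfl
  have k0 := h.pos
  have k1 := (h.app_right (Z := .nil △ .nil) (by rw [Tsq.ht_node, hn]; omega)).node (Z := .nil)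
    (by rw [hn]; omega)
  rw [← e] at k1
  rw [k1.wdT]
  simp [wd]

theorem wd5 (h : H1.FM S a b) (e : x.1 = S △ (.nil △ .nil)) :
    wd (TT x).1 = b.map not ++ true :: false :: true :: false :: false :: a.map not := by
  have hn : Tsq.ht (.nil : BinaryTree Unit) = 0 := rfl
  have k1 := h.node (Z := .nil △ .nil) (by rw [Tsq.ht_node, hn]; omega)
  rw [← e] at k1
  rw [k1.wdT]
  simp [wd]

theorem Dt.n3 (h : Dt S a b) (e : x.1 = (S △ .nil) △ .nil) : N101 (wd (TT x).1) := by
  rw [wd3 h.fm e]
  obtain ⟨β, hβ⟩ := h.last
  refine N101.app00 (N101.of_D2 ?_) h.al.cons_f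
  have h1 := h.be.snoc hβ
  have h2 := h1.snoc (m := b.map not) rfl
  simpa using h2

theorem Dt.n5 (h : Dt S a b) (e : x.1 = S △ (.nil △ .nil)) {p s : List Bool}
    (h1 : wd (TT x).1 = p ++ true :: false :: true :: s) : s = false :: false :: a.map not := by
  rw [wd5 h.fm e] at h1
  obtain ⟨β, hβ⟩ := h.last
  have h2 : N101 (b.map not ++ [true, false]) := by
    have h3 := (N101.of_D2 (h.be.snoc hβ)).end0
    simpa using h3
  have h4 : N101 (false :: true :: false :: false :: a.map not) := (h.al.cons_tff).cons_f
  exact (uniq3 h1 h2 h4).2.symm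

theorem Dt.n4 (h : Dt S a b) (e : x.1 = (app S (.nil △ .nil)) △ .nil) {p s : List Bool}
    (h1 : wd (TT x).1 = p ++ true :: false :: true :: s) :
    s = true :: false :: false :: a.map not ∧ b.map not = p ++ [true] ∧ N101 (p ++ [true, false]) := by
  obtain ⟨β, hβ⟩ := h.last
  rw [wd4 h.fm e, hβ] at h1
  have h0 : β ++ true :: false :: true :: (true :: false :: false :: a.map not) =
      p ++ true :: false :: true :: s := by
    rw [← h1]; simp
  have h2 : N101 (β ++ [true, false]) := by
    have h3 := (N101.of_D2 h.be).end0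
    rw [hβ] at h3
    simpa using h3
  have h4 : N101 (false :: true :: true :: false :: false :: a.map not) :=
    (h.al.cons_tff).cons_tt.cons_f
  obtain ⟨h5, h6⟩ := uniq3 h0 h2 h4
  subst h5
  exact ⟨h6.symm, hβ, h2⟩

/-! ### The windows -/

/-- the beads: after the last `()` -/
theorem bl_last {H Y : BinaryTree Unit} {v : List Bool} (hH : bl H = true) (h1 : 1 ∈ cont H)
    (hY : wd Y = true :: true :: v) : ∃ p s, wd (app H Y) = p ++ true :: false :: true :: true :: s ∧
      ((∃ s', s = false :: false :: true :: s') ∨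
        ∃ H0, H = app H0 (.nil △ .nil) ∧ p = wd H0 ∧ s = v) := by
  induction H with
  | nil => exact absurd h1 (by simp [cont])
  | node _ A C _ ih =>
    change bl (A △ C) = true at hH
    change 1 ∈ cont (A △ C) at h1
    change ∃ p s, wd (A △ app C Y) = _ ∧ _
    rw [bl, Bool.and_eq_true] at hH
    rw [wd_node]
    by_cases hC : 1 ∈ cont C
    · obtain ⟨p, s, e1, e2⟩ := ih hH.2 hC
      refine ⟨true :: (wd A ++ false :: p), s, by rw [e1]; simp, ?_⟩
      rcases e2 with e2 | ⟨H0, e2, e3, e4⟩
      · exact Or.inl e2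
      · refine Or.inr ⟨A △ H0, ?_, ?_, e4⟩
        · change BinaryTree.node _ A C = A △ app H0 (.nil △ .nil)
          rw [← e2]
        · rw [wd_node, e3]
    · rw [cont_node, Multiset.mem_add] at h1
      have h2 : 1 ∈ raise (cont A) := by
        rcases h1 with h1 | h1
        · exact h1
        · exact absurd h1 hC
      rcases light_cases hH.1 with rfl | rfl
      · -- `()`
        cases C with
        | nil =>
          refine ⟨[], v, ?_, Or.inr ⟨.nil, rfl, rfl, rfl⟩⟩
          change true :: (wd .nil ++ false :: wd Y) = _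
          rw [hY]
          rfl
        | node _ A' C' =>
          have h3 := hH.2
          change bl (A' △ C') = true at h3
          rw [bl, Bool.and_eq_true] at h3
          rcases light_cases h3.1 with rfl | rfl
          · exfalso
            apply hC
            change 1 ∈ cont (.nil △ C')
            rw [cont_node, Multiset.mem_add]
            left
            change 1 ∈ raise 0
            simp [raise]
          · have e3 : ∃ s', wd (app C' Y) = true :: s' := by
              cases C' with
              | nil => exact ⟨_, hY⟩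
              | node _ A'' C'' => exact ⟨_, by rw [app, wd_node]⟩
            obtain ⟨s', hs'⟩ := e3
            refine ⟨[], false :: false :: wd (app C' Y), ?_, Or.inl ⟨s', by rw [hs']⟩⟩
            change true :: (wd .nil ++ false :: wd ((.nil △ .nil) △ app C' Y)) = _
            rw [wd_node]
            simp [wd]
      · exfalso
        have e4 : raise (cont ((.nil : BinaryTree Unit) △ .nil)) = {2} := by
          change raise (raise 0 + 0) = {2}
          rfl
        rw [e4, Multiset.mem_singleton] at h2
        omega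

/-- the content of `R` contains `1`: the beads contain `1` -/
theorem one_H {q : ℕ} {B1 H s B : BinaryTree Unit} (h : NodeG k q B1 H s B)
    (h1 : 1 ∈ cont (gR B1 H s B)) : 1 ∈ cont H := by
  have hB1 := hv_parts h.h1
  have hB := hv_parts h.hB
  have hs := hv_parts h.hs
  unfold gR at h1
  rw [cont_app, cont_node, cont_app, Multiset.mem_add, Multiset.mem_add] at h1
  rcases h1 with h1 | h1 | h1
  · have := hB1 1 h1; omega
  · unfold raise at h1
    rw [Multiset.mem_cons] at h1
    rcases h1 with h1 | h1
    · exfalso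
      have h2 : (cont H + cont s).sup = 0 := by omega
      have h3 : OddHC.ht (app H s) = 0 := by rw [OddHC.ht_eq, cont_app]; exact h2
      have h4 := h.hs3
      rw [ht_app] at h3
      omega
    · have h2 := Multiset.mem_of_mem_erase h1
      rw [Multiset.mem_add] at h2
      rcases h2 with h2 | h2
      · exact h2
      · have := hs 1 h2; omega
  · have := hB 1 h1; omega

/-- a heavy word of height 3 -/
theorem sq_three {s : BinaryTree Unit} (h : hv s) (h0 : s ≠ .nil) (h3 : Tsq.ht s ≤ 3) :
    ∃ C, hv C ∧ Tsq.sq s = (((.nil △ .nil) △ .nil) △ .nil, C) := by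
  cases s with
  | nil => exact absurd rfl h0
  | node _ A C =>
    rcases h.1 with rfl | ⟨h1, h2⟩
    · refine ⟨C, h.2, ?_⟩
      have h4 : Tsq.ht C ≤ 3 := by
        have : Tsq.ht (((.nil △ .nil) △ .nil) △ C : BinaryTree Unit) ≤ 3 := h3
        rw [Tsq.ht_node] at this
        omega
      have h5 : Tsq.ht ((.nil △ .nil) △ .nil : BinaryTree Unit) = 2 := rfl
      change Tsq.sq (((.nil △ .nil) △ .nil) △ C) = _
      rw [Tsq.sq_ge (by simp) (by rw [h5]; omega), sq_two]
    · exfalso
      have h4 := hv_ht h2 h1
      have : Tsq.ht (A △ C) ≤ 3 := h3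
      rw [Tsq.ht_node] at this
      omega

/-- the shape of `S'` -/
theorem sqR {q : ℕ} {B1 H s B : BinaryTree Unit} (h : NodeG k q B1 H s B) {X Y Z : BinaryTree Unit}
    (g : Tsq.sq s = (X △ Y, Z)) :
    (Tsq.sq (gR B1 H s B)).1 = app B1 (app H X △ Y) △ Z := by
  have es : Tsq.ht s = OddHC.ht s := H1.ht_eq s
  have eB : Tsq.ht B = OddHC.ht B := H1.ht_eq B
  have eB1 : Tsq.ht B1 = OddHC.ht B1 := H1.ht_eq B1
  have hH2 := bl_ht h.light
  have h2 := h.low
  have h3 := h.top
  have hs3 := h.hs3
  have e1 : Tsq.ht (app H s) = Tsq.ht s := by rw [Tsq.ht_app]; omega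
  have e2 : Tsq.sq (app H s) = (app H X △ Y, Z) := by
    rw [Tsq.sq_pre H s (by omega), g]
    rfl
  have e3 : Tsq.sq (app H s △ B) = ((app H X △ Y) △ Z, B) := by
    rw [Tsq.sq_ge (app_ne h.s0) (by omega), e2]
  have e4 : Tsq.sq (gR B1 H s B) = (app B1 (app H X △ Y) △ Z, B) := by
    unfold gR
    rw [Tsq.sq_pre B1 _ (by rw [Tsq.ht_node]; omega), e3]
    rfl
  rw [e4]

/-- `1 0 1 1` and what follows: `1`, or `0 0 1` -/
def Fl (l : List Bool) : Prop := ∃ p s, l = p ++ true :: false :: true :: true :: s ∧
  ((∃ s', s = true :: s') ∨ ∃ s', s = false :: false :: true :: s')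

theorem Fl.mono {l : List Bool} (h : Fl l) (p s : List Bool) : Fl (p ++ l ++ s) := by
  obtain ⟨p', s', rfl, h1⟩ := h
  refine ⟨p ++ p', s' ++ s, by simp, ?_⟩
  rcases h1 with ⟨s'', rfl⟩ | ⟨s'', rfl⟩
  · exact Or.inl ⟨s'' ++ s, rfl⟩
  · exact Or.inr ⟨s'' ++ s, rfl⟩

theorem W_lo (R Q B S : BinaryTree Unit) : ∀ i < 10, ∃ p s, wd (W R Q B S i) = p ++ wd R ++ s := by
  intro i hi
  interval_cases i
  · exact ⟨[], wd ((Q △ .nil) △ .nil), by simp only [W, wd_app]; simp⟩
  · exact ⟨[], wd (.nil △ app Q (.nil △ .nil)), by simp only [W, wd_app]; simp⟩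
  · exact ⟨[true, false], wd (.nil △ Q), by simp only [W, wd_app, wd_node]; simp [wd]⟩
  · exact ⟨[true], wd (.nil △ Q) ++ [false], by simp only [W, wd_app, wd_node]; simp [wd]⟩
  · exact ⟨wd (app Q (.nil △ .nil) △ .nil), [], by simp only [W, wd_app, wd_node]; simp [wd]⟩
  · exact ⟨wd (Q △ (.nil △ .nil)), [], by simp only [W, wd_node]; simp [wd]⟩
  · exact ⟨[true], false :: wd (Q △ .nil), by simp only [W, wd_node]; simp [wd]⟩
  · exact ⟨wd Q ++ [true, true, false], [false], by simp only [W, wd_app, wd_node]; simp [wd]⟩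
  · exact ⟨wd Q ++ [true, false, true], [false], by simp only [W, wd_app, wd_node]; simp [wd]⟩
  · exact ⟨[true, true], false :: false :: wd Q, by simp only [W, wd_node]; simp [wd]⟩

/-- what stands before and after `S` -/
def pre (Q B : BinaryTree Unit) : ℕ → List Bool
  | 10 => wd B ++ true :: true :: (wd Q ++ [false, false])
  | 11 => wd B ++ true :: false :: (wd Q ++ [true, false])
  | 12 => [true]
  | 13 => []
  | 14 => true :: (wd Q ++ [true, false])
  | 15 => true :: (wd Q ++ [false, true])
  | 16 => []
  | 17 => wd Q ++ [true, true]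
  | 18 => wd Q ++ [true, false]
  | _ => [true]

def suf (Q B : BinaryTree Unit) : ℕ → List Bool
  | 10 => []
  | 11 => []
  | 12 => false :: (wd B ++ true :: false :: wd Q)
  | 13 => true :: (wd B ++ true :: false :: (wd Q ++ [false]))
  | 14 => false :: wd B
  | 15 => false :: wd B
  | 16 => true :: (wd B ++ false :: true :: (wd Q ++ [false]))
  | 17 => false :: (wd B ++ [false])
  | 18 => true :: (wd B ++ [false])
  | _ => true :: (wd B ++ false :: false :: wd Q)

theorem W_hi (R Q B S : BinaryTree Unit) : ∀ i, 10 ≤ i → i < 20 →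
    wd (W R Q B S i) = pre Q B i ++ wd S ++ suf Q B i := by
  intro i h1 h2
  interval_cases i <;> simp only [W, wd_app, wd_node, pre, suf] <;> simp [wd]

theorem R_fl {q : ℕ} {B1 H s B : BinaryTree Unit} (h : NodeG k q B1 H s B)
    (h1 : 1 ∈ cont (gR B1 H s B)) : Fl (wd (gR B1 H s B)) := by
  obtain ⟨v, hv⟩ := hv_ttt h.hs h.s0
  obtain ⟨p, r, e, e2⟩ := bl_last h.light (one_H h h1) hv
  have h2 : Fl (wd (app H s)) := by
    refine ⟨p, r, e, ?_⟩
    rcases e2 with e2 | ⟨_, _, _, e2⟩
    · exact Or.inr e2
    · exact Or.inl ⟨v, e2⟩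
  have h3 := h2.mono (wd B1 ++ [true]) (false :: wd B)
  have e3 : wd (gR B1 H s B) = wd B1 ++ [true] ++ wd (app H s) ++ false :: wd B := by
    unfold gR
    rw [wd_app, wd_node]
    simp
  rw [e3]
  exact h3

theorem S_cases {q : ℕ} {B1 H s B : BinaryTree Unit} (h : NodeG k q B1 H s B)
    (h1 : 1 ∈ cont (gR B1 H s B)) : Fl (wd (Tsq.sq (gR B1 H s B)).1) ∨
      (OddHC.ht s = 3 ∧ ∃ H0 C, hv C ∧ wd (Tsq.sq (gR B1 H s B)).1 =
        (true :: (wd B1 ++ true :: wd H0)) ++
          true :: false :: true :: true :: false :: false :: false :: false :: wd C) := by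
  have hs3 := h.hs3
  have es : Tsq.ht s = OddHC.ht s := H1.ht_eq s
  have key : ∀ X Y Z : BinaryTree Unit, wd (app B1 (app H X △ Y) △ Z) =
      (true :: (wd B1 ++ [true])) ++ wd (app H X) ++ false :: (wd Y ++ false :: wd Z) := by
    intro X Y Z
    rw [wd_node, wd_app, wd_node]
    simp
  rcases Nat.lt_or_ge 3 (OddHC.ht s) with h4 | h4
  · left
    obtain ⟨X, Y, g, _, g2⟩ := sq_ttt h.hs h.s0
    obtain ⟨v, hv⟩ := g2 (by omega)
    obtain ⟨p, r, e, e2⟩ := bl_last h.light (one_H h h1) hv
    have h2 : Fl (wd (app H X)) := by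
      refine ⟨p, r, e, ?_⟩
      rcases e2 with e2 | ⟨_, _, _, e2⟩
      · exact Or.inr e2
      · exact Or.inl ⟨v, e2⟩
    rw [sqR h (Z := (Tsq.sq s).2) (by rw [← g]), key]
    exact h2.mono _ _
  · obtain ⟨C, hC, g⟩ := sq_three h.hs h.s0 (by omega)
    have hX : wd ((.nil △ .nil) △ .nil : BinaryTree Unit) = true :: true :: [false, false] := by
      simp [wd]
    obtain ⟨p, r, e, e2⟩ := bl_last h.light (one_H h h1) hX
    rw [sqR h g, key]
    rcases e2 with e2 | ⟨H0, _, e3, e4⟩
    · left
      exact Fl.mono ⟨p, r, e, Or.inr e2⟩ _ _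
    · right
      refine ⟨by omega, H0, C, hC, ?_⟩
      rw [e, e3, e4]
      simp [wd]

/-- `T((S))`, `T((S)())`: no window with a part 1 -/
theorem ne_W35 {q : ℕ} {B1 H s B : BinaryTree Unit} (h : NodeG k q B1 H s B)
    (h1 : 1 ∈ cont (gR B1 H s B)) (Q : BinaryTree Unit) {i : ℕ} (hi : i < 20) :
    ∃ p s', wd (W (gR B1 H s B) Q B (Tsq.sq (gR B1 H s B)).1 i) =
      p ++ true :: false :: true :: true :: s' := by
  rcases Nat.lt_or_ge i 10 with h2 | h2
  · obtain ⟨p, r, e⟩ := W_lo (gR B1 H s B) Q B (Tsq.sq (gR B1 H s B)).1 i h2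
    obtain ⟨p', r', e2, _⟩ := (R_fl h h1).mono p r
    exact ⟨p', r', by rw [e, e2]⟩
  · rw [W_hi _ _ _ _ i h2 hi]
    rcases S_cases h h1 with h3 | ⟨_, H0, C, _, h3⟩
    · obtain ⟨p', r', e2, _⟩ := h3.mono (pre Q B i) (suf Q B i)
      exact ⟨p', r', e2⟩
    · exact ⟨pre Q B i ++ (true :: (wd B1 ++ true :: wd H0)), _, by rw [h3]; simp; rfl⟩

/-- the letters before the first maximum: no more `0` than `1` -/
theorem Dt.pos (h : Dt S a b) (m : ℕ) : (a.take m).count false ≤ (a.take m).count true := by
  have h1 := wd_take S (min m a.length)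
  rw [h.fm.eq, List.take_append] at h1
  have e : min m a.length - a.length = 0 := by omega
  rw [e] at h1
  have e2 : a.take (min m a.length) = a.take m := by
    rcases Nat.le_total m a.length with h2 | h2
    · rw [min_eq_left h2]
    · rw [min_eq_right h2, List.take_of_length_le le_rfl, List.take_of_length_le h2]
  rw [e2] at h1
  simpa using h1

theorem fl_ne4 (h : Dt S a b) (e : x.1 = (app S (.nil △ .nil)) △ .nil) (h1 : Fl (wd (TT x).1)) :
    False := by
  obtain ⟨p, r, e1, e2⟩ := h1
  obtain ⟨h2, _, _⟩ := h.n4 e e1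
  obtain ⟨l, hl⟩ := h.st
  rw [hl, List.cons.injEq] at h2
  rcases e2 with ⟨s', e2⟩ | ⟨s', e2⟩
  · rw [e2] at h2
    simp at h2
  · rw [e2] at h2
    simp at h2

/-- **`T(S())`: no window with a part 1** -/
theorem ne_W4 {q : ℕ} {B1 H s B : BinaryTree Unit} (h : NodeG k q B1 H s B)
    (h1 : 1 ∈ cont (gR B1 H s B)) (hD : Dt S a b) (e : x.1 = (app S (.nil △ .nil)) △ .nil)
    (hc : OddHC.ht s = 3 → 4 ≤ OddHC.ht S ∧ a ≠ [true, true, true] ∧
      ∀ v, b ≠ false :: false :: true :: true :: v) {i : ℕ} (hi : i < 20) :
    wd (TT x).1 ≠ wd (W (gR B1 H s B) (ch (q + 1)) B (Tsq.sq (gR B1 H s B)).1 i) := by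
  intro e1
  rcases Nat.lt_or_ge i 10 with h2 | h2
  · obtain ⟨p, r, e2⟩ := W_lo (gR B1 H s B) (ch (q + 1)) B (Tsq.sq (gR B1 H s B)).1 i h2
    exact fl_ne4 hD e (by rw [e1, e2]; exact (R_fl h h1).mono p r)
  · rcases S_cases h h1 with h3 | ⟨hs, H0, C, hC, h3⟩
    · exact fl_ne4 hD e (by rw [e1, W_hi _ _ _ _ i h2 hi]; exact h3.mono _ _)
    · obtain ⟨h4, ha, hb⟩ := hc hs
      have hbig := h.big
      rw [W_hi _ _ _ _ i h2 hi, h3] at e1
      have e2 : wd (TT x).1 = (pre (ch (q + 1)) B i ++ (true :: (wd B1 ++ true :: wd H0))) ++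
          true :: false :: true ::
            (true :: false :: false :: (false :: false :: (wd C ++ suf (ch (q + 1)) B i))) := by
        rw [e1]; simp
      obtain ⟨k1, k2, k3⟩ := hD.n4 e e2
      have k4 : a.map not = false :: false :: (wd C ++ suf (ch (q + 1)) B i) := by
        simpa using k1.symm
      have top := hD.fm.top
      rw [H1.ht_eq] at top
      have ea : a = true :: true :: ((wd C).map not ++ (suf (ch (q + 1)) B i).map not) := by
        have := congrArg (List.map not) k4
        rw [mnn] at this
        rw [this]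
        simp
      have hC0 : C = .nil := by
        by_contra hne
        obtain ⟨v, hv⟩ := hv_ttt hC hne
        have := hD.pos 5
        rw [ea, hv] at this
        simp at this
      subst hC0
      have hQ : wd (ch (q + 1)) = true :: (wd (ch q) ++ [false]) := by
        rw [ch_succ, wd_node]
        simp [wd]
      have hB3 : B ≠ .nil → ∃ v, wd B = true :: true :: true :: v := fun hB => hv_ttt h.hB hB
      have hn : wd (.nil : BinaryTree Unit) = [] := rfl
      interval_cases i
      · simp only [suf, hn, List.map_nil, List.append_nil] at ea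
        rw [ea] at top
        simp at top
        omega
      · simp only [suf, hn, List.map_nil, List.append_nil] at ea
        rw [ea] at top
        simp at top
        omega
      · exact hD.al (false :: false :: false :: wd B) (wd (ch q) ++ [false])
          (by rw [k4, hn]; simp only [suf]; rw [hQ]; simp)
      · exact hD.al (false :: false :: true :: wd B) (wd (ch q) ++ [false] ++ [false])
          (by rw [k4, hn]; simp only [suf]; rw [hQ]; simp)
      · exact k3 (true :: wd (ch (q + 1))) (wd B1 ++ true :: wd H0 ++ [true, false])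
          (by simp only [pre]; simp)
      · -- word 15
        by_cases hB : B = .nil
        · subst hB
          apply ha
          rw [ea]
          simp [suf, hn]
        · rcases Nat.eq_zero_or_pos q with hq | hq
          · subst hq
            have e5 : wd (ch (0 + 1)) = [true, false] := by rw [hQ]; simp [ch, wd]
            have e6 : b = (true :: true :: false :: false :: true ::
                (true :: (wd B1 ++ true :: wd H0) ++ [true])).map not → False := by
              intro e7
              exact hb _ (by rw [e7]; simp; rfl)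
            apply e6
            have e8 := congrArg (List.map not) k2
            rw [mnn] at e8
            rw [e8]
            simp only [pre, e5]
            simp
          · have hg4 : hg 4 B := hg_of_cont (by norm_num) (fun y hy => by
              have := h.bare y hy
              omega)
            obtain ⟨v, hv⟩ := hg_start (by norm_num) hg4 hB
            have e5 : wd B = true :: true :: true :: true :: v := by rw [hv]; rfl
            have := hD.pos 7
            rw [ea] at this
            simp only [suf, hn, e5] at this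
            simp at this
      · by_cases hB : B = .nil
        · subst hB
          exact hD.al [false, false] (wd (ch (q + 1)) ++ [false])
            (by rw [k4, hn]; simp only [suf]; simp [wd])
        · obtain ⟨v, hv⟩ := hB3 hB
          have := hD.pos 5
          rw [ea] at this
          simp only [suf, hn, hv] at this
          simp at this
      · -- word 17
        rcases Nat.lt_or_ge q 1 with hq | hq
        · obtain rfl : q = 0 := by omega
          have e5 : wd (ch (0 + 1)) = [true, false] := by rw [hQ]; simp [ch, wd]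
          exact k3 [] (true :: (true :: (wd B1 ++ true :: wd H0)) ++ [true, false])
            (by simp only [pre, e5]; simp)
        · obtain rfl : q = 1 := by omega
          have e5 : wd (ch (1 + 1)) = [true, true, false, false] := by rw [hQ]; simp [ch, wd]
          have e6 : b = (true :: true :: false :: false :: true :: true ::
              (true :: (wd B1 ++ true :: wd H0) ++ [true])).map not → False := by
            intro e7
            exact hb _ (by rw [e7]; simp; rfl)
          apply e6
          have e8 := congrArg (List.map not) k2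
          rw [mnn] at e8
          rw [e8]
          simp only [pre, e5]
          simp
      · exact k3 (wd (ch (q + 1))) (wd B1 ++ true :: wd H0 ++ [true, false])
          (by simp only [pre]; simp)
      · by_cases hB : B = .nil
        · subst hB
          exact hD.al' [false] (false :: wd (ch (q + 1)))
            (by rw [k4, hn]; simp only [suf]; simp [wd])
        · obtain ⟨v, hv⟩ := hB3 hB
          have := hD.pos 5
          rw [ea] at this
          simp only [suf, hn, hv] at this
          simp at this

end JVi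

open JVi SRun

variable {k : ℕ} {F F' : Set (Cyc k)} {g g' : DG k} {S : BinaryTree Unit}

/-- the inner words of a gadget `Is9 nil nil S` -/
theorem Is9.inner_cases (h : Is9 .nil .nil S F g) : ∀ p ∈ g.arcs, ∀ w ∈ innA p, ∃ x : X k, w = TT x ∧
    (x.1 = (S △ .nil) △ .nil ∨ x.1 = (app S (.nil △ .nil)) △ .nil ∨ x.1 = S △ (.nil △ .nil)) := by
  obtain ⟨w, h1, rfl, rfl⟩ := h
  intro p hp v hv
  have hp' : p = (w 3, w 6) ∨ p = (w 4, w 7) ∨ p = (w 5, w 8) := hp
  have hv' : v = TT p.1 := hv
  rcases hp' with rfl | rfl | rfl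
  · exact ⟨w 3, hv', Or.inl (h1.word 3 (by norm_num))⟩
  · exact ⟨w 4, hv', Or.inr (Or.inl (h1.word 4 (by norm_num)))⟩
  · exact ⟨w 5, hv', Or.inr (Or.inr (h1.word 5 (by norm_num)))⟩

/-- **I-JV-A**: the inner words of `Is9 nil nil S` (`S` without parts 1) are not words of the windows of type A with a
part 1. For the windows of height 4 only: `4 ≤ ht S`, and `S = a 1 b` (first maximum) with `a ≠ 111`, `b` does not begin
with `0011` (no `(())` in the gap behind the top letter). -/
theorem Is9.inner_A (h : Is9 .nil .nil S F g) (hS : Gd S) (h3 : 3 ≤ ht S) (h' : TyA F' g')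
    (hm : ∀ c ∈ F', 1 ≤ (contc c).count 1)
    (hc : (∀ c ∈ F', htc c = 4) → 4 ≤ ht S ∧ ∀ a b, H1.FM S a b → a ≠ [true, true, true] ∧
      ∀ v, b ≠ false :: false :: true :: true :: v) :
    ∀ p ∈ g.arcs, ∀ w ∈ innA p, w ∉ g'.B := by
  intro p hp w hw hw'
  obtain ⟨x, rfl, hx⟩ := h.inner_cases p hp w hw
  obtain ⟨a, b, hD⟩ := Dt.ex hS (by rw [H1.ht_eq]; exact h3)
  obtain ⟨q, B1, H, s, B, w0, hn, rfl, rfl⟩ := h'
  obtain ⟨i, hi, e⟩ := mem_gad20.1 hw'
  have hbig := hn.big
  have hR1 : 1 ∈ cont (H1.gR B1 H s B) := by
    have h1 := hm _ rfl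
    change 1 ≤ (cont (H1.gX q B1 H s B w0 0).1).count 1 at h1
    rw [hn.cont0, Multiset.count_add, Multiset.count_singleton, if_neg (by omega)] at h1
    exact Multiset.count_pos.1 (by omega)
  have e1 : wd (TT x).1 = wd (H1.W (H1.gR B1 H s B) (H1.ch (q + 1)) B
      (Tsq.sq (H1.gR B1 H s B)).1 i) := by
    rw [← hn.word w0 hi, e]
  rcases hx with hx | hx | hx
  · obtain ⟨p', s', e2⟩ := ne_W35 hn hR1 (H1.ch (q + 1)) hi
    rw [← e1] at e2
    exact hD.n3 hx p' (true :: s') e2
  · refine ne_W4 hn hR1 hD hx ?_ hi e1
    intro hs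
    have h4 := hc ?_
    · exact ⟨h4.1, h4.2 a b hD.fm⟩
    · rintro c rfl
      change (cont (H1.gX q B1 H s B w0 0).1).sup = 4
      rw [hn.cont0, Multiset.sup_add, ← OddHC.ht_eq, hn.ht, Multiset.sup_singleton, hs]
      exact max_eq_left (by omega)
  · obtain ⟨p', s', e2⟩ := ne_W35 hn hR1 (H1.ch (q + 1)) hi
    rw [← e1] at e2
    have := hD.n5 hx e2
    simp at this

end Pool.OddHC
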