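import Pool.Agent.Work.MP_8f87b2_h3.A0T
import Pool.Agent.Work.MP_8f87b2_h99.Ty9

/-!
# MP_8f87b2_co, row I-JV-T: the windows of height 3 are lower than the pair gadgets JV
-/

set_option autoImplicit false

namespace Pool.OddHC

open Finset Equiv BinaryTree Pool.Agent.Work.MP_8f87b2_co

variable {k : ℕ} {F F' : Set (Cyc k)} {g g' : DG k} {P Q S : BinaryTree Unit}

/-- **I-JV-T** (any group of height at least 4 which is not higher than the window of height 3: empty) -/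
theorem Is9.inner_T (h : Is9 P Q S F g) (h4 : 4 ≤ ht S) (h' : TyT F' g')
    (hle : ∀ c ∈ F, ∀ d ∈ F', htc c ≤ htc d) : ∀ p ∈ g.arcs, ∀ w ∈ innA p, w ∉ g'.B := by
  exfalso
  have h3 := h'.ht3
  have h5 := h.htp'
  obtain ⟨u, _, hu⟩ : ∃ u ∈ F, True := by
    obtain ⟨w, h1, rfl, rfl⟩ := h
    exact ⟨_, Or.inl rfl, trivial⟩
  obtain ⟨b, m, a, w0', h1', rfl, rfl⟩ := h'
  have e1 := h5 _ ‹u ∈ F›
  have e2 := h3 _ rfl
  have e3 := hle _ ‹u ∈ F› _ rfl
  omega

end Pool.OddHC
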