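import Pool.Agent.Work.MP_8f87b2_h10.ALn
import Pool.Agent.Work.MP_8f87b2_h3.InJ4
import Pool.Agent.Work.MP_8f87b2_h58.InA0
import Pool.Agent.Work.MP_8f87b2_h60.InAA
import Pool.Agent.Work.MP_8f87b2_mid.Key

/-!
# MP_8f87b2_co: row I-L1-A (no inner word of L1 is a word of a window A, any light `H`)
-/

set_option autoImplicit false

namespace Pool.OddHC

open Finset Equiv BinaryTree Pool.Agent.Work.MP_8f87b2_co

namespace Ft

theorem Nu.no1 {N α β e v i : ℕ} {P TF FF l : List ℕ} (hi : i ∈ [1, 2, 3, 7, 8, 9, 11, 12, 14, 17, 18, 19])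
    (h : Nu (T1 N i).1.1 (T1 N i).1.2 (T1 N i).2.1 (T1 N i).2.2 N (if i < 10 then 5 else 4) α β e P v TF FF l) :
    False := by
  obtain ⟨ha, he, hs, hp, hl, ut, uf, vt, vf⟩ := h
  have u0 := ut 0
  have u1 := ut 1
  have u2 := ut 2
  have u3 := ut 3
  have x0 := uf 0
  have x1 := uf 1
  have x2 := uf 2
  have v0 := vt 0
  have v1 := vt 1
  have v2 := vt 2
  have y0 := vf 0
  have y1 := vf 1
  have y2 := vf 2
  have y3 := vf 3
  clear ut uf vt vf
  simp only [List.mem_cons, List.not_mem_nil, or_false] at hi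
  rcases hi with rfl | rfl | rfl | rfl | rfl | rfl | rfl | rfl | rfl | rfl | rfl | rfl
  all_goals
    simp only [T1] at hs hp hl u0 u1 u2 u3 x0 x1 x2 v0 v1 v2 y0 y1 y2 y3
    rcases hs with ⟨h1, h2, h3, h4, h5⟩ | ⟨δ, hδ, h1, h2, h3, h4, h5⟩ | ⟨h1, h2, h3, h4, h5⟩ |
      ⟨δ, hδ, h1, h2, h3, h4, h5⟩ <;>
    · rw [h2] at hp
      rw [h4] at x0 x1 x2 y0 y1 y2 y3
      rw [h5] at u0 u1 u2 u3 v0 v1 v2
      rw [h3] at hl
      clear h2 h3 h4 h5
      rcases l with _ | ⟨g1, _ | ⟨g2, _ | ⟨g3, l⟩⟩⟩ <;>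
        simp at hp hl h1 u0 u1 u2 u3 x0 x1 x2 v0 v1 v2 y0 y1 y2 y3 <;> omega

/-! ### The beads of `H [r + 1]` -/

/-- the letters at the start -/
def St (r : ℕ) (L : List Bool) : Prop :=
  L[0]? = some true ∧ (L[1]? = some true ∨ L[2]? = some true ∨ (r = 1 ∧ L.length = 2))

/-- a bead of `H [r + 1]` -/
def Bd (r : ℕ) (L : List Bool) (g : ℕ) : Prop :=
  L[g]? = some true ∧ g + 2 * r ≤ L.length ∧ (HB L g ∨ (r = 1 ∧ L.length = 2))

theorem ch_facts (r : ℕ) (hr : 1 ≤ r) : rd (H1.ch (r + 1)) = H1.ch r ∧ ps (H1.ch (r + 1)) = [] ∧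
    ln (H1.ch (r + 1)) = 2 * r := by
  induction r with
  | zero => omega
  | succ r ih =>
    rcases Nat.eq_zero_or_pos r with h | h
    · subst h
      refine ⟨rfl, rfl, rfl⟩
    · obtain ⟨h1, h2, h3⟩ := ih h
      have h0 : 0 < ln (H1.ch (r + 1)) := by omega
      have e : H1.ch (r + 1 + 1) = H1.ch (r + 1) △ .nil := rfl
      have hne : H1.ch (r + 1) ≠ .nil := by rintro e; rw [e] at h0; exact absurd h0 (by simp [ln_nil])
      refine ⟨?_, ?_, ?_⟩
      · rw [e, rd_node hne, h1]
        rfl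
      · rw [e, ps_node h0, h2]
        rfl
      · rw [e, ln_node' h0, h3, ln_nil]
        omega

theorem H_facts {r : ℕ} (hr : 1 ≤ r) : ∀ {H : BinaryTree Unit}, H1.bl H = true →
    H.numNodes + 2 * r = (ps (app H (H1.ch (r + 1)))).length + ln (app H (H1.ch (r + 1))) ∧
    St r (wd (rd (app H (H1.ch (r + 1))))) ∧
    ∀ g ∈ ps (app H (H1.ch (r + 1))), Bd r (wd (rd (app H (H1.ch (r + 1))))) g := by
  intro H
  obtain ⟨c1, c2, c3⟩ := ch_facts r hr
  induction H with
  | nil =>
    intro _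
    refine ⟨?_, ?_, ?_⟩
    · rw [app, c2, c3]
      simp [BinaryTree.numNodes]
    · rw [app, c1, H1.wd_ch]
      obtain ⟨r', rfl⟩ : ∃ r', r = r' + 1 := ⟨r - 1, by omega⟩
      refine ⟨by simp [List.replicate_succ], ?_⟩
      rcases Nat.eq_zero_or_pos r' with h | h
      · subst h
        right; right
        exact ⟨rfl, rfl⟩
      · obtain ⟨r'', rfl⟩ : ∃ r'', r' = r'' + 1 := ⟨r' - 1, by omega⟩
        left
        simp [List.replicate_succ]
    · rw [app, c2]
      intro g hg
      cases hg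
  | node u A H ihA ih =>
    intro hb
    rw [H1.bl, Bool.and_eq_true] at hb
    obtain ⟨i1, i2, i3⟩ := ih hb.2
    have hl : ∀ t : BinaryTree Unit, (wd (rd t)).length = ln t := wd_rd
    rcases H1.light_cases hb.1 with rfl | rfl
    · have e : app (.node u .nil H) (H1.ch (r + 1)) = .nil △ app H (H1.ch (r + 1)) := rfl
      rw [e, ps_leaf, ln_leaf, rd_leaf]
      refine ⟨?_, i2, ?_⟩
      · rw [List.length_cons]
        change (0 + H.numNodes + 1) + 2 * r = _
        omega
      · intro g hg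
        rcases List.mem_cons.1 hg with rfl | hg
        · have hlen : 2 * r ≤ (wd (rd (app H (H1.ch (r + 1))))).length := by
            rw [hl, ln_app, c3]; omega
          refine ⟨i2.1, by omega, ?_⟩
          rcases i2.2 with h | h | h
          · exact Or.inl ⟨i2.1, Or.inl h⟩
          · exact Or.inl ⟨i2.1, Or.inr (Or.inl h)⟩
          · exact Or.inr h
        · exact i3 g hg
    · have e : app (.node u (.nil △ .nil) H) (H1.ch (r + 1)) = (.nil △ .nil) △ app H (H1.ch (r + 1)) := rfl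
      have e1 : rd ((.nil △ .nil) △ app H (H1.ch (r + 1))) = .nil △ rd (app H (H1.ch (r + 1))) := by
        rw [rd_node (by simp)]; rfl
      have e2 : ps ((.nil △ .nil) △ app H (H1.ch (r + 1))) = (ps (app H (H1.ch (r + 1)))).map (· + 2) := by
        rw [ps_node' (by simp)]; rfl
      have e3 : ln ((.nil △ .nil) △ app H (H1.ch (r + 1))) = ln (app H (H1.ch (r + 1))) + 2 := by
        rw [ln_node (by simp)]
        change 0 + _ + 2 = _
        omega
      rw [e, e1, e2, e3]
      have e4 : wd (.nil △ rd (app H (H1.ch (r + 1)))) = true :: false :: wd (rd (app H (H1.ch (r + 1)))) := rfl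
      rw [e4]
      set L := wd (rd (app H (H1.ch (r + 1)))) with hL
      refine ⟨?_, ?_, ?_⟩
      · rw [List.length_map]
        change ((0 + 0 + 1) + H.numNodes + 1) + 2 * r = _
        omega
      · refine ⟨rfl, ?_⟩
        right; left
        exact i2.1
      · intro g hg
        obtain ⟨g', hg', rfl⟩ := List.mem_map.1 hg
        obtain ⟨j1, j2, j3⟩ := i3 g' hg'
        have k1 : (true :: false :: L)[g' + 2]? = some true := j1
        refine ⟨k1, ?_, ?_⟩
        · rw [List.length_cons, List.length_cons]; omega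
        · left
          refine ⟨k1, ?_⟩
          rcases j3 with ⟨_, h | h | ⟨h0, h⟩⟩ | ⟨h, h'⟩
          · left; exact h
          · right; left; exact h
          · right; right
            refine ⟨by omega, ?_⟩
            obtain ⟨g'', rfl⟩ : ∃ g'', g' = g'' + 1 := ⟨g' - 1, by omega⟩
            exact h
          · right; right
            have h0 : g' = 0 := by omega
            subst h0
            exact ⟨by omega, rfl⟩

/-- the window `R = (H [p + 3])` -/
theorem R_facts {H : BinaryTree Unit} (hH : H1.bl H = true) (p : ℕ) :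
    0 < ln (app H (H1.ch (p + 3)) △ .nil) ∧ ∀ g ∈ ps (app H (H1.ch (p + 3)) △ .nil),
      HB (wd (rd (app H (H1.ch (p + 3)) △ .nil))) g ∧ g + 5 ≤ ln (app H (H1.ch (p + 3)) △ .nil) := by
  obtain ⟨h1, h2, h3⟩ := H_facts (r := p + 2) (by omega) hH
  change _ = _ + ln (app H (H1.ch (p + 3))) at h1
  change St _ (wd (rd (app H (H1.ch (p + 3))))) at h2
  have c3 : ln (H1.ch (p + 3)) = 2 * (p + 2) := (ch_facts (p + 2) (by omega)).2.2
  have h0 : 0 < ln (app H (H1.ch (p + 3))) := by rw [ln_app]; omega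
  have hne : app H (H1.ch (p + 3)) ≠ .nil := by rintro e; rw [e] at h0; exact absurd h0 (by simp [ln_nil])
  have hl : (wd (rd (app H (H1.ch (p + 3))))).length = ln (app H (H1.ch (p + 3))) := wd_rd _
  have e1 : ln (app H (H1.ch (p + 3)) △ .nil) = ln (app H (H1.ch (p + 3))) + 2 := by
    rw [ln_node' h0, ln_nil]
  refine ⟨by omega, ?_⟩
  intro g hg
  rw [ps_node h0, ps_nil, List.map_nil, List.append_nil] at hg
  obtain ⟨g', hg', rfl⟩ := List.mem_map.1 hg
  have h4 := h3 g' hg'
  change Bd (p + 2) (wd (rd (app H (H1.ch (p + 3))))) g' at h4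
  obtain ⟨j1, j2, j3⟩ := h4
  have h5 : HB (wd (rd (app H (H1.ch (p + 3))))) g' := by
    rcases j3 with h | ⟨h, _⟩
    · exact h
    · omega
  refine ⟨?_, by omega⟩
  have e2 : wd (rd (app H (H1.ch (p + 3)) △ .nil)) = [true] ++ (wd (rd (app H (H1.ch (p + 3)))) ++ [false]) := by
    rw [rd_node hne, rd_nil]
    rfl
  rw [e2]
  exact h5.up (U := [true])

/-- the window `S = ((H [p + 2]))` -/
theorem S_facts {H : BinaryTree Unit} (hH : H1.bl H = true) (p : ℕ) :
    0 < ln ((app H (H1.ch (p + 2)) △ .nil) △ .nil) ∧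
    ((∀ g ∈ ps ((app H (H1.ch (p + 2)) △ .nil) △ .nil),
      HB (wd (rd ((app H (H1.ch (p + 2)) △ .nil) △ .nil))) g ∧
        g + 4 ≤ ln ((app H (H1.ch (p + 2)) △ .nil) △ .nil)) ∨
    (p = 0 ∧ (ps ((app H (H1.ch (p + 2)) △ .nil) △ .nil)).length = H.numNodes)) := by
  obtain ⟨h1, h2, h3⟩ := H_facts (r := p + 1) (by omega) hH
  change _ = (ps (app H (H1.ch (p + 2)))).length + ln (app H (H1.ch (p + 2))) at h1
  have c3 : ln (H1.ch (p + 2)) = 2 * (p + 1) := (ch_facts (p + 1) (by omega)).2.2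
  have h0 : 0 < ln (app H (H1.ch (p + 2))) := by rw [ln_app]; omega
  have hne : app H (H1.ch (p + 2)) ≠ .nil := by rintro e; rw [e] at h0; exact absurd h0 (by simp [ln_nil])
  have hl : (wd (rd (app H (H1.ch (p + 2))))).length = ln (app H (H1.ch (p + 2))) := wd_rd _
  have e1 : ln (app H (H1.ch (p + 2)) △ .nil) = ln (app H (H1.ch (p + 2))) + 2 := by
    rw [ln_node' h0, ln_nil]
  have h0' : 0 < ln (app H (H1.ch (p + 2)) △ .nil) := by omega
  have e1' : ln ((app H (H1.ch (p + 2)) △ .nil) △ .nil) = ln (app H (H1.ch (p + 2))) + 4 := by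
    rw [ln_node' h0', ln_nil, e1]
  have ep : ps ((app H (H1.ch (p + 2)) △ .nil) △ .nil) = (ps (app H (H1.ch (p + 2)))).map (· + 2) := by
    rw [ps_node h0', ps_node h0, ps_nil]
    simp [Function.comp_def]
  refine ⟨by omega, ?_⟩
  by_cases hx : p + 1 = 1 ∧ (wd (rd (app H (H1.ch (p + 2))))).length = 2
  · right
    refine ⟨by omega, ?_⟩
    rw [ep, List.length_map]
    omega
  · left
    intro g hg
    rw [ep] at hg
    obtain ⟨g', hg', rfl⟩ := List.mem_map.1 hg
    have h4 := h3 g' hg'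
    change Bd (p + 1) (wd (rd (app H (H1.ch (p + 2))))) g' at h4
    obtain ⟨j1, j2, j3⟩ := h4
    have h5 : HB (wd (rd (app H (H1.ch (p + 2))))) g' := by
      rcases j3 with h | h
      · exact h
      · exact absurd h hx
    refine ⟨?_, by omega⟩
    have hne' : app H (H1.ch (p + 2)) △ .nil ≠ .nil := by simp
    have e2 : wd (rd ((app H (H1.ch (p + 2)) △ .nil) △ .nil)) =
        [true, true] ++ (wd (rd (app H (H1.ch (p + 2)))) ++ [false, false]) := by
      rw [rd_node hne', rd_node hne, rd_nil]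
      simp [wd]
    rw [e2]
    exact h5.up (U := [true, true])

end Ft

namespace H1

/-! ### Contents -/

theorem n3_le_raise (M : Multiset ℕ) : n3 M ≤ n3 (raise M) := by
  by_cases h : M = 0
  · subst h; rw [n3_zero]; omega
  by_cases h2 : M.sup = 2
  · have h1 : n3 M = (if 3 ≤ M.sup then 1 else 0) + n3 (M.erase M.sup) := by
      conv_lhs => rw [← Multiset.cons_erase (sup_mem h)]
      unfold n3
      rw [Multiset.countP_cons]
      ring
    have h3 : n3 (raise M) = (if 3 ≤ M.sup + 1 then 1 else 0) + n3 (M.erase M.sup) := by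
      unfold raise n3
      rw [Multiset.countP_cons]
      ring
    rw [h1, h3]
    split_ifs <;> omega
  · exact (n3_raise h h2).ge

theorem n3_raise_pos {M : Multiset ℕ} (h : 2 ≤ M.sup) : 1 ≤ n3 (raise M) := by
  unfold raise n3
  rw [Multiset.countP_cons, if_pos (by omega)]
  omega

/-- number of parts `≥ 3` of a word -/
def nc (t : BinaryTree Unit) : ℕ := n3 (OddHC.cont t)

theorem nc_nil : nc .nil = 0 := rfl

theorem nc_app (a b : BinaryTree Unit) : nc (app a b) = nc a + nc b := by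
  unfold nc
  rw [cont_app, n3_add]

theorem nc_node (a b : BinaryTree Unit) : nc a + nc b ≤ nc (a △ b) := by
  unfold nc
  rw [cont_node, n3_add]
  have := n3_le_raise (OddHC.cont a)
  omega

theorem nc_node2 {a : BinaryTree Unit} (h : 2 ≤ (OddHC.cont a).sup) (b : BinaryTree Unit) :
    1 + nc b ≤ nc (a △ b) := by
  unfold nc
  rw [cont_node, n3_add]
  have := n3_raise_pos h
  omega

theorem nc_node3 {a : BinaryTree Unit} (h : 3 ≤ (OddHC.cont a).sup) (b : BinaryTree Unit) :
    nc (a △ b) = nc a + nc b := by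
  unfold nc
  rw [cont_node, n3_add, n3_raise (by rintro e; rw [e] at h; simp at h) (by omega)]

theorem nc_W (R Q B S : BinaryTree Unit) {i : ℕ} (hi : i < 20) :
    (i < 10 → nc R + nc Q ≤ nc (W R Q B S i)) ∧ (10 ≤ i → nc B + nc S + nc Q ≤ nc (W R Q B S i)) := by
  have f := nc_app
  have g := nc_node
  have z := nc_nil
  constructor
  · intro h
    interval_cases i
    · have := g (Q △ .nil) .nil; have := g Q .nil; simp only [W, f] at *; omega
    · have := g .nil (app Q (.nil △ .nil)); simp only [W, f] at *; omega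
    · have := g .nil (app R (.nil △ Q)); have := g .nil Q; simp only [W, f] at *; omega
    · have := g (app R (.nil △ Q)) .nil; have := g .nil Q; simp only [W, f] at *; omega
    · have := g (app Q (.nil △ .nil)) R; simp only [W, f] at *; omega
    · have := g Q (.nil △ R); have := g .nil R; simp only [W, f] at *; omega
    · have := g R (Q △ .nil); have := g Q .nil; simp only [W, f] at *; omega
    · have := g (.nil △ R) .nil; have := g .nil R; simp only [W, f] at *; omega
    · have := g .nil (R △ .nil); have := g R .nil; simp only [W, f] at *; omega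
    · have := g (R △ .nil) Q; have := g R .nil; simp only [W, f] at *; omega
  · intro h
    interval_cases i
    · have := g (Q △ .nil) S; have := g Q .nil; simp only [W, f] at *; omega
    · have := g .nil (app Q (.nil △ S)); have := g .nil S; simp only [W, f] at *; omega
    · have := g S (app B (.nil △ Q)); have := g .nil Q; simp only [W, f] at *; omega
    · have := g (app B (.nil △ Q)) .nil; have := g .nil Q; simp only [W, f] at *; omega
    · have := g (app Q (.nil △ S)) B; have := g .nil S; simp only [W, f] at *; omega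
    · have := g Q (S △ B); have := g S B; simp only [W, f] at *; omega
    · have := g B (Q △ .nil); have := g Q .nil; simp only [W, f] at *; omega
    · have := g (S △ B) .nil; have := g S B; simp only [W, f] at *; omega
    · have := g .nil (app S (B △ .nil)); have := g B .nil; simp only [W, f] at *; omega
    · have := g (app S (B △ .nil)) Q; have := g B .nil; simp only [W, f] at *; omega

theorem sup_app_ge (a b : BinaryTree Unit) : (OddHC.cont a).sup ≤ (OddHC.cont (app a b)).sup ∧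
    (OddHC.cont b).sup ≤ (OddHC.cont (app a b)).sup := by
  rw [cont_app, Multiset.sup_add]
  exact ⟨le_sup_left, le_sup_right⟩

/-- the words with a second part `≥ 3` -/
theorem nc_W2 {R Q S : BinaryTree Unit} {i : ℕ} (hQ : 1 ≤ (OddHC.cont Q).sup)
    (hi : (i = 0 ∨ i = 10) ∨ (2 ≤ (OddHC.cont Q).sup ∧ i ∈ [4, 5, 6, 13, 15, 16])) :
    (i < 10 → nc R + 1 ≤ nc (W R Q .nil S i)) ∧ (10 ≤ i → nc S + 1 ≤ nc (W R Q .nil S i)) := by
  have f := nc_app
  have g := nc_node
  have z := nc_nil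
  have s1 : 2 ≤ (OddHC.cont (Q △ .nil)).sup := by
    rw [cont_node, Multiset.sup_add, sup_raise]
    exact le_trans (by omega) le_sup_left
  have n := @nc_node2
  rcases hi with (rfl | rfl) | ⟨h2, hi⟩
  · refine ⟨fun _ => ?_, fun h => by omega⟩
    have := n s1 .nil
    simp only [W, f] at *; omega
  · refine ⟨fun h => by omega, fun _ => ?_⟩
    have := n s1 S
    simp only [W, f] at *; omega
  · simp only [List.mem_cons, List.not_mem_nil, or_false] at hi
    rcases hi with rfl | rfl | rfl | rfl | rfl | rfl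
    · refine ⟨fun _ => ?_, fun h => by omega⟩
      have := n (a := app Q (.nil △ .nil)) (le_trans h2 (sup_app_ge _ _).1) R
      simp only [W, f] at *; omega
    · refine ⟨fun _ => ?_, fun h => by omega⟩
      have := n h2 (.nil △ R); have := g .nil R
      simp only [W, f] at *; omega
    · refine ⟨fun _ => ?_, fun h => by omega⟩
      have := n h2 .nil; have := g R (Q △ .nil)
      simp only [W, f] at *; omega
    · refine ⟨fun h => by omega, fun _ => ?_⟩
      have h3 : 2 ≤ (OddHC.cont (app .nil (.nil △ Q))).sup := by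
        refine le_trans ?_ (sup_app_ge _ _).2
        rw [cont_node, Multiset.sup_add]
        exact le_trans h2 le_sup_right
      have h4 := n h3 .nil
      change nc S + 1 ≤ nc (app S (app .nil (.nil △ Q) △ .nil))
      rw [nc_app]
      omega
    · refine ⟨fun h => by omega, fun _ => ?_⟩
      have := n h2 (S △ .nil); have := g S .nil
      simp only [W, f] at *; omega
    · refine ⟨fun h => by omega, fun _ => ?_⟩
      have := n h2 .nil; have := g .nil (Q △ .nil)
      simp only [W, f] at *; omega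

theorem nc_leaf (X : BinaryTree Unit) : nc (.nil △ X) = nc X := by
  unfold nc
  rw [cont_node, cont_nil, n3_add, n3_raise_zero, zero_add]

theorem nc_hv {t : BinaryTree Unit} (h : hv t) : nc t = Multiset.card (OddHC.cont t) := by
  unfold nc n3
  rw [Multiset.countP_eq_card]
  exact HM.cont_of_hv h

theorem nc_gR {k q : ℕ} {B1 H s B : BinaryTree Unit} (h : NodeG k q B1 H s B) :
    nc (gR B1 H s B) = nc B1 + (nc H + nc s + nc B) := by
  have h3 := h.hs3
  rw [OddHC.ht_eq] at h3
  unfold gR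
  rw [nc_app, nc_node3 (le_trans h3 (sup_app_ge _ _).2), nc_app]

variable {k : ℕ} {q : ℕ} {B1 H s B : BinaryTree Unit}

/-- the windows of which a word has one part `≥ 3` -/
theorem A_one (h : NodeG k q B1 H s B) {i : ℕ} (hi : i < 20)
    (hn : nc (W (gR B1 H s B) (ch (q + 1)) B (Tsq.sq (gR B1 H s B)).1 i) ≤ 1) :
    B1 = .nil ∧ B = .nil ∧ (∃ p, s = ch (p + 3)) ∧ i ≠ 0 ∧ i ≠ 10 ∧
      (q = 0 ∨ (q = 1 ∧ i ∈ [1, 2, 3, 7, 8, 9, 11, 12, 14, 17, 18, 19])) := by
  have hcont := h.dat.cont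
  have e1 : nc B + nc (Tsq.sq (gR B1 H s B)).1 = nc (gR B1 H s B) := by
    unfold nc
    rw [← n3_add, hcont]
  have e2 := nc_gR h
  have s1 : 1 ≤ nc s := by
    rw [nc_hv h.hs]
    exact Multiset.card_pos.2 (fun e => h.s0 (cont_eq_zero.1 e))
  obtain ⟨w1, w2⟩ := nc_W (gR B1 H s B) (ch (q + 1)) B (Tsq.sq (gR B1 H s B)).1 hi
  have hle : nc (gR B1 H s B) + nc (ch (q + 1)) ≤ 1 := by
    rcases Nat.lt_or_ge i 10 with h1 | h1
    · have := w1 h1; omega
    · have := w2 h1; omega
  have z1 : B1 = .nil := by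
    have : nc B1 = 0 := by omega
    rw [nc_hv h.h1] at this
    exact cont_eq_zero.1 (Multiset.card_eq_zero.1 this)
  have z2 : B = .nil := by
    have : nc B = 0 := by omega
    rw [nc_hv h.hB] at this
    exact cont_eq_zero.1 (Multiset.card_eq_zero.1 this)
  have z3 : ∃ p, s = ch (p + 3) := by
    have : nc s = 1 := by omega
    rw [nc_hv h.hs] at this
    obtain ⟨x, hx⟩ := Multiset.card_eq_one.1 this
    have hx3 : 3 ≤ x := HM.cont_of_hv h.hs x (by rw [hx]; exact Multiset.mem_singleton_self x)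
    refine ⟨x - 3, ?_⟩
    obtain ⟨y, rfl⟩ : ∃ y, x = y + 1 := ⟨x - 1, by omega⟩
    rw [show y + 1 - 3 + 3 = y + 1 by omega]
    exact cont_one y hx
  have hq : q ≤ 1 := by
    by_contra hq
    have : nc (ch (q + 1)) = 1 := by
      unfold nc
      rw [ch_cont, n3_single, if_pos (by omega)]
    omega
  have sQ : (OddHC.cont (ch (q + 1))).sup = q + 1 := by rw [ch_cont, Multiset.sup_singleton]
  subst z2
  have key : ¬ ((i = 0 ∨ i = 10) ∨ (2 ≤ (OddHC.cont (ch (q + 1))).sup ∧ i ∈ [4, 5, 6, 13, 15, 16])) := by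
    intro h0
    obtain ⟨v1, v2⟩ := nc_W2 (R := gR B1 H s .nil) (S := (Tsq.sq (gR B1 H s .nil)).1) (by rw [sQ]; omega) h0
    rw [nc_nil] at e1
    rcases Nat.lt_or_ge i 10 with h1 | h1
    · have := v1 h1; omega
    · have := v2 h1; omega
  rw [sQ] at key
  push Not at key
  refine ⟨z1, rfl, z3, key.1.1, key.1.2, ?_⟩
  rcases Nat.eq_zero_or_pos q with h0 | h0
  · exact Or.inl h0
  · right
    refine ⟨by omega, ?_⟩
    have h5 := key.2 (by omega)
    have h6 := key.1
    simp only [List.mem_cons, List.not_mem_nil, or_false] at h5 ⊢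
    omega

theorem nc_RH {n : ℕ} (hn : 1 ≤ n) (Φ : ZMod (2 * n + 1) → ℕ) : nc (L1.RH n Φ) ≤ 1 := by
  unfold nc
  rw [L1.cont_RH hn, n3_add, n3_add, n3_single, n3_single]
  have : n3 (Multiset.replicate (∑ x, Φ x) 2) = 0 := by
    unfold n3
    rw [Multiset.countP_eq_zero]
    intro a ha
    rw [Multiset.eq_of_mem_replicate ha]
    omega
  rw [this]
  split_ifs <;> omega

/-- the inner words of L1 have at most one part `≥ 3` -/
theorem nc_LWd {n : ℕ} (hn : 1 ≤ n) (Φ : ZMod (2 * n + 1) → ℕ) {i : ℕ} (hi : i ∈ [1, 3, 6, 8]) :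
    nc (L1.LWd n Φ i) ≤ 1 := by
  have h1 := nc_RH hn Φ
  have h3 : 3 ≤ (OddHC.cont (L1.RH n Φ)).sup := by
    rw [← OddHC.ht_eq, L1.ht_RH hn]
    omega
  unfold L1.LWd
  simp only [List.mem_cons, List.not_mem_nil, or_false] at hi
  rcases hi with rfl | rfl | rfl | rfl
  · change nc (app (L1.RH n Φ) (.nil △ app .nil (.nil △ .nil))) ≤ 1
    rw [nc_app, nc_leaf, nc_app, nc_nil, nc_leaf, nc_nil]
    omega
  · change nc (app (L1.RH n Φ) (.nil △ .nil) △ .nil) ≤ 1
    rw [nc_node3 (le_trans h3 (sup_app_ge _ _).1), nc_app, nc_leaf, nc_nil]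
    omega
  · change nc (L1.RH n Φ △ (.nil △ .nil)) ≤ 1
    rw [nc_node3 h3, nc_leaf, nc_nil]
    omega
  · change nc (app .nil (.nil △ (L1.RH n Φ △ .nil))) ≤ 1
    rw [nc_app, nc_nil, nc_leaf, nc_node3 h3, nc_nil]
    omega

end H1

open L1 Ft

/-- the profile of an inner word of L1 is no word of a window A -/
theorem Ft.Pf.no_A {w : BinaryTree Unit} {α β e v : ℕ} {P TF FF : List ℕ} (h : Pf w α β e P v TF FF)
    (hn : H1.nc w ≤ 1) {k q : ℕ} {B1 H s B : BinaryTree Unit} (hk : 12 ≤ k) (h' : H1.NodeG k q B1 H s B)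
    {i : ℕ} (hi : i < 20) : w ≠ H1.W (H1.gR B1 H s B) (H1.ch (q + 1)) B (Tsq.sq (H1.gR B1 H s B)).1 i := by
  rintro rfl
  obtain ⟨rfl, rfl, ⟨p, rfl⟩, h0, h10, hq⟩ := H1.A_one h' hi hn
  have eR : H1.gR .nil H (H1.ch (p + 3)) .nil = app H (H1.ch (p + 3)) △ .nil := rfl
  have hsize := h'.size
  rw [eR] at h hsize
  rw [J.sq_one h'.light p] at h
  obtain ⟨r1, r2⟩ := R_facts h'.light p
  obtain ⟨s1, s2⟩ := S_facts h'.light p
  have hT : (∀ g ∈ ps (tA (app H (H1.ch (p + 3)) △ .nil) ((app H (H1.ch (p + 2)) △ .nil) △ .nil) i),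
      HB (wd (rd (tA (app H (H1.ch (p + 3)) △ .nil) ((app H (H1.ch (p + 2)) △ .nil) △ .nil) i))) g ∧
        g + (if i < 10 then 5 else 4) ≤
          ln (tA (app H (H1.ch (p + 3)) △ .nil) ((app H (H1.ch (p + 2)) △ .nil) △ .nil) i)) ∨
      4 ≤ (ps (tA (app H (H1.ch (p + 3)) △ .nil) ((app H (H1.ch (p + 2)) △ .nil) △ .nil) i)).length := by
    unfold tA
    by_cases h1 : i < 10
    · simp only [if_pos h1]
      exact Or.inl r2
    · simp only [if_neg h1]
      rcases s2 with s2 | ⟨rfl, s2⟩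
      · exact Or.inl s2
      · right
        rw [s2]
        have e5 : (app H (H1.ch (0 + 3)) △ (.nil : BinaryTree Unit)).numNodes = H.numNodes + 3 + 1 := by
          change (app H (H1.ch 3)).numNodes + 0 + 1 = _
          rw [num_app]
          rfl
        rcases hq with rfl | ⟨rfl, _⟩
        · omega
        · omega
  rcases hq with rfl | ⟨rfl, hq⟩
  · have hA := AW_0 r1 s1 hi h0 h10
    exact Nu.no0 hi h0 h10 (h.nu hA hT)
  · have hA := AW_1 r1 s1 hq
    exact Nu.no1 hq (h.nu hA hT)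

variable {k : ℕ} {F F' : Set (Cyc k)} {g g' : DG k}

/-- **I-L1-A** -/
theorem TyL1.inner_A (hk : 12 ≤ k) (h : TyL1 F g) (h' : TyA F' g') :
    ∀ p ∈ g.arcs, ∀ w ∈ innA p, w ∉ g'.B := by
  intro p hp w hw hw'
  obtain ⟨q, B1, H, s, B, w0, h1, -, rfl⟩ := h'
  obtain ⟨j, hj, e2⟩ := mem_gad20.1 hw'
  have e3 : w.1 = H1.W (H1.gR B1 H s B) (H1.ch (q + 1)) B (Tsq.sq (H1.gR B1 H s B)).1 j := by
    rw [← e2, h1.word w0 hj]
  obtain ⟨n, Φ, m, d1, d2, d3⟩ := L1.inner_L1 h
  obtain ⟨i, x, hi, hx, e⟩ := d3 p hp w hw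
  obtain ⟨e', a, b, h4⟩ := (d1.ld (by omega) d2).ip hi hx
  have hc : OddHC.cont (TT x).1 = OddHC.cont x.1 := (cont_same ⟨1, by simp⟩).symm
  have hn : H1.nc (TT x).1 ≤ 1 := by
    unfold H1.nc
    rw [hc, hx]
    exact H1.nc_LWd d1.hn Φ hi
  cases m
  · have e4 : w = TT x := e
    obtain ⟨P, v, TF, FF, h5⟩ := h4.pf.1
    rw [← e4] at h5 hn
    exact h5.no_A hn hk h1 hj e3
  · have e4 : Tsq.mirX w = TT x := e
    have e5 : w.1 = Tsq.mir (TT x).1 := by
      rw [← e4]
      exact (Tsq.mir_mir _).symm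
    obtain ⟨P, v, TF, FF, h5⟩ := h4.pf.2
    rw [← e5] at h5
    have hn' : H1.nc w.1 ≤ 1 := by
      unfold H1.nc at hn ⊢
      rw [e5, HM.cont_mir]
      exact hn
    exact h5.no_A hn' hk h1 hj e3

end Pool.OddHC
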