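import Pool.Agent.Work.MP_8f87b2_h10.AWt

/-!
# MP_8f87b2_co: an inner word of L1 against the words of the windows A with one soliton, `q ≤ 1`: the numerical part

`Ft.HB`: a bead which is followed by `1` and not by `100` unless a `0` is before it. `Ft.Pf`: the profile of the inner words of L1
and of their mirror images. `Ft.Pf.no`: such a word is no word of `AW_0`, `AW_1`, if all beads of `t` are `HB`.
-/

set_option autoImplicit false

namespace Pool.OddHC

open Finset Equiv BinaryTree Pool.Agent.Work.MP_8f87b2_co

namespace Ft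

/-- a bead followed by `1`, and not by `100` unless a `0` is before it -/
def HB (L : List Bool) (g : ℕ) : Prop :=
  L[g]? = some true ∧ (L[g + 1]? = some true ∨ L[g + 2]? = some true ∨ (1 ≤ g ∧ L[g - 1]? = some false))

/-- the four shapes: length, beads, the visible bead, positions of letters `1` and `0` -/
def Sh (α β e M : ℕ) (P : List ℕ) (v : ℕ) (TF FF : List ℕ) : Prop :=
  (M = α + 1 + β ∧ P = [β - e, β, β] ∧ v = β ∧ TF = [β - 1] ∧ FF = [β, β + 1]) ∨
  (∃ δ ≤ 2, M = α + β + 3 ∧ P = [β - e, β + δ] ∧ v = β + δ ∧ TF = [β - 1, β] ∧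
    FF = [β + 1, β + 2, β + 3]) ∨
  (M = α + 1 + β ∧ P = [α + 1, α + 1, α + 1 + e] ∧ v = α + 1 ∧ TF = [α - 1, α] ∧ FF = [α + 1]) ∨
  (∃ δ ≤ 2, M = α + β + 3 ∧ P = [α + 3 - δ, α + 3 + e] ∧ v = α + 3 - δ ∧ TF = [α - 1, α, α + 1] ∧
    FF = [α + 2, α + 3])

/-- the profile of an inner word of L1, right or mirrored -/
structure Pf (w : BinaryTree Unit) (α β e : ℕ) (P : List ℕ) (v : ℕ) (TF FF : List ℕ) : Prop where
  ha : 1 ≤ α
  he : (e = 1 ∧ 3 ≤ β) ∨ (e = 3 ∧ 5 ≤ β)
  sh : Sh α β e (ln w) P v TF FF
  hp : ps w = P
  hv : ¬ HB (wd (rd w)) v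
  tf : ∀ x ∈ TF, (wd (rd w))[x]? = some true
  ff : ∀ x ∈ FF, (wd (rd w))[x]? = some false

theorem IPr.ab {w : BinaryTree Unit} {N e : ℕ} {a b : List Bool} (h : IPr w N e a b) :
    ∃ a1 b1, a = true :: a1 ∧ b = b1 ++ [false] := by
  obtain ⟨r, h1, h2⟩ := h.fm
  obtain ⟨f1, f2, f3⟩ := FM.facts h1
  have ha := h.a1
  have hb : b ≠ [] := by
    rintro rfl
    simp at f3
    omega
  obtain ⟨b1, y, rfl⟩ : ∃ b1 y, b = b1 ++ [y] := ⟨b.dropLast, b.getLast hb, (List.dropLast_append_getLast hb).symm⟩
  have g2 := f2 b1.length
  rw [List.take_append_of_le_length le_rfl, List.take_length] at g2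
  cases a with
  | nil => simp at ha
  | cons x a1 =>
    have g1 := f1 1
    refine ⟨a1, b1, ?_, ?_⟩
    · cases x
      · simp at g1
      · rfl
    · cases y
      · rfl
      · simp at f3
        omega

/-- the visible bead is not `HB` -/
theorem not_HB1 {L : List Bool} {v : ℕ} (h : L[v]? = some false) : ¬ HB L v := by
  rintro ⟨h1, _⟩
  rw [h] at h1
  cases h1

theorem not_HB2 {L : List Bool} {v : ℕ} (h1 : L[v + 1]? = some false) (h2 : L[v + 2]? = some false)
    (h3 : L[v - 1]? = some true) : ¬ HB L v := by
  rintro ⟨_, h | h | ⟨_, h⟩⟩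
  · rw [h1] at h; cases h
  · rw [h2] at h; cases h
  · rw [h3] at h; cases h

theorem IPr.pf {w : BinaryTree Unit} {N e : ℕ} {a b : List Bool} (h : IPr w N e a b) :
    (∃ P v TF FF, Pf w a.length b.length e P v TF FF) ∧
      ∃ P v TF FF, Pf (Tsq.mir w) a.length b.length e P v TF FF := by
  have ha := h.a1
  have he := h.he
  have hlen := h.len
  obtain ⟨a1, b1, e1, e2⟩ := h.ab
  have la : a.length = a1.length + 1 := by rw [e1]; simp
  have lb : b.length = b1.length + 1 := by rw [e2]; simp
  rcases h.sh with ⟨s1, s2, s3⟩ | ⟨δ, hδ, s1, s2, s3⟩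
  · constructor
    · have w1 : wd (rd w) = b1.map not ++ true :: false :: false :: a1.map not := by
        rw [s1, e1, e2]; simp
      have q0 : (wd (rd w))[b.length - 1]? = some true := by
        rw [w1, lb]; simp
      have q1 : (wd (rd w))[b.length]? = some false := by
        rw [w1, lb, List.getElem?_append_right (by simp)]; simp
      have q2 : (wd (rd w))[b.length + 1]? = some false := by
        rw [w1, lb, List.getElem?_append_right (by simp; omega), List.length_map,
          show b1.length + 1 + 1 - b1.length = 2 by omega]; rfl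
      refine ⟨_, _, _, _, ⟨ha, he, Or.inl ⟨by omega, rfl, rfl, rfl, rfl⟩, s3, not_HB1 q1, ?_, ?_⟩⟩
      · intro x hx
        simp only [List.mem_cons, List.not_mem_nil, or_false] at hx
        rw [hx]; exact q0
      · intro x hx
        simp only [List.mem_cons, List.not_mem_nil, or_false] at hx
        rcases hx with rfl | rfl
        · exact q1
        · exact q2
    · have w1 : wd (rd (Tsq.mir w)) = a1.reverse ++ true :: true :: false :: b1.reverse := by
        rw [rd_mir, Tsq.wd_mir, s1, e1, e2]
        simp [Function.comp_def]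
      have q0 : (wd (rd (Tsq.mir w)))[a.length - 1]? = some true := by
        rw [w1, la]; simp
      have q1 : (wd (rd (Tsq.mir w)))[a.length]? = some true := by
        rw [w1, la, List.getElem?_append_right (by simp)]; simp
      have q2 : (wd (rd (Tsq.mir w)))[a.length + 1]? = some false := by
        rw [w1, la, List.getElem?_append_right (by simp; omega), List.length_reverse,
          show a1.length + 1 + 1 - a1.length = 2 by omega]; rfl
      refine ⟨_, _, _, _, ⟨ha, he, Or.inr (Or.inr (Or.inl ⟨by rw [ln_mir]; omega, rfl, rfl, rfl, rfl⟩)), ?_,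
        not_HB1 q2, ?_, ?_⟩⟩
      · rw [ps_mir, s3, s2]
        simp only [List.reverse_cons, List.reverse_nil, List.nil_append, List.cons_append, List.map_cons, List.map_nil]
        rw [show N - b.length = a.length + 1 by omega, show N - (b.length - e) = a.length + 1 + e by omega]
      · intro x hx
        simp only [List.mem_cons, List.not_mem_nil, or_false] at hx
        rcases hx with rfl | rfl
        · exact q0
        · exact q1
      · intro x hx
        simp only [List.mem_cons, List.not_mem_nil, or_false] at hx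
        rw [hx]; exact q2
  · constructor
    · have w1 : wd (rd w) = b1.map not ++ true :: true :: false :: false :: false :: a1.map not := by
        rw [s1, e1, e2]; simp
      have q0 : (wd (rd w))[b.length - 1]? = some true := by
        rw [w1, lb]; simp
      have q1 : (wd (rd w))[b.length]? = some true := by
        rw [w1, lb, List.getElem?_append_right (by simp)]; simp
      have q2 : (wd (rd w))[b.length + 1]? = some false := by
        rw [w1, lb, List.getElem?_append_right (by simp; omega), List.length_map,
          show b1.length + 1 + 1 - b1.length = 2 by omega]; rfl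
      have q3 : (wd (rd w))[b.length + 2]? = some false := by
        rw [w1, lb, List.getElem?_append_right (by simp; omega), List.length_map,
          show b1.length + 1 + 2 - b1.length = 3 by omega]; rfl
      have q4 : (wd (rd w))[b.length + 3]? = some false := by
        rw [w1, lb, List.getElem?_append_right (by simp; omega), List.length_map,
          show b1.length + 1 + 3 - b1.length = 4 by omega]; rfl
      refine ⟨_, _, _, _, ⟨ha, he, Or.inr (Or.inl ⟨δ, hδ, by omega, rfl, rfl, rfl, rfl⟩), s3, ?_, ?_, ?_⟩⟩
      · interval_cases δ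
        · exact not_HB2 q2 q3 q0
        · exact not_HB1 q2
        · exact not_HB1 q3
      · intro x hx
        simp only [List.mem_cons, List.not_mem_nil, or_false] at hx
        rcases hx with rfl | rfl
        · exact q0
        · exact q1
      · intro x hx
        simp only [List.mem_cons, List.not_mem_nil, or_false] at hx
        rcases hx with rfl | rfl | rfl
        · exact q2
        · exact q3
        · exact q4
    · have w1 : wd (rd (Tsq.mir w)) = a1.reverse ++ true :: true :: true :: false :: false :: b1.reverse := by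
        rw [rd_mir, Tsq.wd_mir, s1, e1, e2]
        simp [Function.comp_def]
      have q0 : (wd (rd (Tsq.mir w)))[a.length - 1]? = some true := by
        rw [w1, la]; simp
      have q1 : (wd (rd (Tsq.mir w)))[a.length]? = some true := by
        rw [w1, la, List.getElem?_append_right (by simp)]; simp
      have q2 : (wd (rd (Tsq.mir w)))[a.length + 1]? = some true := by
        rw [w1, la, List.getElem?_append_right (by simp; omega), List.length_reverse,
          show a1.length + 1 + 1 - a1.length = 2 by omega]; rfl
      have q3 : (wd (rd (Tsq.mir w)))[a.length + 2]? = some false := by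
        rw [w1, la, List.getElem?_append_right (by simp; omega), List.length_reverse,
          show a1.length + 1 + 2 - a1.length = 3 by omega]; rfl
      have q4 : (wd (rd (Tsq.mir w)))[a.length + 3]? = some false := by
        rw [w1, la, List.getElem?_append_right (by simp; omega), List.length_reverse,
          show a1.length + 1 + 3 - a1.length = 4 by omega]; rfl
      refine ⟨_, _, _, _, ⟨ha, he, Or.inr (Or.inr (Or.inr ⟨δ, hδ, by rw [ln_mir]; omega, rfl, rfl, rfl, rfl⟩)), ?_,
        ?_, ?_, ?_⟩⟩
      · rw [ps_mir, s3, s2]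
        simp only [List.reverse_cons, List.reverse_nil, List.nil_append, List.cons_append, List.map_cons, List.map_nil]
        rw [show N + 2 - (b.length + δ) = a.length + 3 - δ by omega,
          show N + 2 - (b.length - e) = a.length + 3 + e by omega]
      · interval_cases δ
        · exact not_HB1 q4
        · exact not_HB1 q3
        · exact not_HB2 q3 q4 q1
      · intro x hx
        simp only [List.mem_cons, List.not_mem_nil, or_false] at hx
        rcases hx with rfl | rfl | rfl
        · exact q0
        · exact q1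
        · exact q2
      · intro x hx
        simp only [List.mem_cons, List.not_mem_nil, or_false] at hx
        rcases hx with rfl | rfl
        · exact q3
        · exact q4

/-! ### Letters of `U ++ (T ++ V)` -/

theorem get_U {U T V : List Bool} {j : ℕ} {c : Bool} (h : U[j]? = some c) : (U ++ (T ++ V))[j]? = some c := by
  have hj : j < U.length := by
    by_contra h1
    rw [List.getElem?_eq_none (by omega)] at h
    cases h
  rw [List.getElem?_append_left hj, h]

theorem get_T {U T V : List Bool} {j : ℕ} {c : Bool} (h : T[j]? = some c) :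
    (U ++ (T ++ V))[j + U.length]? = some c := by
  have hj : j < T.length := by
    by_contra h1
    rw [List.getElem?_eq_none (by omega)] at h
    cases h
  rw [List.getElem?_append_right (by omega), Nat.add_sub_cancel, List.getElem?_append_left hj, h]

theorem get_V {U T V : List Bool} {j : ℕ} {c : Bool} (h : V[j]? = some c) :
    (U ++ (T ++ V))[U.length + T.length + j]? = some c := by
  rw [List.getElem?_append_right (by omega), List.getElem?_append_right (by omega), ← h]
  congr 1
  omega

theorem HB.up {U T V : List Bool} {g : ℕ} (h : HB T g) : HB (U ++ (T ++ V)) (g + U.length) := by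
  obtain ⟨h1, h2⟩ := h
  refine ⟨get_T h1, ?_⟩
  rcases h2 with h2 | h2 | ⟨h3, h2⟩
  · left
    rw [show g + U.length + 1 = g + 1 + U.length by omega]
    exact get_T h2
  · right; left
    rw [show g + U.length + 2 = g + 2 + U.length by omega]
    exact get_T h2
  · right; right
    refine ⟨by omega, ?_⟩
    rw [show g + U.length - 1 = g - 1 + U.length by omega]
    exact get_T h2

/-- the numerical data of a coincidence -/
structure Nu (U V : List Bool) (A C : List ℕ) (N c : ℕ) (α β e : ℕ) (P : List ℕ) (v : ℕ) (TF FF : List ℕ)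
    (l : List ℕ) : Prop where
  ha : 1 ≤ α
  he : (e = 1 ∧ 3 ≤ β) ∨ (e = 3 ∧ 5 ≤ β)
  sh : Sh α β e (U.length + (N + V.length)) P v TF FF
  hp : P = A ++ (l.map (· + U.length) ++ C)
  hl : ∀ g ∈ l, g + U.length ≠ v ∧ g + c ≤ N
  ut : ∀ j, U[j]? = some true → j ∉ FF
  uf : ∀ j, U[j]? = some false → j ∉ TF
  vt : ∀ j, V[j]? = some true → U.length + N + j ∉ FF
  vf : ∀ j, V[j]? = some false → U.length + N + j ∉ TF

theorem Pf.nu {w t : BinaryTree Unit} {U V : List Bool} {A C : List ℕ} {α β e v c : ℕ} {P TF FF : List ℕ}
    (h : Pf w α β e P v TF FF) (h' : AW w t U V A C)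
    (ht : (∀ g ∈ ps t, HB (wd (rd t)) g ∧ g + c ≤ ln t) ∨ 4 ≤ (ps t).length) :
    Nu U V A C (ln t) c α β e P v TF FF (ps t) := by
  have hT : (wd (rd t)).length = ln t := wd_rd t
  have hsh := h.sh
  rw [h'.ln] at hsh
  have hp : P = A ++ ((ps t).map (· + U.length) ++ C) := h.hp.symm.trans h'.hp
  have tf := h.tf
  have ff := h.ff
  rw [h'.hw] at tf ff
  have ne : ∀ {x : ℕ}, (U ++ (wd (rd t) ++ V))[x]? = some true → (U ++ (wd (rd t) ++ V))[x]? = some false → False := by
    intro x h1 h2
    rw [h1] at h2
    cases h2
  refine ⟨h.ha, h.he, hsh, hp, ?_, ?_, ?_, ?_, ?_⟩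
  · intro g hg
    rcases ht with ht | ht
    · obtain ⟨h1, h2⟩ := ht g hg
      refine ⟨?_, h2⟩
      intro e0
      apply h.hv
      rw [h'.hw, ← e0]
      exact h1.up
    · exfalso
      have h3 : P.length = A.length + ((ps t).length + C.length) := by
        rw [hp]; simp
      rcases hsh with ⟨_, h4, _⟩ | ⟨δ, _, _, h4, _⟩ | ⟨_, h4, _⟩ | ⟨δ, _, _, h4, _⟩ <;> rw [h4] at h3 <;>
        simp at h3 <;> omega
  · intro j hj hF
    exact ne (get_U hj) (ff j hF)
  · intro j hj hF
    exact ne (tf j hF) (get_U hj)
  · intro j hj hF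
    have := ff _ hF
    rw [← hT] at this
    exact ne (get_V hj) this
  · intro j hj hF
    have := tf _ hF
    rw [← hT] at this
    exact ne this (get_V hj)

theorem Nu.no0 {N α β e v i : ℕ} {P TF FF l : List ℕ} (hi : i < 20) (h0 : i ≠ 0) (h10 : i ≠ 10)
    (h : Nu (T0 N i).1.1 (T0 N i).1.2 (T0 N i).2.1 (T0 N i).2.2 N (if i < 10 then 5 else 4) α β e P v TF FF l) :
    False := by
  obtain ⟨ha, he, hs, hp, hl, ut, uf, vt, vf⟩ := h
  have u0 := ut 0
  have u1 := ut 1
  have x0 := uf 0
  have x1 := uf 1
  have x2 := uf 2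
  have v0 := vt 0
  have v1 := vt 1
  have y0 := vf 0
  have y1 := vf 1
  have y2 := vf 2
  clear ut uf vt vf
  interval_cases i
  all_goals first | exact absurd rfl h0 | exact absurd rfl h10 | skip
  all_goals
    simp only [T0] at hs hp hl u0 u1 x0 x1 x2 v0 v1 y0 y1 y2
    rcases hs with ⟨h1, h2, h3, h4, h5⟩ | ⟨δ, hδ, h1, h2, h3, h4, h5⟩ | ⟨h1, h2, h3, h4, h5⟩ |
      ⟨δ, hδ, h1, h2, h3, h4, h5⟩ <;>
    · rw [h2] at hp
      rw [h4] at x0 x1 x2 y0 y1 y2
      rw [h5] at u0 u1 v0 v1
      rw [h3] at hl
      clear h2 h3 h4 h5 h0 h10 hi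
      rcases l with _ | ⟨g1, _ | ⟨g2, _ | ⟨g3, l⟩⟩⟩ <;> simp at hp hl h1 u0 u1 x0 x1 x2 v0 v1 y0 y1 y2 <;>
        omega

end Ft

end Pool.OddHC
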