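import Pool.Agent.Work.MP_8f87b2_h10.L1In

/-!
# MP_8f87b2_co: reduced words and beads of the words of the windows A with one soliton and `q ≤ 1`
-/

set_option autoImplicit false

namespace Pool.OddHC

open Finset Equiv BinaryTree Pool.Agent.Work.MP_8f87b2_co

namespace Ft

/-- `w` = letters `U`, the word `t`, letters `V`; beads `A` before, `C` after -/
structure AW (w t : BinaryTree Unit) (U V : List Bool) (A C : List ℕ) : Prop where
  hw : wd (rd w) = U ++ (wd (rd t) ++ V)
  hp : ps w = A ++ ((ps t).map (· + U.length) ++ C)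

theorem AW.ln {w t : BinaryTree Unit} {U V : List Bool} {A C : List ℕ} (h : AW w t U V A C) :
    ln w = U.length + (ln t + V.length) := by
  have := congrArg List.length h.hw
  rw [wd_rd, List.length_append, List.length_append, wd_rd] at this
  exact this

/-- the letters and beads around `t`, `q = 0` -/
def T0 (N : ℕ) : ℕ → (List Bool × List Bool) × (List ℕ × List ℕ)
  | 1 => (([], []), ([], [N, N, N]))
  | 2 => (([], []), ([0], [N, N]))
  | 3 => (([true], [false]), ([], [N + 1, N + 1]))
  | 4 => (([true, false], []), ([1], []))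
  | 5 => (([true, false], []), ([2], []))
  | 6 => (([true], [false, true, false]), ([], []))
  | 7 => (([true], [false]), ([0, 1], []))
  | 8 => (([true], [false]), ([0, 0], []))
  | 9 => (([true, true], [false, false]), ([], [N + 4]))
  | 11 => (([], []), ([0, 0, 0], []))
  | 12 => (([true], [false]), ([], [N + 2, N + 2]))
  | 13 => (([], [true, false]), ([], [N + 1]))
  | 14 => (([true], [false]), ([1, 1], []))
  | 15 => (([true, false, true], [false]), ([], []))
  | 16 => (([], [true, false]), ([], [N]))
  | 17 => (([true, true], [false, false]), ([0], []))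
  | 18 => (([], []), ([0, 0], [N]))
  | _ => (([true], [false]), ([], [N + 1, N + 2]))

/-- `q = 1` -/
def T1 (N : ℕ) : ℕ → (List Bool × List Bool) × (List ℕ × List ℕ)
  | 1 => (([], [true, false]), ([], [N, N + 2]))
  | 2 => (([], [true, false]), ([0], [N]))
  | 3 => (([true], [true, false, false]), ([], [N + 1]))
  | 7 => (([true, false, true], [false]), ([3], []))
  | 8 => (([true, false, true], [false]), ([2], []))
  | 9 => (([true, true], [false, false, true, false]), ([], []))
  | 11 => (([true, false], []), ([0, 2], []))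
  | 12 => (([true], [false, true, false]), ([], [N + 2]))
  | 14 => (([true, true, false], [false]), ([3], []))
  | 17 => (([true, false, true, true], [false, false]), ([], []))
  | 18 => (([true, false], []), ([2], [N + 2]))
  | _ => (([true], [false, true, false]), ([], [N + 1]))

/-- the tree in the word number `i` -/
def tA (R S : BinaryTree Unit) (i : ℕ) : BinaryTree Unit := if i < 10 then R else S

theorem AW_0 {R S : BinaryTree Unit} (hR : 0 < ln R) (hS : 0 < ln S) {i : ℕ} (hi : i < 20) (h0 : i ≠ 0)
    (h10 : i ≠ 10) : AW (H1.W R (.nil △ .nil) .nil S i) (tA R S i) (T0 (ln (tA R S i)) i).1.1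
      (T0 (ln (tA R S i)) i).1.2 (T0 (ln (tA R S i)) i).2.1 (T0 (ln (tA R S i)) i).2.2 := by
  have hRn : R ≠ .nil := by rintro rfl; exact absurd hR (by simp [ln_nil])
  have hSn : S ≠ .nil := by rintro rfl; exact absurd hS (by simp [ln_nil])
  have l0 : ln (.nil △ .nil) = 0 := rfl
  have w0 : wd (.nil : BinaryTree Unit) = [] := rfl
  have rd0 : ∀ X, rd ((.nil △ .nil) △ X) = .nil △ rd X := fun X => by rw [rd_node (by simp)]; rfl
  have rd1 : ∀ X, rd ((.nil △ (.nil △ .nil)) △ X) = .nil △ rd X := fun X => by
    rw [rd_node (by simp)]; rfl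
  have lb0 : ∀ X, ln ((.nil △ .nil) △ X) = ln X + 2 := by
    intro X
    rw [ln_node (by simp), l0]
    omega
  have pb0 : ∀ X, ps ((.nil △ .nil) △ X) = (ps X).map (· + 2) := by
    intro X
    rw [ps_node' (by simp), l0]
    rfl
  have pb1 : ∀ X, ps ((.nil △ (.nil △ .nil)) △ X) = 1 :: (ps X).map (· + 2) := by
    intro X
    rw [ps_node' (by simp)]
    rfl
  have nR := fun X => ln_node' hR X
  have mR := fun X => ps_node hR X
  have nS := fun X => ln_node' hS X
  have mS := fun X => ps_node hS X
  have qR := fun X => rd_node hRn X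
  have qS := fun X => rd_node hSn X
  have a1 : ∀ X, 0 < ln (app R X) := by intro X; rw [ln_app]; omega
  have a2 : ∀ X, 0 < ln (S △ X) := by intro X; rw [nS]; omega
  have a3 : ∀ X, 0 < ln (app S X) := by intro X; rw [ln_app]; omega
  have a4 : ∀ X, 0 < ln (R △ X) := by intro X; rw [nR]; omega
  have a5 : 0 < ln (.nil △ R) := by rw [ln_leaf]; exact hR
  have a6 : 0 < ln (.nil △ S) := by rw [ln_leaf]; exact hS
  have a7 : 0 < ln (.nil △ (.nil △ S)) := by rw [ln_leaf]; exact a6
  have ne : ∀ {t : BinaryTree Unit}, 0 < ln t → t ≠ .nil := by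
    rintro t h rfl
    exact absurd h (by simp [ln_nil])
  have b0 : ln (.nil : BinaryTree Unit) = 0 := rfl
  have c0 : ps (.nil : BinaryTree Unit) = [] := rfl
  interval_cases i
  all_goals first | exact absurd rfl h0 | exact absurd rfl h10 | skip
  all_goals
    refine ⟨?_, ?_⟩
    · simp only [H1.W, tA, T0, app, H1.app_nil, rd_leaf, rd_app, rd0, rd1, qR, qS, rd_nil, wd_app, wd_node, w0,
        rd_node (ne (a1 _)), rd_node (ne (a2 _)), rd_node (ne (a3 _)), rd_node (ne (a4 _)),
        rd_node (ne a5), rd_node (ne a6), rd_node (ne a7), if_true, if_false]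
      simp
    · simp only [H1.W, tA, T0, app, H1.app_nil, ln_leaf, ps_leaf, ln_app, ps_app, lb0, pb0, pb1, nR, mR, nS, mS,
        ln_node' (a1 _), ps_node (a1 _), ln_node' (a2 _), ps_node (a2 _), ln_node' (a3 _), ps_node (a3 _),
        ln_node' (a4 _), ps_node (a4 _), ln_node' a5, ps_node a5, ln_node' a6, ps_node a6,
        ln_node' a7, ps_node a7, b0, c0,
        List.map_nil, List.map_cons, List.append_nil, List.nil_append, List.map_append, map_add_add,
        Nat.zero_add, Nat.add_zero, List.cons_append, List.append_assoc]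
      try simp [Function.comp_def]
      try omega

theorem AW_1 {R S : BinaryTree Unit} (hR : 0 < ln R) (hS : 0 < ln S) {i : ℕ}
    (hi : i ∈ [1, 2, 3, 7, 8, 9, 11, 12, 14, 17, 18, 19]) :
    AW (H1.W R ((.nil △ .nil) △ .nil) .nil S i) (tA R S i) (T1 (ln (tA R S i)) i).1.1
      (T1 (ln (tA R S i)) i).1.2 (T1 (ln (tA R S i)) i).2.1 (T1 (ln (tA R S i)) i).2.2 := by
  have hRn : R ≠ .nil := by rintro rfl; exact absurd hR (by simp [ln_nil])
  have hSn : S ≠ .nil := by rintro rfl; exact absurd hS (by simp [ln_nil])
  have l0 : ln (.nil △ .nil) = 0 := rfl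
  have w0 : wd (.nil : BinaryTree Unit) = [] := rfl
  have rd0 : ∀ X, rd ((.nil △ .nil) △ X) = .nil △ rd X := fun X => by rw [rd_node (by simp)]; rfl
  have lb0 : ∀ X, ln ((.nil △ .nil) △ X) = ln X + 2 := by
    intro X
    rw [ln_node (by simp), l0]
    omega
  have pb0 : ∀ X, ps ((.nil △ .nil) △ X) = (ps X).map (· + 2) := by
    intro X
    rw [ps_node' (by simp), l0]
    rfl
  have nR := fun X => ln_node' hR X
  have mR := fun X => ps_node hR X
  have nS := fun X => ln_node' hS X
  have mS := fun X => ps_node hS X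
  have qR := fun X => rd_node hRn X
  have qS := fun X => rd_node hSn X
  have a1 : ∀ X, 0 < ln (app R X) := by intro X; rw [ln_app]; omega
  have a2 : ∀ X, 0 < ln (S △ X) := by intro X; rw [nS]; omega
  have a3 : ∀ X, 0 < ln (app S X) := by intro X; rw [ln_app]; omega
  have a4 : ∀ X, 0 < ln (R △ X) := by intro X; rw [nR]; omega
  have a5 : 0 < ln (.nil △ R) := by rw [ln_leaf]; exact hR
  have a6 : 0 < ln (.nil △ S) := by rw [ln_leaf]; exact hS
  have a7 : 0 < ln ((.nil △ .nil) △ (.nil △ S)) := by rw [lb0]; omega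
  have ne : ∀ {t : BinaryTree Unit}, 0 < ln t → t ≠ .nil := by
    rintro t h rfl
    exact absurd h (by simp [ln_nil])
  have b0 : ln (.nil : BinaryTree Unit) = 0 := rfl
  have c0 : ps (.nil : BinaryTree Unit) = [] := rfl
  simp only [List.mem_cons, List.not_mem_nil, or_false] at hi
  rcases hi with rfl | rfl | rfl | rfl | rfl | rfl | rfl | rfl | rfl | rfl | rfl | rfl
  all_goals
    refine ⟨?_, ?_⟩
    · simp only [H1.W, tA, T1, app, H1.app_nil, rd_leaf, rd_app, rd0, qR, qS, rd_nil, wd_app, wd_node, w0,
        rd_node (ne (a1 _)), rd_node (ne (a2 _)), rd_node (ne (a3 _)), rd_node (ne (a4 _)),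
        rd_node (ne a5), rd_node (ne a6), rd_node (ne a7), if_true, if_false]
      simp
    · simp only [H1.W, tA, T1, app, H1.app_nil, ln_leaf, ps_leaf, ln_app, ps_app, lb0, pb0, nR, mR, nS, mS,
        ln_node' (a1 _), ps_node (a1 _), ln_node' (a2 _), ps_node (a2 _), ln_node' (a3 _), ps_node (a3 _),
        ln_node' (a4 _), ps_node (a4 _), ln_node' a5, ps_node a5, ln_node' a6, ps_node a6,
        ln_node' a7, ps_node a7, b0, c0,
        List.map_nil, List.map_cons, List.append_nil, List.nil_append, List.map_append, map_add_add,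
        Nat.zero_add, Nat.add_zero, List.cons_append, List.append_assoc]
      try simp [Function.comp_def]
      try omega

end Ft

end Pool.OddHC
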