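import Pool.Agent.Work.MP_8f87b2_h10.LAn
import Pool.Agent.Work.MP_8f87b2_h11.RHd
import Pool.Agent.Work.MP_8f87b2_h58.Late2

/-!
# MP_8f87b2_co: the windows `R = B1 (()^m (())^a s) B`: first maximum and beads
-/

set_option autoImplicit false

namespace Pool.OddHC

open Finset Equiv BinaryTree Pool.Agent.Work.MP_8f87b2_co

namespace Ft

variable {k : ℕ}

theorem ht_rd_le {t : BinaryTree Unit} : Tsq.ht (rd t) + 1 ≤ max (Tsq.ht t) 1 := by
  induction t with
  | nil => rw [rd_nil]; simp [Tsq.ht]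
  | node u A B ihA ihB =>
    change Tsq.ht (rd (A △ B)) + 1 ≤ max (Tsq.ht (A △ B)) 1
    by_cases hA : A = .nil
    · subst hA
      rw [rd_leaf, Tsq.ht_node]
      omega
    · rw [rd_node hA, Tsq.ht_node, Tsq.ht_node]
      have h1 : 1 ≤ Tsq.ht A := by
        cases A with
        | nil => exact absurd rfl hA
        | node _ C D => change 1 ≤ Tsq.ht (C △ D); rw [Tsq.ht_node]; omega
      omega

theorem rd_lv (m : ℕ) (X : BinaryTree Unit) : rd (lv m X) = rd X ∧ ln (lv m X) = ln X ∧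
    ps (lv m X) = List.replicate m 0 ++ ps X := by
  induction m with
  | zero => exact ⟨rfl, rfl, rfl⟩
  | succ m ih =>
    change rd (.nil △ lv m X) = _ ∧ ln (.nil △ lv m X) = _ ∧ ps (.nil △ lv m X) = _
    rw [rd_leaf, ln_leaf, ps_leaf, ih.1, ih.2.1, ih.2.2]
    exact ⟨rfl, rfl, rfl⟩

/-- `a` letters `10` -/
def zz : ℕ → List Bool
  | 0 => []
  | a + 1 => true :: false :: zz a

theorem zz_len (a : ℕ) : (zz a).length = 2 * a := by
  induction a with
  | zero => rfl
  | succ a ih => rw [zz, List.length_cons, List.length_cons, ih]; omega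

theorem rd_lv2 (a : ℕ) (X : BinaryTree Unit) : wd (rd (lv2 a X)) = zz a ++ wd (rd X) ∧
    ln (lv2 a X) = ln X + 2 * a ∧ ps (lv2 a X) = (ps X).map (· + 2 * a) := by
  induction a with
  | zero => exact ⟨rfl, rfl, by simp [lv2]⟩
  | succ a ih =>
    change wd (rd ((.nil △ .nil) △ lv2 a X)) = _ ∧ ln ((.nil △ .nil) △ lv2 a X) = _ ∧
      ps ((.nil △ .nil) △ lv2 a X) = _
    refine ⟨?_, ?_, ?_⟩
    · rw [rd_node (by simp)]
      change true :: (false :: wd (rd (lv2 a X))) = _
      rw [ih.1]; rfl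
    · rw [ln_node (by simp), ih.2.1]
      change 0 + _ + 2 = _
      omega
    · rw [ps_node' (by simp), ih.2.2]
      change [] ++ List.map (· + (0 + 2)) _ = _
      rw [List.nil_append, List.map_map]
      apply List.map_congr_left
      intro y _
      simp only [Function.comp]
      omega

theorem app_lv' (m : ℕ) (X Y : BinaryTree Unit) : app (lv m X) Y = lv m (app X Y) := by
  induction m with
  | zero => rfl
  | succ m ih => change .nil △ app (lv m X) Y = _; rw [ih]; rfl

theorem app_lv2' (a : ℕ) (X Y : BinaryTree Unit) : app (lv2 a X) Y = lv2 a (app X Y) := by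
  induction a with
  | zero => rfl
  | succ a ih => change (.nil △ .nil) △ app (lv2 a X) Y = _; rw [ih]; rfl

/-- **the first maximum and the beads of `R`** -/
theorem G_facts {q m a : ℕ} {B1 s B : BinaryTree Unit} (h : H1.NodeG k q B1 (lv m (lv2 a .nil)) s B) :
    ∃ as bs : List Bool, H1.FM (rd s) as bs ∧ 1 ≤ as.length ∧
      H1.FM (rd (H1.gR B1 (lv m (lv2 a .nil)) s B)) (wd (rd B1) ++ true :: (zz a ++ as))
        (bs ++ false :: wd (rd B)) ∧
      q + 2 ≤ Tsq.ht (rd (H1.gR B1 (lv m (lv2 a .nil)) s B)) ∧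
      3 ≤ (bs ++ false :: wd (rd B)).length ∧
      ln (H1.gR B1 (lv m (lv2 a .nil)) s B) = ln B1 + (2 * a + ln s + 2 + ln B) ∧
      ps (H1.gR B1 (lv m (lv2 a .nil)) s B) = List.replicate m (ln B1 + 1) := by
  have hs3 : 3 ≤ Tsq.ht s := H1.hv_ht h.hs h.s0
  have hlow : Tsq.ht B1 < Tsq.ht s + 1 := by rw [H1.ht_eq, H1.ht_eq]; exact h.low
  have htop : Tsq.ht B ≤ Tsq.ht s + 1 := by rw [H1.ht_eq, H1.ht_eq]; exact h.top
  have hbig : q + 3 ≤ Tsq.ht s + 1 := by rw [H1.ht_eq]; exact h.big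
  have g1 := ht_rd_ge s
  have g2 := ht_rd_le (t := B1)
  have g3 := ht_rd_le (t := B)
  have hne : rd s ≠ .nil := by
    intro e
    rw [e] at g1
    simp [Tsq.ht] at g1
    omega
  obtain ⟨as, bs, hF⟩ := FM_ex hne
  have hH2 : wd (rd (lv m (lv2 a (.nil : BinaryTree Unit)))) = zz a := by
    rw [(rd_lv m _).1, (rd_lv2 a _).1]
    simp [rd_nil, wd]
  have hH : Tsq.ht (rd (lv m (lv2 a (.nil : BinaryTree Unit)))) ≤ 1 := by
    have := ht_rd_le (t := lv m (lv2 a (.nil : BinaryTree Unit)))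
    have h2 := H1.bl_ht h.light
    omega
  have hA := hF.app_left (P := rd (lv m (lv2 a .nil))) (by omega)
  rw [hH2] at hA
  have hAh : Tsq.ht (app (rd (lv m (lv2 a (.nil : BinaryTree Unit)))) (rd s)) = Tsq.ht (rd s) := by
    rw [Tsq.ht_app]; omega
  have hN := hA.node (Z := rd B) (by rw [hAh]; omega)
  have hR := hN.app_left (P := rd B1) (by rw [Tsq.ht_node, hAh]; omega)
  have es : app (lv m (lv2 a (.nil : BinaryTree Unit))) s = lv m (lv2 a s) := by
    rw [app_lv', app_lv2']; rfl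
  have ls : 0 < ln s := by
    have := ln_ge_ht s
    omega
  have l1 : ln (app (lv m (lv2 a (.nil : BinaryTree Unit))) s) = 2 * a + ln s := by
    rw [es, (rd_lv m _).2.1, (rd_lv2 a _).2.1]; omega
  have l0 : 0 < ln (app (lv m (lv2 a (.nil : BinaryTree Unit))) s) := by omega
  have n0 : app (lv m (lv2 a (.nil : BinaryTree Unit))) s ≠ .nil := by
    rintro e; rw [e] at l0; exact absurd l0 (by simp [ln_nil])
  have z : ∀ {t : BinaryTree Unit}, H1.hv t → ps t = [] := by
    intro t ht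
    have := H1.hv_no1 ht
    rw [← ps_length] at this
    exact List.eq_nil_of_length_eq_zero this
  have eR : rd (H1.gR B1 (lv m (lv2 a .nil)) s B) =
      app (rd B1) ((app (rd (lv m (lv2 a .nil))) (rd s)) △ rd B) := by
    unfold H1.gR
    rw [rd_app, rd_node n0, rd_app]
  have hRh : Tsq.ht (rd s) + 1 ≤ Tsq.ht (rd (H1.gR B1 (lv m (lv2 a .nil)) s B)) := by
    rw [eR, Tsq.ht_app, Tsq.ht_node, hAh]
    omega
  rw [← eR] at hR
  refine ⟨as, bs, hF, ?_, ?_, by omega, ?_, ?_, ?_⟩
  · have h3 := hF.top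
    have h4 : as.count true ≤ as.length := List.count_le_length
    omega
  · simpa using hR
  · have h3 := (FM.facts hR).2.2
    have h4 : (bs ++ false :: wd (rd B)).count false ≤ (bs ++ false :: wd (rd B)).length :=
      List.count_le_length
    omega
  · unfold H1.gR
    rw [ln_app, ln_node' l0, l1]
    omega
  · unfold H1.gR
    rw [ps_app, ps_node l0, z h.h1, z h.hB, es, (rd_lv m _).2.2, (rd_lv2 a _).2.2, z h.hs]
    simp
    right
    omega

end Ft

end Pool.OddHC
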