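import Pool.Agent.Work.MP_8f87b2_h10.AL

/-!
# MP_8f87b2_co: the inner words of the windows A: reduced words and beads
-/

set_option autoImplicit false

namespace Pool.OddHC

open Finset Equiv BinaryTree Pool.Agent.Work.MP_8f87b2_co

namespace Ft

variable {k : ℕ}

/-- the beads of `[q + 1]` -/
def pQ (q : ℕ) : List ℕ := if q = 0 then [0] else []

theorem Q_facts (q : ℕ) : rd (H1.ch (q + 1)) = H1.ch q ∧ ps (H1.ch (q + 1)) = pQ q ∧ ln (H1.ch (q + 1)) = 2 * q := by
  rcases Nat.eq_zero_or_pos q with h | h
  · subst h
    exact ⟨rfl, rfl, rfl⟩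
  · obtain ⟨h1, h2, h3⟩ := ch_facts q h
    refine ⟨h1, ?_, h3⟩
    rw [h2, pQ, if_neg (by omega)]

/-- number of letters of the inner word number `i` -/
def AM (N q : ℕ) : ℕ → ℕ
  | 0 => N + 2 * q + 4
  | 1 => N + 2 * q
  | 3 => N + 2 * q + 2
  | 6 => N + 2 * q + 4
  | 8 => N + 2 * q + 2
  | _ => N + 2 * q + 4

/-- structural beads -/
def AS (β q : ℕ) : ℕ → List ℕ
  | 0 => []
  | 1 => β :: ((pQ q).map (· + β) ++ [β + 2 * q])
  | 3 => β :: (pQ q).map (· + β)
  | 6 => []
  | 8 => (pQ q).map (· + (β + 2)) ++ [β + 2 + 2 * q]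
  | _ => (pQ q).map (· + (β + 2))

/-- letters before and after -/
def aP (q : ℕ) : ℕ → List Bool
  | 0 => []
  | 1 => []
  | 3 => [true]
  | 6 => [true]
  | 8 => wd (H1.ch q) ++ [true]
  | _ => [true, true]

def bP (q : ℕ) : ℕ → List Bool
  | 0 => wd (H1.ch (q + 2))
  | 1 => wd (H1.ch q)
  | 3 => wd (H1.ch q) ++ [false]
  | 6 => false :: wd (H1.ch (q + 1))
  | 8 => [false]
  | _ => false :: false :: wd (H1.ch q)

theorem wd_ch_len (n : ℕ) : (wd (H1.ch n)).length = 2 * n := by
  rw [H1.wd_ch, List.length_append, List.length_replicate, List.length_replicate]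
  omega

/-- **the inner words of a window**: reduced word and beads -/
theorem AIn {R B S : BinaryTree Unit} {a b : List Bool} {q m g i : ℕ} (hF : H1.FM (rd R) a b)
    (hq : q + 2 ≤ Tsq.ht (rd R)) (h0 : 0 < ln R) (hp : ps R = List.replicate m g)
    (hg : m = 0 ∨ g ≤ a.length) (hi : i ∈ [0, 1, 3, 6, 8, 9]) {x : X k}
    (hx : x.1 = H1.W R (H1.ch (q + 1)) B S i) :
    wd (rd (TT x).1) = (b ++ bP q i).map not ++ false :: (aP q i ++ a).map not ∧
      ln (TT x).1 = AM (ln R) q i ∧
      ps (TT x).1 = AS b.length q i ++ List.replicate m (AM (ln R) q i - (a.length - g)) := by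
  have hlen := FM_len hF
  have hR : R ≠ .nil := by rintro rfl; exact absurd h0 (by simp [ln_nil])
  obtain ⟨q1, q2, q3⟩ := Q_facts q
  obtain ⟨q4, q5, q6⟩ := ch_facts (q + 1) (by omega)
  obtain ⟨q7, q8, q9⟩ := ch_facts (q + 2) (by omega)
  have hQ : H1.ch (q + 1) ≠ .nil := by change H1.ch q △ .nil ≠ _; simp
  have t0 : ∀ n, Tsq.ht (H1.ch n) = n := J.ht_chn
  have e5 : H1.ch (q + 1) △ .nil = H1.ch (q + 2) := rfl
  have e6 : H1.ch (q + 2) △ .nil = H1.ch (q + 3) := rfl
  have hP0 : ∀ c, ∀ p ∈ (List.replicate m g).map (· + c), p ≤ a.length + c := by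
    intro c p hp
    obtain ⟨y, hy, rfl⟩ := List.mem_map.1 hp
    rw [List.eq_of_mem_replicate hy]
    rcases hg with h | h
    · subst h; simp at hy
    · omega
  have fin : ∀ c A, A = a.length + c → ((List.replicate m g).map (· + c)).map (· + (ln x.1 - A)) =
      List.replicate m (ln x.1 - (a.length - g)) ∨ ln x.1 < A := by
    intro c A hA
    by_cases h : ln x.1 < A
    · exact Or.inr h
    · left
      rw [List.map_map, List.map_replicate]
      rcases hg with h1 | h1
      · subst h1; rfl
      · congr 1
        simp only [Function.comp]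
        omega
  simp only [List.mem_cons, List.not_mem_nil, or_false] at hi
  rcases hi with rfl | rfl | rfl | rfl | rfl | rfl
  · -- i = 0
    have x1 : x.1 = app R (H1.ch (q + 3)) := hx
    have hf : H1.FM (rd x.1) a (b ++ wd (H1.ch (q + 2))) := by
      rw [x1, rd_app, q7]
      exact hF.app_right (by rw [t0]; omega)
    have hl : ln x.1 = AM (ln R) q 0 := by rw [x1, ln_app, q9]; simp only [AM]; omega
    have hps : ps x.1 = (List.replicate m g).map (· + 0) ++ [] := by
      rw [x1, ps_app, q8, hp]; simp
    obtain ⟨r1, r2, r3⟩ := T_ps x hf hps (hP0 0) (by simp)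
    refine ⟨?_, r2.trans hl, ?_⟩
    · rw [r1]; rfl
    · rw [r3]
      rcases fin 0 a.length rfl with h | h
      · rw [h, hl]; rfl
      · rw [hl] at h; simp only [AM] at h; omega
  · -- i = 1
    have x1 : x.1 = app R (.nil △ app (H1.ch (q + 1)) (.nil △ .nil)) := hx
    have hf : H1.FM (rd x.1) a (b ++ wd (H1.ch q)) := by
      rw [x1, rd_app, rd_leaf, rd_app, q1]
      have : app (H1.ch q) (rd (.nil △ .nil)) = H1.ch q := H1.app_nil _
      rw [this]
      exact hF.app_right (by rw [t0]; omega)
    have hl : ln x.1 = AM (ln R) q 1 := by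
      rw [x1, ln_app, ln_leaf, ln_app, q3]; change ln R + (2 * q + 0) = ln R + 2 * q; omega
    have hps : ps x.1 = (List.replicate m g).map (· + 0) ++
        (ln R :: ((pQ q).map (· + ln R) ++ [2 * q + ln R])) := by
      rw [x1, ps_app, ps_leaf, ps_app, q2, q3, hp]
      change _ ++ List.map _ (0 :: (pQ q ++ List.map _ [0])) = _
      simp
    obtain ⟨r1, r2, r3⟩ := T_ps x hf hps (hP0 0) (by
      intro p hp'
      simp only [List.mem_cons, List.mem_append, List.mem_map, List.not_mem_nil, or_false] at hp'
      rcases hp' with rfl | ⟨y, _, rfl⟩ | rfl <;> omega)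
    refine ⟨?_, r2.trans hl, ?_⟩
    · rw [r1]; rfl
    · rw [r3]
      rcases fin 0 a.length rfl with h | h
      · rw [h, hl]
        congr 1
        simp only [AS, List.map_cons, List.map_append, List.map_map, List.map_nil]
        rw [show ln R - (a.length + 1) = b.length by omega,
          show 2 * q + ln R - (a.length + 1) = b.length + 2 * q by omega]
        congr 2
        apply List.map_congr_left
        intro y _
        simp only [Function.comp]
        omega
      · rw [hl] at h; simp only [AM] at h; omega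
  · -- i = 3
    have x1 : x.1 = app R (.nil △ H1.ch (q + 1)) △ .nil := hx
    have hn : 0 < ln (app R (.nil △ H1.ch (q + 1))) := by rw [ln_app]; omega
    have hnn : app R (.nil △ H1.ch (q + 1)) ≠ .nil := by
      rintro e; rw [e] at hn; exact absurd hn (by simp [ln_nil])
    have hf : H1.FM (rd x.1) (true :: a) ((b ++ wd (H1.ch q)) ++ false :: wd .nil) := by
      rw [x1, rd_node hnn, rd_app, rd_leaf, q1, rd_nil]
      exact (hF.app_right (by rw [t0]; omega)).node (by simp [Tsq.ht])
    have hl : ln x.1 = AM (ln R) q 3 := by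
      rw [x1, ln_node' hn, ln_app, ln_leaf, q3, ln_nil]; rfl
    have hps : ps x.1 = (List.replicate m g).map (· + 1) ++
        ((ln R + 1) :: (pQ q).map (· + (ln R + 1))) := by
      rw [x1, ps_node hn, ps_app, ps_leaf, q2, hp, ps_nil]
      simp [Function.comp_def, Nat.add_assoc]
    obtain ⟨r1, r2, r3⟩ := T_ps x hf hps (fun p hp' => by
      have := hP0 1 p hp'; rw [List.length_cons]; omega) (by
      intro p hp'
      rw [List.length_cons]
      simp only [List.mem_cons, List.mem_map] at hp'
      rcases hp' with rfl | ⟨y, _, rfl⟩ <;> omega)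
    refine ⟨?_, r2.trans hl, ?_⟩
    · rw [r1]; simp [aP, bP, wd]
    · rw [r3]
      rcases fin 1 (true :: a).length (by rw [List.length_cons]) with h | h
      · rw [h, hl]
        congr 1
        simp only [AS, List.map_cons, List.map_map, List.length_cons]
        rw [show ln R + 1 - (a.length + 1 + 1) = b.length by omega]
        congr 1
        apply List.map_congr_left
        intro y _
        simp only [Function.comp]
        omega
      · rw [hl, List.length_cons] at h; simp only [AM] at h; omega
  · -- i = 6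
    have x1 : x.1 = R △ H1.ch (q + 2) := hx
    have hf : H1.FM (rd x.1) (true :: a) (b ++ false :: wd (H1.ch (q + 1))) := by
      rw [x1, rd_node hR, q4]
      exact hF.node (by rw [t0]; omega)
    have hl : ln x.1 = AM (ln R) q 6 := by
      rw [x1, ln_node' h0, q6]; simp only [AM]; omega
    have hps : ps x.1 = (List.replicate m g).map (· + 1) ++ [] := by
      rw [x1, ps_node h0, q5, hp]; rfl
    obtain ⟨r1, r2, r3⟩ := T_ps x hf hps (fun p hp' => by
      have := hP0 1 p hp'; rw [List.length_cons]; omega) (by simp)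
    refine ⟨?_, r2.trans hl, ?_⟩
    · rw [r1]; rfl
    · rw [r3]
      rcases fin 1 (true :: a).length (by rw [List.length_cons]) with h | h
      · rw [h, hl]; rfl
      · rw [hl, List.length_cons] at h; simp only [AM] at h; omega
  · -- i = 8
    have x1 : x.1 = app (H1.ch (q + 1)) (.nil △ (R △ .nil)) := hx
    have hf : H1.FM (rd x.1) (wd (H1.ch q) ++ true :: a) (b ++ false :: wd .nil) := by
      rw [x1, rd_app, rd_leaf, q1, rd_node hR, rd_nil]
      have h1 := hF.node (Z := .nil) (by simp [Tsq.ht])
      refine h1.app_left ?_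
      rw [t0, Tsq.ht_node]
      omega
    have hl : ln x.1 = AM (ln R) q 8 := by
      rw [x1, ln_app, ln_leaf, q3, ln_node' h0, ln_nil]; simp only [AM]; omega
    have hA : (wd (H1.ch q) ++ true :: a).length = a.length + (2 * q + 1) := by
      rw [List.length_append, wd_ch_len, List.length_cons]; omega
    have hps : ps x.1 = (pQ q ++ 2 * q :: (List.replicate m g).map (· + (2 * q + 1))) ++ [] := by
      rw [x1, ps_app, ps_leaf, q2, q3, ps_node h0, hp, ps_nil]
      simp
      right
      omega
    obtain ⟨r1, r2, r3⟩ := T_ps x hf hps (fun p hp' => by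
      rw [hA]
      simp only [List.mem_append, List.mem_cons] at hp'
      rcases hp' with hp' | rfl | hp'
      · unfold pQ at hp'
        split_ifs at hp'
        · simp at hp'; omega
        · simp at hp'
      · omega
      · exact hP0 _ p hp') (by simp)
    refine ⟨?_, r2.trans hl, ?_⟩
    · rw [r1]; simp [aP, bP, wd]
    · rw [r3]
      rcases fin (2 * q + 1) _ hA with h | h
      · rw [List.map_append, List.map_cons, h, hl, hA]
        simp only [AS, AM, List.map_nil, List.nil_append]
        rw [show ln R + 2 * q + 2 - (a.length + (2 * q + 1)) = b.length + 2 by omega,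
          show 2 * q + (b.length + 2) = b.length + 2 + 2 * q by omega]
        simp
      · rw [hl, hA] at h; simp only [AM] at h; omega
  · -- i = 9
    have x1 : x.1 = (R △ .nil) △ H1.ch (q + 1) := hx
    have h1' : 0 < ln (R △ .nil) := by rw [ln_node' h0]; omega
    have hnn : R △ .nil ≠ .nil := by simp
    have hf : H1.FM (rd x.1) (true :: true :: a) ((b ++ false :: wd .nil) ++ false :: wd (H1.ch q)) := by
      rw [x1, rd_node hnn, rd_node hR, rd_nil, q1]
      have h1 := hF.node (Z := .nil) (by simp [Tsq.ht])
      exact h1.node (by rw [t0, Tsq.ht_node]; omega)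
    have hl : ln x.1 = AM (ln R) q 9 := by
      rw [x1, ln_node' h1', ln_node' h0, ln_nil, q3]; simp only [AM]; omega
    have hps : ps x.1 = (List.replicate m g).map (· + 2) ++ (pQ q).map (· + (ln R + 4)) := by
      rw [x1, ps_node h1', ps_node h0, ln_node' h0, hp, ps_nil, ln_nil, q2]
      simp [Function.comp_def]
    obtain ⟨r1, r2, r3⟩ := T_ps x hf hps (fun p hp' => by
      have := hP0 2 p hp'; rw [List.length_cons, List.length_cons]; omega) (by
      intro p hp'
      rw [List.length_cons, List.length_cons]
      simp only [List.mem_map] at hp'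
      rcases hp' with ⟨y, _, rfl⟩
      omega)
    refine ⟨?_, r2.trans hl, ?_⟩
    · rw [r1]; simp [aP, bP, wd]
    · rw [r3]
      rcases fin 2 (true :: true :: a).length (by rw [List.length_cons, List.length_cons]) with h | h
      · rw [h, hl]
        congr 1
        simp only [AS, List.map_map, List.length_cons]
        apply List.map_congr_left
        intro y _
        simp only [Function.comp]
        omega
      · rw [hl, List.length_cons, List.length_cons] at h; simp only [AM] at h; omega

end Ft

end Pool.OddHC
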