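import Pool.Agent.Work.MP_8f87b2_h10.LAx
import Pool.Agent.Work.MP_8f87b2_h60.InRT

/-!
# MP_8f87b2_co: row I-Ap-L1: no inner word of a window `TyAp` is a word of L1 (`14 ≤ k`)
-/

set_option autoImplicit false

namespace Pool.OddHC

open Finset Equiv BinaryTree Pool.Agent.Work.MP_8f87b2_co

namespace Ft

variable {k : ℕ}

/-! ### Letters of the words of L1 -/

theorem last_split {A : BinaryTree Unit} : ∀ {R : BinaryTree Unit} {L : List (BinaryTree Unit)},
    comps R = L ++ [A] → ∃ P, R = app P (A △ .nil) := by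
  intro R
  induction R with
  | nil => intro L h; simp [comps] at h
  | node u X Y _ ih =>
    intro L h
    cases L with
    | nil =>
      change X :: comps Y = [A] at h
      rw [List.cons.injEq] at h
      obtain ⟨rfl, h2⟩ := h
      have h3 : Y = .nil := by
        cases Y with
        | nil => rfl
        | node _ _ _ => simp [comps] at h2
      subst h3
      exact ⟨.nil, rfl⟩
    | cons Z L =>
      change X :: comps Y = Z :: (L ++ [A]) at h
      rw [List.cons.injEq] at h
      obtain ⟨P, hP⟩ := ih h.2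
      refine ⟨X △ P, ?_⟩
      rw [hP]
      rfl

theorem wd_ht1 : ∀ {t : BinaryTree Unit}, Tsq.ht t ≤ 1 → wd t = zz t.numNodes := by
  intro t
  induction t with
  | nil => intro _; rfl
  | node u A B _ ihB =>
    intro h
    change Tsq.ht (A △ B) ≤ 1 at h
    rw [Tsq.ht_node] at h
    have hA : A = .nil := by
      cases A with
      | nil => rfl
      | node v C D =>
        have h2 : Tsq.ht (BinaryTree.node v C D) = max (Tsq.ht C + 1) (Tsq.ht D) := Tsq.ht_node C D
        omega
    subst hA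
    have h1 := ihB (by omega)
    change true :: (false :: wd B) = zz (0 + B.numNodes + 1)
    rw [h1, Nat.zero_add]
    rfl

theorem zz_even : ∀ (u j : ℕ), j < u → (zz u)[2 * j]? = some true ∧ (zz u)[2 * j + 1]? = some false := by
  intro u
  induction u with
  | zero => intro j h; omega
  | succ u ih =>
    intro j h
    cases j with
    | zero => exact ⟨rfl, rfl⟩
    | succ j =>
      obtain ⟨h1, h2⟩ := ih j (by omega)
      exact ⟨h1, h2⟩

theorem get_app_l {U V : List Bool} {j : ℕ} {c : Bool} (h : U[j]? = some c) : (U ++ V)[j]? = some c := by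
  have hj : j < U.length := by
    by_contra h1
    rw [List.getElem?_eq_none (by omega)] at h
    cases h
  rw [List.getElem?_append_left hj, h]

theorem get_app_r {U V : List Bool} {j : ℕ} {c : Bool} (h : V[j]? = some c) :
    (U ++ V)[U.length + j]? = some c := by
  rw [List.getElem?_append_right (by omega), Nat.add_sub_cancel_left, h]

/-- the letters around the hidden bead -/
theorem LTX.let2 {R B S : BinaryTree Unit} (h : LTX R B S) :
    (∀ x, x + 1 = ln R → (wd (rd R))[x - 1]? = some true) ∧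
    (∀ y, y + 1 = ln B → 0 < y → (wd (rd B))[y - 1]? = some true ∧ (wd (rd B))[y]? = some false) := by
  constructor
  · intro x hx
    obtain ⟨L, hL⟩ := h.lastR
    obtain ⟨P, rfl⟩ := last_split hL
    have e1 : wd (rd (app P (l2 △ .nil))) = wd (rd P) ++ [true, false] := by
      rw [rd_app, rd_node (by unfold l2; simp), wd_app]
      rfl
    have e2 : ln (app P (l2 △ .nil)) = ln P + 2 := by
      rw [ln_app, ln_node (by unfold l2; simp)]
      rfl
    rw [e1]
    have e3 : x - 1 = (wd (rd P)).length + 0 := by rw [wd_rd]; omega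
    rw [e3]
    exact get_app_r rfl
  · intro y hy hy0
    rw [wd_ht1 h.hBr]
    have e1 := ln_eq B
    obtain ⟨e2, e3⟩ := zz_even (rd B).numNodes ((rd B).numNodes - 1) (by omega)
    rw [show y - 1 = 2 * ((rd B).numNodes - 1) by omega]
    refine ⟨e2, ?_⟩
    rw [show y = 2 * ((rd B).numNodes - 1) + 1 by omega]
    exact e3

/-- the letter before the hidden bead is `1` -/
theorem LTX.let {R B S : BinaryTree Unit} (h : LTX R B S) {x y j : ℕ} (hx : x + 1 = ln R) (hx0 : 0 < x)
    (hy : y + 1 = ln B) (hy0 : 0 < y) (hj : j ∈ [0, 4, 9, 10, 17, 19]) :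
    (wd (rd (H1.W R .nil B S j)))[hbl x y (ln S) j - 1]? = some true := by
  obtain ⟨h1, h2⟩ := h.let2
  have l1 := h1 x hx
  obtain ⟨l2, l3⟩ := h2 y hy hy0
  obtain ⟨hr, hs, hb⟩ := h.toLT.pos
  have hB : B ≠ .nil := by rintro rfl; exact absurd hb (by simp [ln_nil])
  obtain ⟨r0, r1, r3, r4, r6, r8, r9, r10, r13, r17, r19⟩ := rd_W hr hs (Or.inr hb)
  have hsl : (wd (rd S)).length = ln S := wd_rd S
  simp only [List.mem_cons, List.not_mem_nil, or_false] at hj
  rcases hj with rfl | rfl | rfl | rfl | rfl | rfl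
  · rw [r0, wd_app]
    exact get_app_l l1
  · rw [r4]
    change (true :: false :: wd (rd R))[x + 2 - 1]? = _
    rw [show x + 2 - 1 = (x - 1) + 1 + 1 by omega]
    exact l1
  · rw [r9]
    have e : wd ((rd R △ .nil) △ .nil) = [true, true] ++ (wd (rd R) ++ [false, false]) := by simp [wd]
    rw [e]
    change _ = _
    have e2 : hbl x y (ln S) 9 - 1 = [true, true].length + (x - 1) := by
      simp only [hbl, List.length_cons, List.length_nil]; omega
    rw [e2]
    exact get_app_r (get_app_l l1)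
  · rw [r10, wd_app]
    exact get_app_l l2
  · rw [r17]
    have e : wd ((rd S △ rd B) △ .nil) = ([true, true] ++ wd (rd S) ++ [false]) ++ (wd (rd B) ++ [false]) := by
      simp [wd]
    rw [e]
    have e2 : hbl x y (ln S) 17 - 1 = ([true, true] ++ wd (rd S) ++ [false]).length + (y - 1) := by
      simp only [hbl, List.length_append, List.length_cons, List.length_nil, hsl]; omega
    rw [e2]
    exact get_app_r (get_app_l l2)
  · rw [r19 hB]
    have e : wd (app (rd S) (rd B △ .nil) △ .nil) = ([true] ++ wd (rd S) ++ [true]) ++ (wd (rd B) ++ [false, false]) := by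
      simp [wd, wd_app]
    rw [e]
    have e2 : hbl x y (ln S) 19 - 1 = ([true] ++ wd (rd S) ++ [true]).length + (y - 1) := by
      simp only [hbl, List.length_append, List.length_cons, List.length_nil, hsl]; omega
    rw [e2]
    exact get_app_r (get_app_l l2)

/-- mirror: letter before the hidden bead of the word 10 -/
theorem get_mir {L : List Bool} {j : ℕ} {c : Bool} (h : L[j]? = some c) :
    ((L.map not).reverse)[L.length - 1 - j]? = some (!c) := by
  have hj : j < L.length := by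
    by_contra h1
    rw [List.getElem?_eq_none (by omega)] at h
    cases h
  have e1 : ((L.map not).reverse)[(L.map not).length - 1 - j]? = (L.map not)[j]? := by
    rw [List.getElem?_reverse (by rw [List.length_map]; omega)]
    congr 1
    rw [List.length_map]
    omega
  rw [List.length_map] at e1
  rw [e1, List.getElem?_map, h]
  simp

theorem wd_mir' (t : BinaryTree Unit) : wd (Tsq.mir t) = ((wd t).map not).reverse := Tsq.wd_mir t

theorem LTX.letM {R B S : BinaryTree Unit} (h : LTX R B S) {y : ℕ}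
    (hy : y + 1 = ln B) (hy0 : 0 < y) :
    (wd (rd (Tsq.mir (H1.W R .nil B S 10))))[ln (H1.W R .nil B S 10) - y - 1]? = some true := by
  obtain ⟨h1, h2⟩ := h.let2
  obtain ⟨l2, l3⟩ := h2 y hy hy0
  obtain ⟨hr, hs, hb⟩ := h.toLT.pos
  obtain ⟨r0, r1, r3, r4, r6, r8, r9, r10, r13, r17, r19⟩ := rd_W hr hs (Or.inr hb)
  rw [rd_mir, wd_mir']
  have e1 : (wd (rd (H1.W R .nil B S 10)))[y]? = some false := by
    rw [r10, wd_app]
    exact get_app_l l3
  have e2 := get_mir e1
  rw [wd_rd] at e2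
  rw [show ln (H1.W R .nil B S 10) - y - 1 = ln (H1.W R .nil B S 10) - 1 - y by omega]
  exact e2

/-! ### The inner words of the windows -/

/-- the data of an inner word of the window `R = B1 (()^m (())^a s) B` -/
structure AI (w : BinaryTree Unit) (N q i m α β d : ℕ) : Prop where
  hi : i ∈ [0, 1, 3, 6, 8, 9]
  hN : α + 1 + β = N
  hβ : 3 ≤ β
  hd : 1 ≤ d
  hd' : d + 1 ≤ α
  hln : ln w = AM N q i
  hps : ps w = AS β q i ++ List.replicate m (AM N q i - d)
  hlet : (wd (rd w))[AM N q i - d - 1]? = some false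

theorem A_in {q m a i : ℕ} {B1 s B : BinaryTree Unit} (h : H1.NodeG k q B1 (lv m (lv2 a .nil)) s B)
    (hi : i ∈ [0, 1, 3, 6, 8, 9]) {x : X k}
    (hx : x.1 = H1.W (H1.gR B1 (lv m (lv2 a .nil)) s B) (H1.ch (q + 1)) B
      (Tsq.sq (H1.gR B1 (lv m (lv2 a .nil)) s B)).1 i) :
    ∃ as bs : List Bool, H1.FM (rd s) as bs ∧
      AI (TT x).1 (ln (H1.gR B1 (lv m (lv2 a .nil)) s B)) q i m (ln B1 + 1 + 2 * a + as.length)
        (bs.length + 1 + ln B) (2 * a + as.length) := by
  obtain ⟨as, bs, f1, f2, f3, f4, f5, f6, f7⟩ := G_facts h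
  refine ⟨as, bs, f1, ?_⟩
  have hs3 : 3 ≤ Tsq.ht s := H1.hv_ht h.hs h.s0
  have g1 := ht_rd_ge s
  have g2 := ln_ge_ht s
  have la : (wd (rd B1) ++ true :: (zz a ++ as)).length = ln B1 + 1 + 2 * a + as.length := by
    rw [List.length_append, wd_rd, List.length_cons, List.length_append, zz_len]; omega
  have lb : (bs ++ false :: wd (rd B)).length = bs.length + 1 + ln B := by
    rw [List.length_append, List.length_cons, wd_rd]; omega
  have hlen := FM_len f3
  rw [la, lb] at hlen
  rw [lb] at f5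
  obtain ⟨r1, r2, r3⟩ := AIn (B := B) (S := (Tsq.sq (H1.gR B1 (lv m (lv2 a .nil)) s B)).1) f3 f4 (by omega) f7
    (Or.inr (by rw [la]; omega)) hi hx
  rw [la, lb] at r3
  rw [show ln B1 + 1 + 2 * a + as.length - (ln B1 + 1) = 2 * a + as.length by omega] at r3
  refine ⟨hi, hlen, f5, by omega, by omega, r2, r3, ?_⟩
  have e1 : (wd (rd (TT x).1)).length = AM (ln (H1.gR B1 (lv m (lv2 a .nil)) s B)) q i := by
    rw [wd_rd, r2]
  have e2 : wd (rd (TT x).1) = (((bs ++ false :: wd (rd B)) ++ bP q i).map not ++ false :: (aP q i ++ wd (rd B1)).map not) ++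
      (false :: (zz a ++ as).map not) := by
    rw [r1]
    simp
  rw [e2] at e1 ⊢
  have e3 : (false :: (zz a ++ as).map not).length = 2 * a + as.length + 1 := by
    rw [List.length_cons, List.length_map, List.length_append, zz_len]
  rw [List.length_append, e3] at e1
  have e4 : AM (ln (H1.gR B1 (lv m (lv2 a .nil)) s B)) q i - (2 * a + as.length) - 1 =
      (((bs ++ false :: wd (rd B)) ++ bP q i).map not ++ false :: (aP q i ++ wd (rd B1)).map not).length + 0 := by
    omega
  rw [e4]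
  exact get_app_r rfl

/-- one soliton -/
theorem A_in1 {q m a i p : ℕ} (h : H1.NodeG k q .nil (lv m (lv2 a .nil)) (H1.ch (p + 3)) .nil)
    (hi : i ∈ [0, 1, 3, 6, 8, 9]) {x : X k}
    (hx : x.1 = H1.W (H1.gR .nil (lv m (lv2 a .nil)) (H1.ch (p + 3)) .nil) (H1.ch (q + 1)) .nil
      (Tsq.sq (H1.gR .nil (lv m (lv2 a .nil)) (H1.ch (p + 3)) .nil)).1 i) :
    AI (TT x).1 (2 * a + 2 * p + 6) q i m (2 * a + p + 2) (p + 3) (2 * a + p + 1) ∧
      k = m + 2 * a + p + q + 7 := by
  obtain ⟨as, bs, f1, f2⟩ := A_in h hi hx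
  have e1 : rd (H1.ch (p + 3)) = H1.ch (p + 2) := (ch_facts (p + 2) (by omega)).1
  have e2 : H1.FM (H1.ch (p + 2)) (List.replicate (p + 1) true) (List.replicate (p + 2) false) := by
    refine ⟨?_, ?_, ?_⟩
    · rw [H1.wd_ch, List.replicate_succ']
      simp
    · intro n
      rw [J.ht_chn, List.take_replicate, List.count_replicate, List.count_replicate]
      simp
    · rw [J.ht_chn, List.count_replicate, List.count_replicate]
      simp
  rw [e1] at f1
  obtain ⟨e3, e4⟩ := f1.uniq e2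
  have e5 : as.length = p + 1 := by rw [e3, List.length_replicate]
  have e6 : bs.length = p + 2 := by rw [e4, List.length_replicate]
  rw [e5, e6, ln_nil] at f2
  obtain ⟨as', bs', g1, g2, g3, g4, g5, g6, g7⟩ := G_facts h
  have e7 : ln (H1.gR .nil (lv m (lv2 a .nil)) (H1.ch (p + 3)) .nil) = 2 * a + 2 * p + 6 := by
    rw [g6, (ch_facts (p + 2) (by omega)).2.2, ln_nil]
    omega
  rw [e7, show 0 + 1 + 2 * a + (p + 1) = 2 * a + p + 2 by omega,
    show p + 2 + 1 + 0 = p + 3 by omega, show 2 * a + (p + 1) = 2 * a + p + 1 by omega] at f2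
  refine ⟨f2, ?_⟩
  have h1 := h.size
  have n1 : ∀ m (Y : BinaryTree Unit), (lv m Y).numNodes = m + Y.numNodes := by
    intro m Y
    induction m with
    | zero => simp [lv]
    | succ m ih => change 0 + (lv m Y).numNodes + 1 = _; rw [ih]; omega
  have n2 : ∀ m (Y : BinaryTree Unit), (lv2 m Y).numNodes = 2 * m + Y.numNodes := by
    intro m Y
    induction m with
    | zero => simp [lv2]
    | succ m ih => change (0 + 0 + 1) + (lv2 m Y).numNodes + 1 = _; rw [ih]; omega
  have n3 : ∀ n, (H1.ch n).numNodes = n := by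
    intro n
    induction n with
    | zero => rfl
    | succ n ih => change (H1.ch n).numNodes + 0 + 1 = _; rw [ih]
  have h2 : (H1.gR .nil (lv m (lv2 a .nil)) (H1.ch (p + 3)) .nil).numNodes = m + 2 * a + (p + 3) + 1 := by
    change (app (lv m (lv2 a .nil)) (H1.ch (p + 3))).numNodes + 0 + 1 = _
    rw [num_app, n1, n2, n3]
    change m + (2 * a + 0) + (p + 3) + 0 + 1 = _
    omega
  omega

/-- against the words of L1 with `B' ≠ nil` -/
theorem AI.no_LT {w : BinaryTree Unit} {N q i m α β d : ℕ} (h : AI w N q i m α β d) (hm : 1 ≤ m)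
    {R B S : BinaryTree Unit} (h' : LTX R B S) {j : ℕ} (hj : j < 20) (hj5 : j ≠ 5) :
    w ≠ H1.W R .nil B S j ∧ Tsq.mir w ≠ H1.W R .nil B S j := by
  obtain ⟨hr, hs, hb⟩ := h'.toLT.pos
  obtain ⟨x, hx, pR⟩ := h'.pR
  obtain ⟨y, hy, hy0, pB⟩ := h'.pB
  have pS := h'.pS
  have hsum := h'.sum
  have h4 := h'.s4
  obtain ⟨l1, l2⟩ := LN_PP hr hs (Or.inr hb) hj
  rw [pR, pB, pS] at l2
  constructor
  · intro e0
    rw [← e0, h.hln] at l1
    rw [← e0, h.hps] at l2
    refine LTnumR h.hi hj hj5 h.hN h.hβ h.hd h.hd' hm hx hy hy0 h4 hsum l1 l2 ?_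
    intro hj' e1
    have h5 := h'.let hx (by omega) hy hy0 hj'
    rw [← e0, ← e1] at h5
    have h6 := h.hlet
    rw [h5] at h6
    cases h6
  · intro e0
    have e1 : w = Tsq.mir (H1.W R .nil B S j) := by rw [← e0, Tsq.mir_mir]
    have l3 : ln w = LN (ln R) (ln B) (ln S) j := by rw [e1, ln_mir, l1]
    have l4 : ps w = (PP [x] [y] [] (ln R) (ln B) (ln S) j).reverse.map (fun z => LN (ln R) (ln B) (ln S) j - z) := by
      rw [e1, ps_mir, l1, l2]
    rw [h.hln] at l3
    rw [h.hps] at l4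
    refine LTnumM h.hi hj hj5 h.hN h.hβ h.hd h.hd' hm hx hy hy0 h4 hsum l3 l4 ?_
    intro hj' e2
    subst hj'
    have h5 := h'.letM hy hy0
    rw [← e1, l1, ← e2] at h5
    have h6 := h.hlet
    rw [h5] at h6
    cases h6

/-- against the words of L1 with `B' = nil` -/
theorem AI.no_LZ {w : BinaryTree Unit} {q i m a p : ℕ}
    (h : AI w (2 * a + 2 * p + 6) q i m (2 * a + p + 2) (p + 3) (2 * a + p + 1)) (hi0 : i ≠ 0)
    (hk : 14 ≤ m + 2 * a + p + q + 7) (hq : q ≤ 1) (hq6 : q = 1 → i ≠ 6) (hm : 1 ≤ m)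
    {R S : BinaryTree Unit} (h' : LZX R S) {j : ℕ} (hj : j < 20) (hj5 : j ≠ 5) :
    w ≠ H1.W R .nil .nil S j ∧ Tsq.mir w ≠ H1.W R .nil .nil S j := by
  obtain ⟨x, hx, pR⟩ := h'.pR
  obtain ⟨y, hy, pS⟩ := h'.pS
  have h6 := h'.s6
  have hsum := h'.sum
  have b0 : ln (.nil : BinaryTree Unit) = 0 := rfl
  have c0 : ps (.nil : BinaryTree Unit) = [] := rfl
  obtain ⟨l1, l2⟩ := LN_PP (B := .nil) (by omega : 0 < ln R) (by omega : 0 < ln S) (Or.inl rfl) hj
  rw [b0, hsum] at l1
  rw [pR, pS, b0, c0, hsum, show x = ln R - 3 by omega, show y = ln R - 2 by omega] at l2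
  have hi : i ∈ [1, 3, 6, 8, 9] := by
    have := h.hi
    simp only [List.mem_cons, List.not_mem_nil, or_false] at this ⊢
    omega
  constructor
  · intro e0
    rw [← e0, h.hln] at l1
    rw [← e0, h.hps] at l2
    exact LZnumR hi hj hj5 rfl hk hq hq6 hm h6 l1 l2
  · intro e0
    have e1 : w = Tsq.mir (H1.W R .nil .nil S j) := by rw [← e0, Tsq.mir_mir]
    have l3 : ln w = LN (ln R) 0 (ln R) j := by rw [e1, ln_mir, l1]
    have l4 : ps w = (PP [ln R - 3] [] [ln R - 2] (ln R) 0 (ln R) j).reverse.map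
        (fun z => LN (ln R) 0 (ln R) j - z) := by
      rw [e1, ps_mir, l1, l2]
    rw [h.hln] at l3
    rw [h.hps] at l4
    exact LZnumM hi hj hj5 rfl hk hq hq6 hm h6 l3 l4

end Ft

namespace H1

theorem nc_small : nc ((.nil △ .nil) △ .nil) = 0 ∧ nc (.nil △ .nil) = 0 := by
  constructor
  · unfold nc
    rw [cont_node, cont_node, cont_nil, raise_zero, add_zero, add_zero, raise_single, n3_single]
    rfl
  · rw [nc_leaf, nc_nil]

/-- the words of L1 with `B = nil` have at most one part `≥ 3` -/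
theorem nc_WZ {R S : BinaryTree Unit} (hR : 3 ≤ (OddHC.cont R).sup) (hS : 3 ≤ (OddHC.cont S).sup) {j : ℕ}
    (hj : j < 20) : nc (W R .nil .nil S j) = nc R ∨ nc (W R .nil .nil S j) = nc S := by
  have f := nc_app
  have z := nc_nil
  obtain ⟨s1, s2⟩ := nc_small
  have l := nc_leaf
  have n := @nc_node3
  have aR : ∀ X, 3 ≤ (OddHC.cont (app R X)).sup := fun X => le_trans hR (sup_app_ge _ _).1
  have aS : ∀ X, 3 ≤ (OddHC.cont (app S X)).sup := fun X => le_trans hS (sup_app_ge _ _).1
  have bR : 3 ≤ (OddHC.cont (.nil △ R)).sup := le_trans hR (sup_app_ge (.nil △ .nil) R).2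
  have bS : 3 ≤ (OddHC.cont (.nil △ S)).sup := le_trans hS (sup_app_ge (.nil △ .nil) S).2
  have cR : 3 ≤ (OddHC.cont (R △ .nil)).sup := by
    rw [cont_node, Multiset.sup_add, sup_raise]
    exact le_trans (by omega) le_sup_left
  have cS : 3 ≤ (OddHC.cont (S △ .nil)).sup := by
    rw [cont_node, Multiset.sup_add, sup_raise]
    exact le_trans (by omega) le_sup_left
  have two : ∀ X, nc ((.nil △ .nil) △ X) = nc X := by
    intro X
    have e : (.nil △ .nil) △ X = app ((.nil △ .nil) △ .nil) X := rfl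
    rw [e, f, s1, Nat.zero_add]
  interval_cases j
  · left; change nc (app R ((.nil △ .nil) △ .nil)) = _; rw [f, s1]; rfl
  · left; change nc (app R (.nil △ (.nil △ .nil))) = _; rw [f, l, l, z]; rfl
  · left; change nc (.nil △ app R (.nil △ .nil)) = _; rw [l, f, l, z]; rfl
  · left; change nc (app R (.nil △ .nil) △ .nil) = _; rw [n (aR _), f, l, z]; rfl
  · left; change nc ((.nil △ .nil) △ R) = _; rw [two]
  · left; change nc (.nil △ (.nil △ R)) = _; rw [l, l]
  · left; change nc (R △ (.nil △ .nil)) = _; rw [n hR, l, z]; rfl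
  · left; change nc ((.nil △ R) △ .nil) = _; rw [n bR, l, z]; rfl
  · left; change nc (.nil △ (R △ .nil)) = _; rw [l, n hR, z]; rfl
  · left; change nc ((R △ .nil) △ .nil) = _; rw [n cR, n hR, z]; rfl
  · right; change nc ((.nil △ .nil) △ S) = _; rw [two]
  · right; change nc (.nil △ (.nil △ S)) = _; rw [l, l]
  · right; change nc (S △ (.nil △ .nil)) = _; rw [n hS, l, z]; rfl
  · right; change nc (app S ((.nil △ .nil) △ .nil)) = _; rw [f, s1]; rfl
  · right; change nc ((.nil △ S) △ .nil) = _; rw [n bS, l, z]; rfl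
  · right; change nc (.nil △ (S △ .nil)) = _; rw [l, n hS, z]; rfl
  · right; change nc (app S (.nil △ (.nil △ .nil))) = _; rw [f, l, l, z]; rfl
  · right; change nc ((S △ .nil) △ .nil) = _; rw [n cS, n hS, z]; rfl
  · right; change nc (.nil △ app S (.nil △ .nil)) = _; rw [l, f, l, z]; rfl
  · right; change nc (app S (.nil △ .nil) △ .nil) = _; rw [n (aS _), f, l, z]; rfl

end H1

open L1 Ft

variable {k : ℕ} {F F' : Set (Cyc k)} {g g' : DG k}

/-- the words of L1 with `B = nil` -/
theorem L1.Db.ncZ {n : ℕ} {Φ : ZMod (2 * n + 1) → ℕ} (h : Db k n Φ) (hB : (Tsq.sq (RH n Φ)).2 = .nil) {j : ℕ}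
    (hj : j < 20) : H1.nc (LWd n Φ j) ≤ 1 := by
  have hg := GR_RH h.hn Φ h.hk
  have h1 := H1.nc_RH h.hn Φ
  have h3 : 3 ≤ (OddHC.cont (RH n Φ)).sup := by
    rw [← OddHC.ht_eq, ht_RH h.hn]
    have := h.hn
    omega
  have h4 : 3 ≤ (OddHC.cont (Tsq.sq (RH n Φ)).1).sup := by
    rw [← OddHC.ht_eq, hg.htS, ht_RH h.hn]
    have := h.hn
    omega
  have h5 := hg.cont
  have h6 : H1.nc (Tsq.sq (RH n Φ)).1 = H1.nc (RH n Φ) := by
    unfold H1.nc
    rw [← h5, hB]
    change _ = H1.n3 (0 + _)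
    rw [zero_add]
  unfold LWd
  rw [hB]
  rcases H1.nc_WZ h3 h4 hj with h7 | h7 <;> omega

/-- **I-Ap-L1** -/
theorem TyAp.inner_L1 (hk : 14 ≤ k) (h : TyAp F g) (h' : TyL1 F' g') :
    ∀ p ∈ g.arcs, ∀ w ∈ innA p, w ∉ g'.B := by
  intro p hp w hw hw'
  obtain ⟨q, n', a, B1, s, B, w0, i, h1, hn, hi, e1⟩ := h.inn60 p hp
  have hi20 : i < 20 := by
    simp only [List.mem_cons, List.not_mem_nil, or_false] at hi
    omega
  have hw2 : w = TT p.1 := hw
  have hx : p.1.1 = H1.W (H1.gR B1 (lv (n' + 1) (lv2 a .nil)) s B) (H1.ch (q + 1)) B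
      (Tsq.sq (H1.gR B1 (lv (n' + 1) (lv2 a .nil)) s B)).1 i := by
    rw [e1, h1.word w0 hi20]
  obtain ⟨n, Φ, m', d1, d2, d3⟩ := words_L1 h'
  obtain ⟨j, hj, hj5, e2⟩ := d3 w hw'
  obtain ⟨as, bs, f1, f2⟩ := A_in h1 hi hx
  rw [← hw2] at f2
  have key : ∀ v : BinaryTree Unit, v = LWd n Φ j → (w.1 = v ∨ Tsq.mir w.1 = v) → False := by
    intro v hv hwv
    rcases d1.ld (by omega) d2 with hl | ⟨hB, hl⟩
    · obtain ⟨k1, k2⟩ := f2.no_LT (Nat.succ_pos n') hl hj hj5
      rcases hwv with h2 | h2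
      · exact k1 (h2.trans hv)
      · exact k2 (h2.trans hv)
    · have hc : OddHC.cont w.1 = OddHC.cont p.1.1 := by
        rw [hw2]
        exact (cont_same ⟨1, by simp⟩).symm
      have hcv : OddHC.cont w.1 = OddHC.cont v := by
        rcases hwv with h2 | h2
        · rw [h2]
        · rw [← h2, HM.cont_mir]
      have hnc : H1.nc p.1.1 ≤ 1 := by
        have h3 := d1.ncZ hB hj
        rw [← hv] at h3
        unfold H1.nc at h3 ⊢
        rw [← hc, hcv]
        exact h3
      rw [hx] at hnc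
      obtain ⟨rfl, rfl, ⟨p', rfl⟩, h0, h10, hq⟩ := H1.A_one h1 hi20 hnc
      obtain ⟨g1, g2⟩ := A_in1 h1 hi hx
      rw [← hw2] at g1
      have hq1 : q ≤ 1 := by omega
      have hq6 : q = 1 → i ≠ 6 := by
        intro h4 h5
        rcases hq with h6 | ⟨_, h6⟩
        · omega
        · subst h5
          simp at h6
      obtain ⟨k1, k2⟩ := g1.no_LZ h0 (by omega) hq1 hq6 (Nat.succ_pos n') hl hj hj5
      have hv' : v = H1.W (RH n Φ) .nil .nil (Tsq.sq (RH n Φ)).1 j := by
        rw [hv]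
        unfold LWd
        rw [hB]
      rcases hwv with h2 | h2
      · exact k1 (h2.trans hv')
      · exact k2 (h2.trans hv')
  cases m'
  · exact key _ rfl (Or.inl e2)
  · exact key _ rfl (Or.inr e2)

end Pool.OddHC
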