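import Pool.Agent.Work.MP_8f87b2_h10.LAg

/-!
# MP_8f87b2_co: inner words of the windows A against L1: the numerical part
-/

set_option autoImplicit false

namespace Pool.OddHC

open Finset Equiv BinaryTree Pool.Agent.Work.MP_8f87b2_co

namespace Ft

/-- the hidden bead of the word number `j` (for `j = 0, 4, 9, 10, 17, 19`) -/
def hbl (x y s : ℕ) : ℕ → ℕ
  | 0 => x
  | 4 => x + 2
  | 9 => x + 2
  | 10 => y
  | 17 => s + 3 + y
  | _ => s + 2 + y

theorem LTnumR {N q i j m α β d r b s x y : ℕ} (hi : i ∈ [0, 1, 3, 6, 8, 9]) (hj : j < 20) (hj5 : j ≠ 5)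
    (hN : α + 1 + β = N) (hβ : 3 ≤ β) (hd : 1 ≤ d) (hd' : d + 1 ≤ α) (hm : 1 ≤ m) (hx : x + 1 = r)
    (hy : y + 1 = b) (hy0 : 0 < y) (hs : 4 ≤ s) (hsum : s + b = r)
    (e1 : AM N q i = LN r b s j)
    (e2 : AS β q i ++ List.replicate m (AM N q i - d) = PP [x] [y] [] r b s j)
    (hb : j ∈ [0, 4, 9, 10, 17, 19] → AM N q i - d ≠ hbl x y s j) : False := by
  have hb0 : ¬ b = 0 := by omega
  simp only [List.mem_cons, List.not_mem_nil, or_false] at hi
  rcases hi with rfl | rfl | rfl | rfl | rfl | rfl <;>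
  rcases q with _ | q <;>
  rcases m with _ | _ | _ | _ | m <;>
  simp [AM, AS, pQ, List.replicate_succ] at e1 e2 hb hm <;>
  interval_cases j <;> simp [PP, LN, hb0, hbl] at e1 e2 hb hj5 <;> omega

theorem LTnumM {N q i j m α β d r b s x y : ℕ} (hi : i ∈ [0, 1, 3, 6, 8, 9]) (hj : j < 20) (hj5 : j ≠ 5)
    (hN : α + 1 + β = N) (hβ : 3 ≤ β) (hd : 1 ≤ d) (hd' : d + 1 ≤ α) (hm : 1 ≤ m) (hx : x + 1 = r)
    (hy : y + 1 = b) (hy0 : 0 < y) (hs : 4 ≤ s) (hsum : s + b = r)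
    (e1 : AM N q i = LN r b s j)
    (e2 : AS β q i ++ List.replicate m (AM N q i - d) =
      (PP [x] [y] [] r b s j).reverse.map (fun z => LN r b s j - z))
    (hb : j = 10 → AM N q i - d ≠ LN r b s j - y) : False := by
  have hb0 : ¬ b = 0 := by omega
  simp only [List.mem_cons, List.not_mem_nil, or_false] at hi
  rcases hi with rfl | rfl | rfl | rfl | rfl | rfl <;>
  rcases q with _ | q <;>
  rcases m with _ | _ | _ | _ | m <;>
  simp [AM, AS, pQ, List.replicate_succ] at e1 e2 hb hm <;>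
  interval_cases j <;> simp [PP, LN, hb0] at e1 e2 hb hj5 <;> omega

/-- one soliton, `B' = nil`, right -/
theorem LZnumR {N q i j m a p r : ℕ} (hi : i ∈ [1, 3, 6, 8, 9]) (hj : j < 20) (hj5 : j ≠ 5)
    (hN : 2 * a + 2 * p + 6 = N) (hk : 14 ≤ m + 2 * a + p + q + 7) (hq : q ≤ 1) (hq6 : q = 1 → i ≠ 6)
    (hm : 1 ≤ m) (hr : 6 ≤ r)
    (e1 : AM N q i = LN r 0 r j)
    (e2 : AS (p + 3) q i ++ List.replicate m (AM N q i - (2 * a + p + 1)) = PP [r - 3] [] [r - 2] r 0 r j) :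
    False := by
  simp only [List.mem_cons, List.not_mem_nil, or_false] at hi
  rcases hi with rfl | rfl | rfl | rfl | rfl <;>
  interval_cases q <;>
  rcases m with _ | _ | _ | _ | m <;>
  simp [AM, AS, pQ, List.replicate_succ] at e1 e2 hm hq6 <;>
  interval_cases j <;> simp [PP, LN] at e1 e2 hj5 <;> omega

theorem LZnumM {N q i j m a p r : ℕ} (hi : i ∈ [1, 3, 6, 8, 9]) (hj : j < 20) (hj5 : j ≠ 5)
    (hN : 2 * a + 2 * p + 6 = N) (hk : 14 ≤ m + 2 * a + p + q + 7) (hq : q ≤ 1) (hq6 : q = 1 → i ≠ 6)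
    (hm : 1 ≤ m) (hr : 6 ≤ r)
    (e1 : AM N q i = LN r 0 r j)
    (e2 : AS (p + 3) q i ++ List.replicate m (AM N q i - (2 * a + p + 1)) =
      (PP [r - 3] [] [r - 2] r 0 r j).reverse.map (fun z => LN r 0 r j - z)) : False := by
  simp only [List.mem_cons, List.not_mem_nil, or_false] at hi
  rcases hi with rfl | rfl | rfl | rfl | rfl <;>
  interval_cases q <;>
  rcases m with _ | _ | _ | _ | m <;>
  simp [AM, AS, pQ, List.replicate_succ] at e1 e2 hm hq6 <;>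
  interval_cases j <;> simp [PP, LN] at e1 e2 hj5 <;> omega

end Ft

end Pool.OddHC
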